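import Pool.Agent.R716.Sp4

/-!
# The lattice chain and the filtration of `Sp_4(ℚ_p)`
-/

open Topology Filter Matrix

namespace Pool.Agent.R716

variable {p : ℕ} [Fact p.Prime]

/-- `‖x‖ ≤ p ^ n` -/
def Bd (n : ℤ) (x : ℚ_[p]) : Prop := ‖x‖ ≤ (p : ℝ) ^ n

lemma one_lt_p : (1 : ℝ) < p := by exact_mod_cast (Fact.out : p.Prime).one_lt

lemma p_ne : (p : ℚ_[p]) ≠ 0 := by exact_mod_cast (Fact.out : p.Prime).ne_zero

lemma Bd.mono {m n : ℤ} {x : ℚ_[p]} (hx : Bd m x) (h : m ≤ n) : Bd n x :=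
  hx.trans (zpow_le_zpow_right₀ one_lt_p.le h)

lemma Bd.add {n : ℤ} {x y : ℚ_[p]} (hx : Bd n x) (hy : Bd n y) : Bd n (x + y) :=
  (Padic.nonarchimedean x y).trans (max_le hx hy)

lemma Bd.neg {n : ℤ} {x : ℚ_[p]} (hx : Bd n x) : Bd n (-x) := by
  unfold Bd; rw [norm_neg]; exact hx

lemma Bd.sub {n : ℤ} {x y : ℚ_[p]} (hx : Bd n x) (hy : Bd n y) : Bd n (x - y) := by
  rw [sub_eq_add_neg]; exact hx.add hy.neg

lemma Bd.mul {m n : ℤ} {x y : ℚ_[p]} (hx : Bd m x) (hy : Bd n y) : Bd (m + n) (x * y) := by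
  have hp : (0 : ℝ) < p := one_pos.trans one_lt_p
  rw [Bd, norm_mul, zpow_add₀ hp.ne']
  exact mul_le_mul hx hy (norm_nonneg _) (zpow_nonneg hp.le _)

lemma Bd.mul' {m n k : ℤ} {x y : ℚ_[p]} (hx : Bd m x) (hy : Bd n y) (h : m + n ≤ k) :
    Bd k (x * y) := (hx.mul hy).mono h

lemma Bd.zero (n : ℤ) : Bd n (0 : ℚ_[p]) := by
  rw [Bd, norm_zero]
  exact zpow_nonneg (one_pos.trans one_lt_p).le _

lemma Bd.sum {n : ℤ} {ι : Type} (s : Finset ι) (f : ι → ℚ_[p]) (h : ∀ i ∈ s, Bd n (f i)) :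
    Bd n (∑ i ∈ s, f i) := by
  classical
  induction s using Finset.induction_on with
  | empty => simpa using Bd.zero n
  | insert a s ha ih =>
    rw [Finset.sum_insert ha]
    exact (h a (Finset.mem_insert_self a s)).add
      (ih fun i hi => h i (Finset.mem_insert_of_mem hi))

lemma Bd.int (n : ℤ) : Bd 0 (n : ℚ_[p]) := by
  rw [Bd, zpow_zero]; exact Padic.norm_int_le_one n

lemma Bd.one : Bd 0 (1 : ℚ_[p]) := by
  rw [Bd, zpow_zero, norm_one]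

lemma Bd.zpow (n : ℤ) : Bd (-n) ((p : ℚ_[p]) ^ n) := by
  rw [Bd, norm_zpow, Padic.norm_p, _root_.inv_zpow, _root_.zpow_neg]

lemma Bd.self : Bd (-1) (p : ℚ_[p]) := by simpa using Bd.zpow (p := p) 1

lemma Bd.pinv : Bd 1 ((p : ℚ_[p])⁻¹) := by simpa using Bd.zpow (p := p) (-1)

lemma bd_zpow_mul {n m : ℤ} {x : ℚ_[p]} : Bd n ((p : ℚ_[p]) ^ m * x) ↔ Bd (n + m) x := by
  have hp : (0 : ℝ) < p := one_pos.trans one_lt_p
  rw [Bd, Bd, norm_mul, norm_zpow, Padic.norm_p, _root_.inv_zpow, inv_mul_le_iff₀ (zpow_pos hp _),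
    zpow_add₀ hp.ne', mul_comm]

lemma not_bd {n : ℤ} {x : ℚ_[p]} (h : ¬ Bd n x) {m : ℤ} (h' : Bd m x) : n < m := by
  by_contra h1
  exact h (h'.mono (by omega))

/-- each element is bounded -/
lemma exists_bd (x : ℚ_[p]) : ∃ n : ℤ, Bd n x := by
  obtain ⟨n, hn⟩ := pow_unbounded_of_one_lt ‖x‖ (one_lt_p (p := p))
  exact ⟨n, by rw [Bd, zpow_natCast]; exact hn.le⟩

/-- a nonzero element is not in all balls -/
lemma exists_not_bd {x : ℚ_[p]} (hx : x ≠ 0) : ∃ n : ℕ, ¬ Bd (-(n : ℤ)) x := by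
  have h0 : 0 < ‖x‖ := norm_pos_iff.2 hx
  obtain ⟨n, hn⟩ := pow_unbounded_of_one_lt ‖x‖⁻¹ (one_lt_p (p := p))
  refine ⟨n, fun h => ?_⟩
  have hp : (0 : ℝ) < p := one_pos.trans one_lt_p
  rw [Bd, _root_.zpow_neg, zpow_natCast] at h
  have h1 : ‖x‖⁻¹ < (p : ℝ) ^ n := hn
  have h2 : (p : ℝ) ^ n ≤ ‖x‖⁻¹ := by
    rw [le_inv_comm₀ (pow_pos hp _) h0]
    exact h
  exact absurd h1 (not_lt.2 h2)

/-! ### Reduction modulo `p` -/

/-- reduction modulo `p` -/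
noncomputable def rd (x : ℚ_[p]) : ZMod p :=
  if h : ‖x‖ ≤ 1 then PadicInt.toZMod ⟨x, h⟩ else 0

lemma rd_coe (y : ℤ_[p]) : rd (y : ℚ_[p]) = PadicInt.toZMod y := dif_pos y.2

lemma Bd.lift {x : ℚ_[p]} (hx : Bd 0 x) : ∃ y : ℤ_[p], (y : ℚ_[p]) = x := by
  rw [Bd, zpow_zero] at hx
  exact ⟨⟨x, hx⟩, rfl⟩

lemma bd_coe (y : ℤ_[p]) : Bd 0 (y : ℚ_[p]) := by
  rw [Bd, zpow_zero]; exact y.2

lemma Bd.lift' {x : ℚ_[p]} (hx : Bd (-1) x) : ∃ y : ℤ_[p], (p : ℚ_[p]) * y = x := by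
  have h1 : Bd 0 ((p : ℚ_[p])⁻¹ * x) := by
    have := Bd.pinv.mul hx
    simpa using this
  obtain ⟨y, hy⟩ := h1.lift
  exact ⟨y, by rw [hy, ← mul_assoc, mul_inv_cancel₀ p_ne, one_mul]⟩

lemma rd_add {x y : ℚ_[p]} (hx : Bd 0 x) (hy : Bd 0 y) : rd (x + y) = rd x + rd y := by
  obtain ⟨x, rfl⟩ := hx.lift
  obtain ⟨y, rfl⟩ := hy.lift
  rw [← PadicInt.coe_add, rd_coe, rd_coe, rd_coe, map_add]

lemma rd_mul {x y : ℚ_[p]} (hx : Bd 0 x) (hy : Bd 0 y) : rd (x * y) = rd x * rd y := by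
  obtain ⟨x, rfl⟩ := hx.lift
  obtain ⟨y, rfl⟩ := hy.lift
  rw [← PadicInt.coe_mul, rd_coe, rd_coe, rd_coe, map_mul]

lemma rd_int (n : ℤ) : rd (n : ℚ_[p]) = n := by
  rw [← PadicInt.coe_intCast, rd_coe, map_intCast]

lemma rd_one : rd (1 : ℚ_[p]) = 1 := by
  rw [← PadicInt.coe_one, rd_coe, map_one]

lemma toZMod_eq_zero (y : ℤ_[p]) : PadicInt.toZMod y = 0 ↔ Bd (-1) (y : ℚ_[p]) := by
  rw [← RingHom.mem_ker, PadicInt.ker_toZMod, IsLocalRing.mem_maximalIdeal, PadicInt.mem_nonunits,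
    Bd, Padic.norm_le_pow_iff_norm_lt_pow_add_one]
  norm_num

lemma rd_eq_zero {x : ℚ_[p]} (hx : Bd 0 x) : rd x = 0 ↔ Bd (-1) x := by
  obtain ⟨x, rfl⟩ := hx.lift
  rw [rd_coe, toZMod_eq_zero]

lemma rd_zero_of {x : ℚ_[p]} (hx : Bd (-1) x) : rd x = 0 :=
  (rd_eq_zero (hx.mono (by norm_num))).2 hx

lemma rd_congr {x y : ℚ_[p]} (hy : Bd 0 y) (h : Bd (-1) (x - y)) : rd x = rd y := by
  have : x = y + (x - y) := by ring
  rw [this, rd_add hy (h.mono (by norm_num)), rd_zero_of h, add_zero]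

/-! ### The lattices -/

/-- exponents -/
def ex (k : Fin 4) : ℤ := ![1, 0, 1, 0] k

lemma ex_cases (k : Fin 4) : ex k = 0 ∨ ex k = 1 := by
  fin_cases k <;> simp [ex]

lemma ex_rev (k : Fin 4) : ex (Fin.rev k) = 1 - ex k := by
  fin_cases k <;> rfl

@[simp] lemma ex0 : ex 0 = 1 := rfl
@[simp] lemma ex1 : ex 1 = 0 := rfl
@[simp] lemma ex2 : ex 2 = 1 := rfl
@[simp] lemma ex3 : ex 3 = 0 := rfl

/-- `v` belongs to the lattice `L_i` -/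
def LL (i : ℤ) (v : Fin 4 → ℚ_[p]) : Prop := ∀ k, Bd ((ex k - i) / 2) (v k)

lemma LL.mono {i j : ℤ} {v : Fin 4 → ℚ_[p]} (h : LL j v) (hij : i ≤ j) : LL i v := fun k =>
  (h k).mono (by omega)

lemma LL.add {i : ℤ} {v w : Fin 4 → ℚ_[p]} (hv : LL i v) (hw : LL i w) : LL i (v + w) :=
  fun k => (hv k).add (hw k)

lemma LL.sub {i : ℤ} {v w : Fin 4 → ℚ_[p]} (hv : LL i v) (hw : LL i w) : LL i (v - w) :=
  fun k => (hv k).sub (hw k)

lemma LL.zpow {i : ℤ} {v : Fin 4 → ℚ_[p]} (hv : LL i v) (n : ℤ) {j : ℤ} (h : j = i + 2 * n) :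
    LL j ((p : ℚ_[p]) ^ n • v) := by
  intro k
  have := (Bd.zpow (p := p) n).mul (hv k)
  exact this.mono (by omega)

lemma LL.of_zpow {i : ℤ} {v : Fin 4 → ℚ_[p]} (n : ℤ) (hv : LL i ((p : ℚ_[p]) ^ n • v)) {j : ℤ}
    (h : j = i - 2 * n) : LL j v := by
  have := hv.zpow (-n) (j := j) (by omega)
  rwa [smul_smul, ← zpow_add₀ p_ne, neg_add_cancel, zpow_zero, one_smul] at this

lemma LL.om {i j : ℤ} {v w : Fin 4 → ℚ_[p]} (hv : LL i v) (hw : LL j w) :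
    Bd ((1 - i - j) / 2) (om v w) := by
  have h : ∀ a b : Fin 4, ex a + ex b = 1 → Bd ((1 - i - j) / 2) (v a * w b) := by
    intro a b hab
    exact (hv a).mul' (hw b) (by omega)
  unfold Pool.Agent.R716.om
  exact (((h 0 3 rfl).add (h 1 2 rfl)).sub (h 2 1 rfl)).sub (h 3 0 rfl)

/-- the lattices exhaust the space -/
lemma exists_LL (v : Fin 4 → ℚ_[p]) : ∃ i, LL i v := by
  choose n hn using fun k => exists_bd (v k)
  obtain ⟨k0, hk0⟩ := Finite.exists_max n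
  refine ⟨-2 * n k0, fun k => (hn k).mono ?_⟩
  have := hk0 k
  rcases ex_cases k with h | h <;> rw [h] <;> omega

lemma exists_not_LL {v : Fin 4 → ℚ_[p]} (hv : v ≠ 0) : ∃ i, ¬ LL i v := by
  obtain ⟨k, hk⟩ : ∃ k, v k ≠ 0 := by
    by_contra h
    push Not at h
    exact hv (funext h)
  obtain ⟨n, hn⟩ := exists_not_bd hk
  refine ⟨1 + 2 * n, fun h => hn ((h k).mono ?_)⟩
  rcases ex_cases k with h | h <;> rw [h] <;> omega

/-- each nonzero vector has an order -/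
lemma exists_ord {v : Fin 4 → ℚ_[p]} (hv : v ≠ 0) : ∃ i, LL i v ∧ ¬ LL (i + 1) v := by
  obtain ⟨a, ha⟩ := exists_LL v
  obtain ⟨b, hb⟩ := exists_not_LL hv
  obtain ⟨m, hm, hm'⟩ := Int.exists_greatest_of_bdd (P := fun i => LL i v)
    ⟨b, fun z hz => by
      by_contra h
      exact hb (hz.mono (by omega))⟩ ⟨a, ha⟩
  exact ⟨m, hm, fun h => by have := hm' _ h; omega⟩

/-! ### The filtration -/

/-- `A L_i ⊆ L_{i+n}` -/
def Deep (n : ℤ) (A : Matrix (Fin 4) (Fin 4) ℚ_[p]) : Prop :=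
  ∀ k l, Bd ((ex k - ex l - n) / 2) (A k l)

lemma Deep.mono {m n : ℤ} {A : Matrix (Fin 4) (Fin 4) ℚ_[p]} (h : Deep n A) (hm : m ≤ n) :
    Deep m A := fun k l => (h k l).mono (by omega)

lemma Deep.add {n : ℤ} {A B : Matrix (Fin 4) (Fin 4) ℚ_[p]} (hA : Deep n A) (hB : Deep n B) :
    Deep n (A + B) := fun k l => (hA k l).add (hB k l)

lemma Deep.mul {m n : ℤ} {A B : Matrix (Fin 4) (Fin 4) ℚ_[p]} (hA : Deep m A) (hB : Deep n B)
    {k : ℤ} (h : k ≤ m + n) : Deep k (A * B) := by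
  intro a b
  rw [Matrix.mul_apply]
  refine Bd.sum _ _ fun j _ => (hA a j).mul' (hB j b) ?_
  rcases ex_cases a with ha | ha <;> rcases ex_cases b with hb | hb <;>
    rcases ex_cases j with hj | hj <;> rw [ha, hb, hj] <;> omega

lemma Deep.smul {n : ℤ} {A : Matrix (Fin 4) (Fin 4) ℚ_[p]} (hA : Deep n A) {c : ℚ_[p]}
    (hc : Bd 0 c) : Deep n (c • A) := by
  intro a b
  have := hc.mul (hA a b)
  rwa [zero_add] at this

lemma Deep.one : Deep 0 (1 : Matrix (Fin 4) (Fin 4) ℚ_[p]) := by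
  intro a b
  by_cases h : a = b
  · subst h
    rw [Matrix.one_apply_eq, sub_self, sub_zero]
    exact Bd.one
  · rw [Matrix.one_apply_ne h]
    exact Bd.zero _

lemma Deep.mulVec {n i : ℤ} {A : Matrix (Fin 4) (Fin 4) ℚ_[p]} {v : Fin 4 → ℚ_[p]}
    (hA : Deep n A) (hv : LL i v) : LL (i + n) (A *ᵥ v) := by
  intro a
  rw [Matrix.mulVec, dotProduct]
  refine Bd.sum _ _ fun j _ => (hA a j).mul' (hv j) ?_
  rcases ex_cases a with ha | ha <;> rcases ex_cases j with hj | hj <;> rw [ha, hj] <;> omega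

lemma norm_adj (A : Matrix (Fin 4) (Fin 4) ℚ_[p]) (k l : Fin 4) :
    ‖(-(J4 ℚ_[p] * Aᵀ * J4 ℚ_[p])) k l‖ = ‖A (Fin.rev l) (Fin.rev k)‖ := by
  rw [Matrix.neg_apply, norm_neg]
  simp only [Matrix.mul_apply, Fin.sum_univ_four, transpose_apply]
  fin_cases k <;> fin_cases l <;> simp [J4, Fin.rev]

lemma Deep.adj {n : ℤ} {A : Matrix (Fin 4) (Fin 4) ℚ_[p]} (hA : Deep n A) :
    Deep n (-(J4 ℚ_[p] * Aᵀ * J4 ℚ_[p])) := by
  intro k l
  rw [Bd, norm_adj]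
  have := hA (Fin.rev l) (Fin.rev k)
  rw [ex_rev, ex_rev] at this
  exact this.mono (by omega)

lemma bd_st {j : ℤ} {w : Fin 4 → ℚ_[p]} (hw : LL j w) (l : Fin 4) :
    Bd ((1 - ex l - j) / 2) (st w l) := by
  fin_cases l
  · exact (hw 3).neg
  · exact (hw 2).neg
  · exact hw 1
  · exact hw 0

lemma deep_vecMulVec {i j n : ℤ} {v w : Fin 4 → ℚ_[p]} (hv : LL i v) (hw : LL j w)
    (h : n ≤ i + j - 1) : Deep n (vecMulVec v (st w)) := by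
  intro k l
  rw [vecMulVec_apply]
  exact (hv k).mul' (bd_st hw l) (by omega)

end Pool.Agent.R716
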