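import Pool.Agent.R716.Cover

/-!
# Definitions for the hand-ins on covers of `Sp_4(ℚ_3)`

This file contains, beside those of `Pool.Agent.R716.Cover`, all definitions used in the statements.
-/

open Topology Filter Matrix

namespace Pool.Agent.R716

/-! ### Irreducible and supercuspidal representations -/

section Rep

variable {G : Type} [Group G] [TopologicalSpace G] {V : Type} [AddCommGroup V] [Module ℂ V]

/-- The space `W` of functions on `G`, stable under right translations, is irreducible. -/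
def IsIrr (W : Submodule ℂ (G → V)) : Prop :=
  W ≠ ⊥ ∧ ∀ W' ≤ W, (∀ f ∈ W', ∀ x, (fun y => f (y * x)) ∈ W') → W' = ⊥ ∨ W' = W

/-- The matrix coefficients `x ↦ l(f( · x))` of the representation of `G` by right translations on
`W`, for the smooth linear functionals `l` on `W` and `f ∈ W`, are compactly supported modulo the
centre of `G`. -/
def CompactCoeff (W : Submodule ℂ (G → V)) : Prop :=
  ∀ l : Module.Dual ℂ W,
    (∀ᶠ u in 𝓝 (1 : G), ∀ f f' : W, (∀ y, f'.1 y = f.1 (y * u)) → l f' = l f) →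
    ∀ f : W, ∃ C : Set G, IsCompact C ∧ ∀ (x : G) (f' : W), (∀ y, f'.1 y = f.1 (y * x)) →
      l f' ≠ 0 → ∃ z ∈ Subgroup.center G, z * x ∈ C

end Rep

/-! ### Covers -/

section Covers

variable {E G : Type} [Group E] [TopologicalSpace E] [Group G] [TopologicalSpace G]

/-- `ρ̃` is equal to `ρ ∘ s⁻¹` on `s(K)` and `Z = ker π` acts by the character `ε`. -/
def IsExt (π : E →* G) (ε : π.ker →* ℂˣ) (K : Subgroup G) (s : K →* E) (ρ : Representation ℂ K ℂ)
    (ρt : Representation ℂ (K.comap π) ℂ) : Prop :=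
  ∀ (x : K.comap π) (z : π.ker) (k : K), (x : E) = z * s k → ρt x = (ε z : ℂ) • ρ k

/-- `Π = ind_K^G ρ` is generic: `Hom_N(Π, ψ) ≠ 0` for some Whittaker datum `(N, ψ)` of `G`; here
`W N ψ` means that `(N, ψ)` is a Whittaker datum. -/
def Generic (W : (N : Subgroup G) → (N →* ℂˣ) → Prop) (K : Subgroup G)
    (ρ : Representation ℂ K ℂ) : Prop :=
  ∃ (N : Subgroup G) (ψ : N →* ℂˣ), W N ψ ∧ ∃ l ∈ Whit (cInd K ρ) N.subtype ψ, l ≠ 0

/-- `Π̃ = ind ρ̃` is generic: `Hom_N(Π̃, ψ) ≠ 0` for some Whittaker datum `(N, ψ)` of `G`, where `N`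
is mapped to the cover by a splitting `i` over `N`. -/
def GenericCover (W : (N : Subgroup G) → (N →* ℂˣ) → Prop) (π : E →* G) (K : Subgroup G)
    (ρt : Representation ℂ (K.comap π) ℂ) : Prop :=
  ∃ (N : Subgroup G) (ψ : N →* ℂˣ) (i : N →* E), W N ψ ∧ IsSplitting π N i ∧
    ∃ l ∈ Whit (cInd (K.comap π) ρt) i ψ, l ≠ 0

/-- The setting of the question: `s` is a splitting over `K`, `ρ` is a smooth one-dimensional
representation of `K` such that `Π = ind_K^G ρ` is irreducible and supercuspidal, and `ρ̃` is the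
representation of `π⁻¹(K) = Z s(K)` attached to `ρ`, `s` and `ε`. -/
def Setting (π : E →* G) (ε : π.ker →* ℂˣ) (K : Subgroup G) (s : K →* E)
    (ρ : Representation ℂ K ℂ) (ρt : Representation ℂ (K.comap π) ℂ) : Prop :=
  IsSplitting π K s ∧ Smooth ρ ∧ IsIrr (cInd K ρ) ∧ CompactCoeff (cInd K ρ) ∧
    IsExt π ε K s ρ ρt

end Covers

/-- For each finite cover `π : E → G` of degree divisible by `p` which splits over `K`, and each
faithful character `ε` of its kernel, there are a splitting `s` over `K` and `ρ` such that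
`Π = ind_K^G ρ` is irreducible supercuspidal and exactly one of `Π`, `Π̃` is generic. -/
def AllCoversFail (p : ℕ) {G : Type} [Group G] [TopologicalSpace G]
    (W : (N : Subgroup G) → (N →* ℂˣ) → Prop) (K : Subgroup G) : Prop :=
  ∀ (E : Type) [Group E] [TopologicalSpace E] [IsTopologicalGroup E] [T2Space E] (π : E →* G)
    (ε : π.ker →* ℂˣ), IsFiniteCover π → p ∣ Nat.card π.ker → Function.Injective ε →
    (∃ s : K →* E, IsSplitting π K s) →
    ∃ (s : K →* E) (ρ : Representation ℂ K ℂ) (ρt : Representation ℂ (K.comap π) ℂ),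
      Setting π ε K s ρ ρt ∧ ¬ (GenericCover W π K ρt ↔ Generic W K ρ)

/-- There are a cover `π : E → G` of degree `p`, a faithful character `ε` of its kernel, a splitting
`s` over `K` and `ρ` such that `Π` and `Π̃` are both irreducible and supercuspidal, `Π` is not generic
and `Π̃` is generic. -/
def CoverExample (p : ℕ) {G : Type} [Group G] [TopologicalSpace G]
    (W : (N : Subgroup G) → (N →* ℂˣ) → Prop) (K : Subgroup G) : Prop :=
  ∃ (E : Type) (_ : Group E) (_ : TopologicalSpace E) (_ : IsTopologicalGroup E) (_ : T2Space E)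
    (π : E →* G) (ε : π.ker →* ℂˣ) (s : K →* E) (ρ : Representation ℂ K ℂ)
    (ρt : Representation ℂ (K.comap π) ℂ),
    IsFiniteCover π ∧ Nat.card π.ker = p ∧ Function.Injective ε ∧ Setting π ε K s ρ ρt ∧
      IsIrr (cInd (K.comap π) ρt) ∧ CompactCoeff (cInd (K.comap π) ρt) ∧
      ¬ Generic W K ρ ∧ GenericCover W π K ρt

/-! ### The symplectic group -/

/-- The matrix of the alternating form `⟨v, w⟩ = v₀ w₃ + v₁ w₂ - v₂ w₁ - v₃ w₀`. -/
def J4 (R : Type) [CommRing R] : Matrix (Fin 4) (Fin 4) R :=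
  !![0, 0, 0, 1; 0, 0, 1, 0; 0, -1, 0, 0; -1, 0, 0, 0]

/-- `A` is a symplectic matrix. -/
def IsSymp {R : Type} [CommRing R] (A : Matrix (Fin 4) (Fin 4) R) : Prop :=
  Aᵀ * J4 R * A = J4 R

section Ring

variable {R : Type} [CommRing R]

lemma IsSymp.one : IsSymp (1 : Matrix (Fin 4) (Fin 4) R) := by
  simp [IsSymp]

lemma IsSymp.mul {A B : Matrix (Fin 4) (Fin 4) R} (hA : IsSymp A) (hB : IsSymp B) :
    IsSymp (A * B) := by
  unfold IsSymp at *
  rw [transpose_mul]
  calc Bᵀ * Aᵀ * J4 R * (A * B) = Bᵀ * (Aᵀ * J4 R * A) * B := by simp only [Matrix.mul_assoc]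
    _ = J4 R := by rw [hA, hB]

lemma IsSymp.inv {g : GL (Fin 4) R} (hg : IsSymp g.1) : IsSymp g⁻¹.1 := by
  unfold IsSymp at *
  have h : g.1 * g⁻¹.1 = 1 := Units.mul_inv g
  have h' : (g⁻¹.1)ᵀ * (g.1)ᵀ = 1 := by rw [← transpose_mul, h, transpose_one]
  calc (g⁻¹.1)ᵀ * J4 R * g⁻¹.1 = (g⁻¹.1)ᵀ * (g.1ᵀ * J4 R * g.1) * g⁻¹.1 := by rw [hg]
    _ = ((g⁻¹.1)ᵀ * g.1ᵀ) * J4 R * (g.1 * g⁻¹.1) := by simp only [Matrix.mul_assoc]
    _ = J4 R := by rw [h, h', Matrix.one_mul, Matrix.mul_one]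

variable (R) in
/-- The symplectic group `Sp_4(R)`. -/
def Sp4 : Subgroup (GL (Fin 4) R) where
  carrier := {g | IsSymp g.1}
  mul_mem' ha hb := IsSymp.mul ha hb
  one_mem' := IsSymp.one
  inv_mem' ha := IsSymp.inv ha

/-- `A` is upper triangular and unipotent -/
def IsUpperUni (A : Matrix (Fin 4) (Fin 4) R) : Prop :=
  ∀ i j, j ≤ i → A i j = if i = j then 1 else 0

/-- the element `x_α(t)` of the root group of the short simple root -/
def xa (t : R) : Matrix (Fin 4) (Fin 4) R :=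
  !![1, t, 0, 0; 0, 1, 0, 0; 0, 0, 1, -t; 0, 0, 0, 1]

/-- the element `x_β(t)` of the root group of the long simple root -/
def xb (t : R) : Matrix (Fin 4) (Fin 4) R :=
  !![1, 0, 0, 0; 0, 1, t, 0; 0, 0, 1, 0; 0, 0, 0, 1]

end Ring

/-- The group `Sp_4(ℚ_p)`. -/
def SpQ (p : ℕ) [Fact p.Prime] : Type := Sp4 ℚ_[p]

/-- the group structure -/
noncomputable instance instGroupSpQ (p : ℕ) [Fact p.Prime] : Group (SpQ p) :=
  Subgroup.toGroup (Sp4 ℚ_[p])

/-- the `p`-adic topology (as a subspace of `GL_4(ℚ_p)`) -/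
noncomputable instance instTopSpQ (p : ℕ) [Fact p.Prime] : TopologicalSpace (SpQ p) :=
  (instTopologicalSpaceSubtype : TopologicalSpace (Sp4 ℚ_[p]))

/-- The matrix of an element of `Sp_4(ℚ_p)`. -/
def mat {p : ℕ} [Fact p.Prime] (g : SpQ p) : Matrix (Fin 4) (Fin 4) ℚ_[p] :=
  Units.val (Subtype.val g)

/-- `(N, ψ)` is a Whittaker datum of `Sp_4(ℚ_p)`: there is `g` such that `N = g N₀ g⁻¹`, where `N₀` is
the group of the upper triangular unipotent matrices in `Sp_4(ℚ_p)`, and `ψ` is a smooth character of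
`N` which is non-trivial on the root groups `g x_α(ℚ_p) g⁻¹` and `g x_β(ℚ_p) g⁻¹` of the simple
roots. -/
def IsWhittakerDatum {p : ℕ} [Fact p.Prime] (N : Subgroup (SpQ p)) (ψ : N →* ℂˣ) : Prop :=
  ∃ g : SpQ p, (∀ x : SpQ p, x ∈ N ↔ IsUpperUni (mat (g⁻¹ * x * g))) ∧
    (∀ᶠ n in 𝓝 (1 : N), ψ n = 1) ∧
    (∃ (n : N) (t : ℚ_[p]), mat (g⁻¹ * (n : SpQ p) * g) = xa t ∧ ψ n ≠ 1) ∧
    (∃ (n : N) (t : ℚ_[p]), mat (g⁻¹ * (n : SpQ p) * g) = xb t ∧ ψ n ≠ 1)

end Pool.Agent.R716
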