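import Mathlib

/-!
# Finite covers of topological groups and compact induction: definitions
-/

open Topology

namespace Pool.Agent.R716

/-- `π : E → G` is a finite central extension (finite cover) of the topological group `G` with cyclic
kernel: `π` is continuous, open and surjective, and its kernel is central, finite and cyclic. -/
def IsFiniteCover {E G : Type} [Group E] [TopologicalSpace E] [Group G] [TopologicalSpace G]
    (π : E →* G) : Prop :=
  Continuous π ∧ IsOpenMap π ∧ Function.Surjective π ∧ π.ker ≤ Subgroup.center E ∧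
    Finite π.ker ∧ IsCyclic π.ker

/-- `s` is a continuous splitting of the cover `π : E → G` over the subgroup `H` of `G`. -/
def IsSplitting {E G : Type} [Group E] [TopologicalSpace E] [Group G] [TopologicalSpace G]
    (π : E →* G) (H : Subgroup G) (s : H →* E) : Prop :=
  Continuous s ∧ ∀ h : H, π (s h) = h

/-- A representation of a topological group is smooth if each vector has an open stabiliser. -/
def Smooth {H : Type} [Group H] [TopologicalSpace H] {V : Type} [AddCommGroup V] [Module ℂ V]
    (ρ : Representation ℂ H V) : Prop :=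
  ∀ v : V, ∀ᶠ h in 𝓝 (1 : H), ρ h v = v

/-- `f : G → V` is an element of the compactly induced representation `ind_K^G ρ` (`K` an open
subgroup of `G`): `f (k g) = ρ(k) f(g)`, `f` is invariant under right translation by the elements of
`G` close enough to `1`, and the support of `f` is contained in a finite union of cosets `K t`. -/
def InInd {G : Type} [Group G] [TopologicalSpace G] {V : Type} [AddCommGroup V] [Module ℂ V]
    (K : Subgroup G) (ρ : Representation ℂ K V) (f : G → V) : Prop :=
  (∀ (k : K) (g : G), f (k * g) = ρ k (f g)) ∧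
    (∀ᶠ u in 𝓝 (1 : G), ∀ g, f (g * u) = f g) ∧
    ∃ S : Set G, S.Finite ∧ ∀ g, f g ≠ 0 → ∃ t ∈ S, ∃ k ∈ K, g = k * t

section Ind

variable {G : Type} [Group G] [TopologicalSpace G] {V : Type} [AddCommGroup V] [Module ℂ V]

lemma InInd.add {K : Subgroup G} {ρ : Representation ℂ K V} {f f' : G → V} (h : InInd K ρ f)
    (h' : InInd K ρ f') : InInd K ρ (f + f') := by
  obtain ⟨h1, h2, S, hS, h3⟩ := h
  obtain ⟨h1', h2', S', hS', h3'⟩ := h'
  refine ⟨fun k g => ?_, ?_, S ∪ S', hS.union hS', fun g hg => ?_⟩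
  · simp [h1, h1']
  · filter_upwards [h2, h2'] with u hu hu' g
    simp [hu, hu']
  · by_cases h : f g = 0
    · obtain ⟨s, hs, k, hk, e⟩ := h3' g (by
        intro h'
        apply hg
        simp [h, h'])
      exact ⟨s, Or.inr hs, k, hk, e⟩
    · obtain ⟨s, hs, k, hk, e⟩ := h3 g h
      exact ⟨s, Or.inl hs, k, hk, e⟩

lemma InInd.zero (K : Subgroup G) (ρ : Representation ℂ K V) : InInd K ρ (0 : G → V) := by
  refine ⟨fun k g => by simp, Filter.Eventually.of_forall fun u g => rfl, ∅, Set.finite_empty, ?_⟩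
  intro g hg
  exact absurd rfl hg

lemma InInd.smul {K : Subgroup G} {ρ : Representation ℂ K V} (a : ℂ) {f : G → V}
    (h : InInd K ρ f) : InInd K ρ (a • f) := by
  obtain ⟨h1, h2, S, hS, h3⟩ := h
  refine ⟨fun k g => ?_, ?_, S, hS, fun g hg => h3 g ?_⟩
  · simp [h1]
  · filter_upwards [h2] with u hu g
    simp [hu]
  · intro h
    apply hg
    simp [h]

end Ind

/-- The space of the compactly induced representation `ind_K^G ρ`, on which `G` acts by right
translations. -/
def cInd {G : Type} [Group G] [TopologicalSpace G] {V : Type} [AddCommGroup V] [Module ℂ V]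
    (K : Subgroup G) (ρ : Representation ℂ K V) : Submodule ℂ (G → V) where
  carrier := {f | InInd K ρ f}
  add_mem' := InInd.add
  zero_mem' := InInd.zero K ρ
  smul_mem' a _ := InInd.smul a

/-- For a space `W` of functions on `G` stable under right translations, a group `N` with a
homomorphism `j : N → G` and a character `ψ` of `N`: the space `Hom_N(W, ψ)` of the linear functionals
`l` on `W` with `l(f( · j(n))) = ψ(n) l(f)` for all `n ∈ N`, `f ∈ W`. -/
def Whit {G : Type} [Group G] {V : Type} [AddCommGroup V] [Module ℂ V] (W : Submodule ℂ (G → V))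
    {N : Type} [Group N] (j : N →* G) (ψ : N →* ℂˣ) : Set (Module.Dual ℂ W) :=
  {l | ∀ (n : N) (f f' : W), (∀ x, f'.1 x = f.1 (x * j n)) → l f' = (ψ n : ℂ) * l f}

section Ind

variable {G : Type} [Group G] [TopologicalSpace G] [IsTopologicalGroup G]
variable {V : Type} [AddCommGroup V] [Module ℂ V]

/-- The smoothness condition in the definition of `cInd` is automatic. -/
lemma cInd_smooth {K : Subgroup G} (hK : IsOpen (K : Set G)) {ρ : Representation ℂ K V}
    (hρ : Smooth ρ) {f : G → V} (h1 : ∀ (k : K) (g : G), f (k * g) = ρ k (f g))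
    {S : Set G} (hS : S.Finite) (h3 : ∀ g, f g ≠ 0 → ∃ s ∈ S, ∃ k ∈ K, g = k * s) :
    ∀ᶠ u in 𝓝 (1 : G), ∀ g, f (g * u) = f g := by
  have key : ∀ s ∈ S, ∀ᶠ u in 𝓝 (1 : G), s * u * s⁻¹ ∈ K ∧
      ∀ k : K, (k : G) = s * u * s⁻¹ → ρ k (f s) = f s := by
    intro s _
    have hc : Filter.Tendsto (fun u : G => s * u * s⁻¹) (𝓝 1) (𝓝 1) := by
      have : Continuous fun u : G => s * u * s⁻¹ := by fun_prop
      simpa using this.tendsto 1
    have hK1 : ∀ᶠ g in 𝓝 (1 : G), g ∈ K := hK.mem_nhds (one_mem K)
    have h4 : ∀ᶠ g in 𝓝 (1 : G), ∀ k : K, (k : G) = g → ρ k (f s) = f s := by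
      have h5 := hρ (f s)
      rw [nhds_subtype_eq_comap, Filter.eventually_comap] at h5
      filter_upwards [h5] with g hg k hk
      exact hg k hk
    filter_upwards [hc.eventually hK1, hc.eventually h4] with u hu hu'
    exact ⟨hu, hu'⟩
  have key' := (Set.Finite.eventually_all (l := 𝓝 (1 : G)) (ι := G) hS
    (p := fun s u => s * u * s⁻¹ ∈ K ∧ ∀ k : K, (k : G) = s * u * s⁻¹ → ρ k (f s) = f s)).2 key
  filter_upwards [key'] with u hu g
  by_cases hg : ∃ s ∈ S, ∃ k ∈ K, g = k * s
  · obtain ⟨s, hs, k, hk, rfl⟩ := hg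
    obtain ⟨h5, h6⟩ := hu s hs
    have e : k * s * u = ((⟨k, hk⟩ * ⟨s * u * s⁻¹, h5⟩ : K) : G) * s := by
      push_cast
      group
    have e' : k * s = ((⟨k, hk⟩ : K) : G) * s := rfl
    rw [e, h1, e', h1, map_mul, Module.End.mul_apply, h6 _ rfl]
  · have h7 : f g = 0 := by
      by_contra h
      exact hg (h3 g h)
    rw [h7]
    by_contra h
    obtain ⟨s, hs, k, hk, e⟩ := h3 _ h
    apply hg
    refine ⟨s, hs, k * (s * u * s⁻¹)⁻¹, mul_mem hk (inv_mem (hu s hs).1), ?_⟩
    have : g = k * s * u⁻¹ := by rw [← e]; group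
    rw [this]
    group

/-- right translation preserves `cInd` -/
lemma InInd.translate {K : Subgroup G} {ρ : Representation ℂ K V} {f : G → V} (h : InInd K ρ f)
    (g : G) : InInd K ρ (fun x => f (x * g)) := by
  obtain ⟨h1, h2, S, hS, h3⟩ := h
  refine ⟨fun k x => ?_, ?_, (fun s => s * g⁻¹) '' S, hS.image _, fun x hx => ?_⟩
  · show f (k * x * g) = _
    rw [mul_assoc, h1]
  · have hc : Filter.Tendsto (fun u : G => g⁻¹ * u * g) (𝓝 1) (𝓝 1) := by
      have : Continuous fun u : G => g⁻¹ * u * g := by fun_prop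
      simpa using this.tendsto 1
    filter_upwards [hc.eventually h2] with u hu x
    have := hu (x * g)
    show f (x * u * g) = f (x * g)
    rw [← this]
    congr 1
    group
  · obtain ⟨s, hs, k, hk, e⟩ := h3 (x * g) hx
    refine ⟨s * g⁻¹, ⟨s, hs, rfl⟩, k, hk, ?_⟩
    rw [← mul_assoc, ← e, mul_inv_cancel_right]

end Ind

end Pool.Agent.R716
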