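import Pool.Agent.R716.Chain

/-!
# Duality of lattices
-/

open Topology Filter Matrix

namespace Pool.Agent.R716

variable {p : ℕ} [Fact p.Prime]

lemma om_single (w : Fin 4 → ℚ_[p]) (k : Fin 4) (c : ℚ_[p]) :
    ‖om w (Pi.single (Fin.rev k) c)‖ = ‖c * w k‖ := by
  fin_cases k
  · have : om w (Pi.single (Fin.rev 0) c) = c * w 0 := by
      simp [om, Fin.rev, mul_comm]
    exact congrArg _ this
  · have : om w (Pi.single (Fin.rev 1) c) = c * w 1 := by
      simp [om, Fin.rev, mul_comm]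
    exact congrArg _ this
  · have : om w (Pi.single (Fin.rev 2) c) = -(c * w 2) := by
      simp [om, Fin.rev, mul_comm]
    have h := congrArg (fun x => ‖x‖) this
    simpa [norm_neg] using h
  · have : om w (Pi.single (Fin.rev 3) c) = -(c * w 3) := by
      simp [om, Fin.rev, mul_comm]
    have h := congrArg (fun x => ‖x‖) this
    simpa [norm_neg] using h

lemma LL_of_dual {j : ℤ} {w : Fin 4 → ℚ_[p]} (h : ∀ c, LL (2 - j) c → Bd (-1) (om w c)) :
    LL j w := by
  intro k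
  have h1 : LL (2 - j) (Pi.single (Fin.rev k) ((p : ℚ_[p]) ^ (-((j - 1 - ex k) / 2)))) := by
    intro l
    by_cases hl : l = Fin.rev k
    · subst hl
      rw [Pi.single_eq_same, ex_rev]
      exact (Bd.zpow _).mono (by omega)
    · rw [Pi.single_eq_of_ne hl]
      exact Bd.zero _
  have h2 := h _ h1
  rw [Bd, om_single] at h2
  have h3 : Bd (-1) ((p : ℚ_[p]) ^ (-((j - 1 - ex k) / 2)) * w k) := h2
  rw [bd_zpow_mul] at h3
  exact h3.mono (by omega)

/-- the lattice `L_i` -/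
def LA (i : ℤ) : Submodule ℤ_[p] (Fin 4 → ℚ_[p]) where
  carrier := {v | LL i v}
  add_mem' ha hb := LL.add ha hb
  zero_mem' k := Bd.zero _
  smul_mem' c v hv := by
    intro k
    have : Bd 0 ((c : ℚ_[p])) := bd_coe c
    have h2 := this.mul (hv k)
    rw [zero_add] at h2
    exact h2

lemma LA_fg (i : ℤ) : (LA (p := p) i).FG := by
  let f : (Fin 4 → ℤ_[p]) →ₗ[ℤ_[p]] (Fin 4 → ℚ_[p]) :=
    { toFun := fun y k => (p : ℚ_[p]) ^ (-((ex k - i) / 2)) * (y k : ℚ_[p])
      map_add' := by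
        intro x y
        funext k
        simp [mul_add]
      map_smul' := by
        intro c x
        funext k
        show _ * ((c * x k : ℤ_[p]) : ℚ_[p]) = (c : ℚ_[p]) * (_ * (x k : ℚ_[p]))
        rw [PadicInt.coe_mul]
        ring }
  have : LA (p := p) i = LinearMap.range f := by
    ext v
    constructor
    · intro hv
      have h1 : ∀ k, Bd 0 ((p : ℚ_[p]) ^ ((ex k - i) / 2) * v k) := by
        intro k
        rw [bd_zpow_mul, zero_add]
        exact hv k
      choose y hy using fun k => (h1 k).lift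
      refine ⟨y, ?_⟩
      funext k
      show (p : ℚ_[p]) ^ (-((ex k - i) / 2)) * (y k : ℚ_[p]) = v k
      rw [hy, ← mul_assoc, ← zpow_add₀ p_ne, neg_add_cancel, zpow_zero, one_mul]
    · rintro ⟨y, rfl⟩ k
      have := (Bd.zpow (p := p) (-((ex k - i) / 2))).mul (bd_coe (y k))
      exact this.mono (by omega)
  rw [this, LinearMap.range_eq_map]
  exact Submodule.FG.map f Module.Finite.fg_top

lemma LA_span (i : ℤ) : Submodule.span ℚ_[p] (LA (p := p) i : Set (Fin 4 → ℚ_[p])) = ⊤ := by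
  rw [Submodule.eq_top_iff']
  intro x
  obtain ⟨a, ha⟩ := exists_LL x
  have h1 : LL i ((p : ℚ_[p]) ^ (max (i - a) 0) • x) := by
    refine (ha.zpow (max (i - a) 0) rfl).mono ?_
    rcases max_cases (i - a) 0 with h | h <;> omega
  have h2 : x = (p : ℚ_[p]) ^ (-(max (i - a) 0)) • ((p : ℚ_[p]) ^ (max (i - a) 0) • x) := by
    rw [smul_smul, ← zpow_add₀ p_ne, neg_add_cancel, zpow_zero, one_smul]
  rw [h2]
  exact Submodule.smul_mem _ _ (Submodule.subset_span h1)

/-- separation of a vector from a lattice -/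
lemma lattice_sep (C : Submodule ℤ_[p] (Fin 4 → ℚ_[p])) [Submodule.IsLattice ℚ_[p] C]
    {z : Fin 4 → ℚ_[p]} (hz : z ∉ C) :
    ∃ w : Fin 4 → ℚ_[p], (∀ c ∈ C, Bd (-1) (om w c)) ∧ ¬ Bd (-1) (om w z) := by
  classical
  let b := Module.Free.chooseBasis ℤ_[p] C
  let bK := b.extendOfIsLattice ℚ_[p]
  have hrepr : ∀ (c : C) (i), bK.repr c.1 i = (b.repr c i : ℚ_[p]) := by
    intro c i
    have h1 : c.1 = ∑ j, (b.repr c j : ℚ_[p]) • bK j := by
      have h2 := congrArg Subtype.val (b.sum_repr c)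
      rw [← h2]
      push_cast
      refine Finset.sum_congr rfl fun j _ => ?_
      rw [Module.Basis.extendOfIsLattice_apply]
      rfl
    conv_lhs => rw [h1]
    rw [map_sum]
    simp only [map_smul, Module.Basis.repr_self]
    rw [Finsupp.finsetSum_apply]
    simp [Finsupp.single_apply]
  obtain ⟨i, hi⟩ : ∃ i, ¬ Bd 0 (bK.repr z i) := by
    by_contra h
    push Not at h
    choose y hy using fun i => (h i).lift
    apply hz
    have h1 : z = ((∑ j, y j • b j : C) : Fin 4 → ℚ_[p]) := by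
      rw [← bK.sum_repr z]
      push_cast
      refine Finset.sum_congr rfl fun j _ => ?_
      rw [Module.Basis.extendOfIsLattice_apply, ← hy]
      rfl
    rw [h1]
    exact Subtype.mem _
  let φ : (Fin 4 → ℚ_[p]) →ₗ[ℚ_[p]] ℚ_[p] := bK.coord i
  let w : Fin 4 → ℚ_[p] := ![(p : ℚ_[p]) * φ (Pi.single 3 1), p * φ (Pi.single 2 1),
    -(p * φ (Pi.single 1 1)), -(p * φ (Pi.single 0 1))]
  have hw : ∀ x, om w x = (p : ℚ_[p]) ^ (1 : ℤ) * φ x := by
    intro x
    have hx : x = x 0 • Pi.single 0 1 + x 1 • Pi.single 1 1 + x 2 • Pi.single 2 1 +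
        x 3 • Pi.single 3 1 := by
      funext k
      fin_cases k <;> simp
    have h1 : φ x = x 0 * φ (Pi.single 0 1) + x 1 * φ (Pi.single 1 1) +
        x 2 * φ (Pi.single 2 1) + x 3 * φ (Pi.single 3 1) := by
      conv_lhs => rw [hx]
      simp only [map_add, map_smul, smul_eq_mul]
    rw [h1, zpow_one]
    simp only [om, w]
    simp
    ring
  refine ⟨w, fun c hc => ?_, fun h => hi ?_⟩
  · rw [hw, bd_zpow_mul]
    show Bd (-1 + 1) (bK.repr c i)
    rw [hrepr ⟨c, hc⟩ i]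
    exact bd_coe _
  · rw [hw, bd_zpow_mul] at h
    exact h

/-- duality: `(L_a ∩ g⁻¹ L_b)^⊥ = L_a^⊥ + (g⁻¹ L_b)^⊥` -/
lemma dual_sum {g : Sp4 ℚ_[p]} {a b : ℤ} {z : Fin 4 → ℚ_[p]}
    (h : ∀ w, LL a w → LL b (act g w) → Bd (-1) (om w z)) :
    ∃ z' v', z = z' + v' ∧ LL (2 - a) z' ∧ LL (2 - b) (act g v') := by
  let fg : (Fin 4 → ℚ_[p]) →ₗ[ℤ_[p]] (Fin 4 → ℚ_[p]) :=
    (Matrix.mulVecLin (g⁻¹ : Sp4 ℚ_[p]).1.1).restrictScalars ℤ_[p]
  let C : Submodule ℤ_[p] (Fin 4 → ℚ_[p]) := LA (2 - a) ⊔ (LA (2 - b)).map fg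
  have : Submodule.IsLattice ℚ_[p] C :=
    ⟨(LA_fg _).sup ((LA_fg _).map _), by
      rw [eq_top_iff, ← LA_span (p := p) (2 - a)]
      exact Submodule.span_mono (show LA (2 - a) ≤ C from le_sup_left)⟩
  by_cases hz : z ∈ C
  · obtain ⟨z', hz', v', ⟨y, hy, rfl⟩, e⟩ := Submodule.mem_sup.1 hz
    refine ⟨z', _, e.symm, hz', ?_⟩
    have : act g (fg y) = y := act_inv g y
    rw [this]
    exact hy
  · exfalso
    obtain ⟨w, hw, hw'⟩ := lattice_sep C hz
    apply hw'
    apply h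
    · apply LL_of_dual
      intro c hc
      exact hw c (Submodule.mem_sup_left hc)
    · apply LL_of_dual
      intro c hc
      have h1 := hw (fg c) (Submodule.mem_sup_right ⟨c, hc, rfl⟩)
      have h2 : om (act g w) c = om w (fg c) := by
        have : fg c = act g⁻¹ c := rfl
        rw [this, ← om_act g w, act_inv]
      rw [h2]
      exact h1

end Pool.Agent.R716
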