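import Pool.Agent.R716.Dual

/-!
# The functionals attached to pairs of binary quadratic forms
-/

open Topology Filter Matrix

namespace Pool.Agent.R716

/-- the binary quadratic form with integral coefficients -/
def qz {R : Type} [CommRing R] (c : Fin 3 → ℤ) (x y : R) : R :=
  c 0 * x ^ 2 + c 1 * (x * y) + c 2 * y ^ 2

variable {p : ℕ} [Fact p.Prime] (a b : Fin 3 → ℤ)

/-- the bilinear form `f(v w^*)` -/
noncomputable def ph (v w : Fin 4 → ℚ_[p]) : ℚ_[p] :=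
  a 0 * (v 0 * w 0) + a 1 * (v 0 * w 2) + a 2 * (v 2 * w 2) +
    (p : ℚ_[p])⁻¹ * (b 0 * (v 1 * w 1) + b 1 * (v 1 * w 3) + b 2 * (v 3 * w 3))

/-- the symmetric bilinear form -/
noncomputable def BB (v w : Fin 4 → ℚ_[p]) : ℚ_[p] := ph a b v w + ph a b w v

/-- the linear functional on matrices -/
noncomputable def ff (A : Matrix (Fin 4) (Fin 4) ℚ_[p]) : ℚ_[p] :=
  a 0 * A 0 3 - a 1 * A 0 1 - a 2 * A 2 1 +
    (p : ℚ_[p])⁻¹ * (b 0 * A 1 2 - b 1 * A 1 0 - b 2 * A 3 0)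

/-- the operator with `⟨w, X v⟩ = B(v, w)` -/
noncomputable def XX (v : Fin 4 → ℚ_[p]) : Fin 4 → ℚ_[p] :=
  ![-((p : ℚ_[p])⁻¹ * (b 1 * v 1 + 2 * b 2 * v 3)), -(a 1 * v 0 + 2 * a 2 * v 2),
    (p : ℚ_[p])⁻¹ * (2 * b 0 * v 1 + b 1 * v 3), 2 * a 0 * v 0 + a 1 * v 2]

lemma ff_vecMulVec (v w : Fin 4 → ℚ_[p]) : ff a b (vecMulVec v (st w)) = ph a b v w := by
  simp only [ff, ph, vecMulVec_apply, st]
  simp

lemma om_XX (v w : Fin 4 → ℚ_[p]) : om w (XX a b v) = BB a b v w := by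
  simp only [om, XX, BB, ph]
  simp
  ring

lemma ff_add (A B : Matrix (Fin 4) (Fin 4) ℚ_[p]) : ff a b (A + B) = ff a b A + ff a b B := by
  simp only [ff, Matrix.add_apply]; ring

lemma ff_smul (c : ℚ_[p]) (A : Matrix (Fin 4) (Fin 4) ℚ_[p]) : ff a b (c • A) = c * ff a b A := by
  simp only [ff, Matrix.smul_apply, smul_eq_mul]; ring

lemma ff_one : ff a b (1 : Matrix (Fin 4) (Fin 4) ℚ_[p]) = 0 := by
  simp [ff]

lemma ff_bd {n : ℤ} {A : Matrix (Fin 4) (Fin 4) ℚ_[p]} (hA : Deep n A) :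
    Bd ((1 - n) / 2) (ff a b A) := by
  have h : ∀ (c : ℤ) (k l : Fin 4), ex k = 1 → ex l = 0 → Bd ((1 - n) / 2) ((c : ℚ_[p]) * A k l) := by
    intro c k l hk hl
    refine (Bd.int c).mul' (hA k l) ?_
    rw [hk, hl]; omega
  have h' : ∀ (c : ℤ) (k l : Fin 4), ex k = 0 → ex l = 1 → Bd ((-1 - n) / 2) ((c : ℚ_[p]) * A k l) := by
    intro c k l hk hl
    refine (Bd.int c).mul' (hA k l) ?_
    rw [hk, hl]; omega
  refine (((h _ 0 3 rfl rfl).sub (h _ 0 1 rfl rfl)).sub (h _ 2 1 rfl rfl)).add ?_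
  exact Bd.pinv.mul' (((h' _ 1 2 rfl rfl).sub (h' _ 1 0 rfl rfl)).sub (h' _ 3 0 rfl rfl))
    (by omega)

lemma ph_bd {i j : ℤ} {v w : Fin 4 → ℚ_[p]} (hv : LL i v) (hw : LL j w) :
    Bd ((2 - i - j) / 2) (ph a b v w) := by
  rw [← ff_vecMulVec]
  exact (ff_bd a b (deep_vecMulVec hv hw le_rfl)).mono (by omega)

lemma BB_bd {i j : ℤ} {v w : Fin 4 → ℚ_[p]} (hv : LL i v) (hw : LL j w) :
    Bd ((2 - i - j) / 2) (BB a b v w) :=
  (ph_bd a b hv hw).add ((ph_bd a b hw hv).mono (by omega))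

lemma BB_smul (c d : ℚ_[p]) (v w : Fin 4 → ℚ_[p]) :
    BB a b (c • v) (d • w) = c * d * BB a b v w := by
  simp only [BB, ph, Pi.smul_apply, smul_eq_mul]; ring

lemma BB_add_left (v v' w : Fin 4 → ℚ_[p]) :
    BB a b (v + v') w = BB a b v w + BB a b v' w := by
  simp only [BB, ph, Pi.add_apply]; ring

lemma BB_comm (v w : Fin 4 → ℚ_[p]) : BB a b v w = BB a b w v := by
  simp only [BB]; ring

lemma XX_smul (c : ℚ_[p]) (v : Fin 4 → ℚ_[p]) : XX a b (c • v) = c • XX a b v := by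
  funext k
  fin_cases k
  · simp [XX]; ring
  · simp [XX]; ring
  · simp [XX]; ring
  · simp [XX]; ring

lemma XX_LL {i : ℤ} {v : Fin 4 → ℚ_[p]} (hv : LL i v) : LL (i - 1) (XX a b v) := by
  have h2 : Bd 0 (2 : ℚ_[p]) := by simpa using Bd.int (p := p) 2
  have h : ∀ (c : ℤ) (k : Fin 4), Bd ((ex k - i) / 2) ((c : ℚ_[p]) * v k) := by
    intro c k
    exact (Bd.int c).mul' (hv k) (by omega)
  have h' : ∀ (c : ℤ) (k : Fin 4), Bd ((ex k - i) / 2) (2 * (c : ℚ_[p]) * v k) := by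
    intro c k
    exact (h2.mul' (Bd.int c) (show (0 : ℤ) + 0 ≤ 0 by norm_num)).mul' (hv k) (by omega)
  intro k
  fin_cases k
  · have h1 := (Bd.pinv.mul ((h (b 1) 1).add (h' (b 2) 3))).neg
    exact h1.mono (by simp only [ex1]; show _ ≤ (1 - (i - 1)) / 2; omega)
  · have h1 := ((h (a 1) 0).add (h' (a 2) 2)).neg
    exact h1.mono (by simp only [ex0]; show _ ≤ (0 - (i - 1)) / 2; omega)
  · have h1 := (Bd.pinv.mul ((h' (b 0) 1).add (h (b 1) 3)))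
    exact h1.mono (by simp only [ex1]; show _ ≤ (1 - (i - 1)) / 2; omega)
  · have h1 := ((h' (a 0) 0).add (h (a 1) 2))
    exact h1.mono (by simp only [ex0]; show _ ≤ (0 - (i - 1)) / 2; omega)

/-! ### Reduction of the forms -/

lemma coe_two : ((2 : ℤ_[p]) : ℚ_[p]) = 2 := rfl

lemma toZMod_p : PadicInt.toZMod ((p : ℤ_[p])) = 0 := by
  rw [map_natCast]; simp

lemma rdBB1 {u : Fin 4 → ℚ_[p]} (hu : LL 1 u) :
    rd (BB a b u u) = 2 * qz a (rd (u 0)) (rd (u 2)) := by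
  obtain ⟨x0, h0⟩ := (show Bd 0 (u 0) from hu 0).lift
  obtain ⟨x2, h2⟩ := (show Bd 0 (u 2) from hu 2).lift
  obtain ⟨x1, h1⟩ := (show Bd (-1) (u 1) from hu 1).lift'
  obtain ⟨x3, h3⟩ := (show Bd (-1) (u 3) from hu 3).lift'
  have e : BB a b u u = ((2 * qz a x0 x2 + p * (2 * qz b x1 x3) : ℤ_[p]) : ℚ_[p]) := by
    simp only [BB, ph, ← h0, ← h1, ← h2, ← h3, qz]
    push_cast
    rw [coe_two]
    field_simp [p_ne (p := p)]
    ring
  rw [e, rd_coe, ← h0, ← h2, rd_coe, rd_coe]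
  simp only [qz, map_add, map_mul, map_pow, map_intCast, toZMod_p, zero_mul, add_zero,
    map_ofNat]

lemma rdBB0 {u : Fin 4 → ℚ_[p]} (hu : LL 0 u) :
    rd ((p : ℚ_[p]) * BB a b u u) = 2 * qz b (rd (u 1)) (rd (u 3)) := by
  obtain ⟨x0, h0⟩ := (show Bd 0 (u 0) from hu 0).lift
  obtain ⟨x2, h2⟩ := (show Bd 0 (u 2) from hu 2).lift
  obtain ⟨x1, h1⟩ := (show Bd 0 (u 1) from hu 1).lift
  obtain ⟨x3, h3⟩ := (show Bd 0 (u 3) from hu 3).lift
  have e : (p : ℚ_[p]) * BB a b u u =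
      ((2 * qz b x1 x3 + p * (2 * qz a x0 x2) : ℤ_[p]) : ℚ_[p]) := by
    simp only [BB, ph, ← h0, ← h1, ← h2, ← h3, qz]
    push_cast
    rw [coe_two]
    field_simp [p_ne (p := p)]
    ring
  rw [e, rd_coe, ← h1, ← h3, rd_coe, rd_coe]
  simp only [qz, map_add, map_mul, map_pow, map_intCast, toZMod_p, zero_mul, add_zero,
    map_ofNat]

lemma rdX1 {u : Fin 4 → ℚ_[p]} (hu : LL 1 u) :
    rd ((p : ℚ_[p]) * BB a b (XX a b u) (XX a b u)) =
      2 * qz b (-(a 1 * rd (u 0) + 2 * a 2 * rd (u 2))) (2 * a 0 * rd (u 0) + a 1 * rd (u 2)) := by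
  rw [rdBB0 a b ((XX_LL a b hu).mono (by norm_num))]
  obtain ⟨x0, h0⟩ := (show Bd 0 (u 0) from hu 0).lift
  obtain ⟨x2, h2⟩ := (show Bd 0 (u 2) from hu 2).lift
  have e1 : XX a b u 1 = ((-(a 1 * x0 + 2 * a 2 * x2) : ℤ_[p]) : ℚ_[p]) := by
    simp only [XX, ← h0, ← h2]
    push_cast
    rw [coe_two]
  have e3 : XX a b u 3 = (((2 * a 0 * x0 + a 1 * x2) : ℤ_[p]) : ℚ_[p]) := by
    simp only [XX, ← h0, ← h2]
    push_cast
    rw [coe_two]
  rw [e1, e3, rd_coe, rd_coe, ← h0, ← h2, rd_coe, rd_coe]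
  simp only [map_add, map_mul, map_intCast, map_neg, map_ofNat]

lemma rdX0 {u : Fin 4 → ℚ_[p]} (hu : LL 0 u) :
    rd ((p : ℚ_[p]) ^ 2 * BB a b (XX a b u) (XX a b u)) =
      2 * qz a (-(b 1 * rd (u 1) + 2 * b 2 * rd (u 3))) (2 * b 0 * rd (u 1) + b 1 * rd (u 3)) := by
  have h1 : LL 1 ((p : ℚ_[p]) ^ (1 : ℤ) • XX a b u) := (XX_LL a b hu).zpow 1 (by norm_num)
  have e : (p : ℚ_[p]) ^ 2 * BB a b (XX a b u) (XX a b u) =
      BB a b ((p : ℚ_[p]) ^ (1 : ℤ) • XX a b u) ((p : ℚ_[p]) ^ (1 : ℤ) • XX a b u) := by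
    rw [BB_smul, zpow_one]; ring
  rw [e, rdBB1 a b h1]
  obtain ⟨x1, h1⟩ := (show Bd 0 (u 1) from hu 1).lift
  obtain ⟨x3, h3⟩ := (show Bd 0 (u 3) from hu 3).lift
  have e0 : ((p : ℚ_[p]) ^ (1 : ℤ) • XX a b u) 0 =
      ((-(b 1 * x1 + 2 * b 2 * x3) : ℤ_[p]) : ℚ_[p]) := by
    simp only [XX, ← h1, ← h3, Pi.smul_apply]
    push_cast
    rw [coe_two]
    simp
    field_simp [p_ne (p := p)]
    try ring
  have e2 : ((p : ℚ_[p]) ^ (1 : ℤ) • XX a b u) 2 =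
      (((2 * b 0 * x1 + b 1 * x3) : ℤ_[p]) : ℚ_[p]) := by
    simp only [XX, ← h1, ← h3, Pi.smul_apply]
    push_cast
    rw [coe_two]
    simp
    field_simp [p_ne (p := p)]
    try ring
  rw [e0, e2, rd_coe, rd_coe, ← h1, ← h3, rd_coe, rd_coe]
  simp only [map_add, map_mul, map_intCast, map_neg, map_ofNat]

lemma LL2_of {u : Fin 4 → ℚ_[p]} (hu : LL 1 u) (h0 : rd (u 0) = 0) (h2 : rd (u 2) = 0) :
    LL 2 u := by
  rw [rd_eq_zero (show Bd 0 (u 0) from hu 0)] at h0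
  rw [rd_eq_zero (show Bd 0 (u 2) from hu 2)] at h2
  intro k
  fin_cases k
  · exact h0
  · exact hu 1
  · exact h2
  · exact hu 3

lemma LL1_of {u : Fin 4 → ℚ_[p]} (hu : LL 0 u) (h1 : rd (u 1) = 0) (h3 : rd (u 3) = 0) :
    LL 1 u := by
  rw [rd_eq_zero (show Bd 0 (u 1) from hu 1)] at h1
  rw [rd_eq_zero (show Bd 0 (u 3) from hu 3)] at h3
  intro k
  fin_cases k
  · exact hu 0
  · exact h1
  · exact hu 2
  · exact h3

variable (p) in
/-- the forms are anisotropic -/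
def Aniso : Prop :=
  (∀ x y : ZMod p, 2 * qz a x y = 0 → x = 0 ∧ y = 0) ∧
    (∀ x y : ZMod p, 2 * qz b x y = 0 → x = 0 ∧ y = 0)

variable (p) in
/-- the condition on the pair of forms for cuspidality -/
def Cusp : Prop :=
  (∀ x y : ZMod p, 2 * qz a x y = 0 →
    2 * qz b (-(a 1 * x + 2 * a 2 * y)) (2 * a 0 * x + a 1 * y) = 0 → x = 0 ∧ y = 0) ∧
  (∀ x y : ZMod p, 2 * qz b x y = 0 →
    2 * qz a (-(b 1 * x + 2 * b 2 * y)) (2 * b 0 * x + b 1 * y) = 0 → x = 0 ∧ y = 0)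

variable {a b}

lemma Aniso.cusp (h : Aniso p a b) : Cusp p a b :=
  ⟨fun x y h1 _ => h.1 x y h1, fun x y h1 _ => h.2 x y h1⟩

/-- reduction to the orders `0`, `1` -/
lemma scale_ord {i : ℤ} {v : Fin 4 → ℚ_[p]} (hv : LL i v) (hv' : ¬ LL (i + 1) v) :
    ∃ (s : ℤ) (u : Fin 4 → ℚ_[p]), v = (p : ℚ_[p]) ^ s • u ∧
      ((i = 2 * s ∧ LL 0 u ∧ ¬ LL 1 u) ∨ (i = 2 * s + 1 ∧ LL 1 u ∧ ¬ LL 2 u)) := by
  refine ⟨i / 2, (p : ℚ_[p]) ^ (-(i / 2)) • v, ?_, ?_⟩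
  · rw [smul_smul, ← zpow_add₀ p_ne, add_neg_cancel, zpow_zero, one_smul]
  · rcases Int.emod_two_eq_zero_or_one i with h | h
    · left
      refine ⟨by omega, hv.zpow _ (by omega), fun h' => hv' ?_⟩
      exact LL.of_zpow (-(i / 2)) h' (by omega)
    · right
      refine ⟨by omega, hv.zpow _ (by omega), fun h' => hv' ?_⟩
      exact LL.of_zpow (-(i / 2)) h' (by omega)

lemma BB_scale (s m : ℤ) (u : Fin 4 → ℚ_[p]) :
    (p : ℚ_[p]) ^ m * BB a b ((p : ℚ_[p]) ^ s • u) ((p : ℚ_[p]) ^ s • u) =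
      (p : ℚ_[p]) ^ (m + 2 * s) * BB a b u u := by
  rw [BB_smul, ← zpow_add₀ p_ne, ← mul_assoc, ← zpow_add₀ p_ne]
  congr 2
  ring

/-- a vector of order `i` is anisotropic, or its image under `X` is -/
lemma cusp_vec (h : Cusp p a b) {i : ℤ} {v : Fin 4 → ℚ_[p]} (hv : LL i v) (hv' : ¬ LL (i + 1) v)
    (h1 : Bd (-1) ((p : ℚ_[p]) ^ (1 - i) * BB a b v v))
    (h2 : Bd (-1) ((p : ℚ_[p]) ^ (2 - i) * BB a b (XX a b v) (XX a b v))) : False := by
  obtain ⟨s, u, rfl, ⟨hi, hu, hu'⟩ | ⟨hi, hu, hu'⟩⟩ := scale_ord hv hv'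
  · rw [BB_scale] at h1
    rw [XX_smul, BB_scale] at h2
    have e1 : (1 - i + 2 * s : ℤ) = 1 := by omega
    have e2 : (2 - i + 2 * s : ℤ) = 2 := by omega
    rw [e1, zpow_one] at h1
    rw [e2] at h2
    have h3 := rd_zero_of h1
    rw [rdBB0 a b hu] at h3
    have h4 := rd_zero_of h2
    have e3 : (p : ℚ_[p]) ^ (2 : ℤ) = (p : ℚ_[p]) ^ 2 := by norm_cast
    rw [e3, rdX0 a b hu] at h4
    obtain ⟨h5, h6⟩ := h.2 _ _ h3 h4
    exact hu' (LL1_of hu h5 h6)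
  · rw [BB_scale] at h1
    rw [XX_smul, BB_scale] at h2
    have e1 : (1 - i + 2 * s : ℤ) = 0 := by omega
    have e2 : (2 - i + 2 * s : ℤ) = 1 := by omega
    rw [e1, zpow_zero, one_mul] at h1
    rw [e2, zpow_one] at h2
    have h3 := rd_zero_of h1
    rw [rdBB1 a b hu] at h3
    have h4 := rd_zero_of h2
    rw [rdX1 a b hu] at h4
    obtain ⟨h5, h6⟩ := h.1 _ _ h3 h4
    exact hu' (LL2_of hu h5 h6)

lemma aniso_vec (h : Aniso p a b) {i : ℤ} {v : Fin 4 → ℚ_[p]} (hv : LL i v)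
    (hv' : ¬ LL (i + 1) v) : ¬ Bd (-1) ((p : ℚ_[p]) ^ (1 - i) * BB a b v v) := by
  intro h1
  obtain ⟨s, u, rfl, ⟨hi, hu, hu'⟩ | ⟨hi, hu, hu'⟩⟩ := scale_ord hv hv'
  · rw [BB_scale] at h1
    have e1 : (1 - i + 2 * s : ℤ) = 1 := by omega
    rw [e1, zpow_one] at h1
    have h3 := rd_zero_of h1
    rw [rdBB0 a b hu] at h3
    obtain ⟨h5, h6⟩ := h.2 _ _ h3
    exact hu' (LL1_of hu h5 h6)
  · rw [BB_scale] at h1
    have e1 : (1 - i + 2 * s : ℤ) = 0 := by omega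
    rw [e1, zpow_zero, one_mul] at h1
    have h3 := rd_zero_of h1
    rw [rdBB1 a b hu] at h3
    obtain ⟨h5, h6⟩ := h.1 _ _ h3
    exact hu' (LL2_of hu h5 h6)

variable (a b) in
/-- there is a pair of vectors `v, w` such that `f` does not vanish on `U_{v,w} ∈ K` and
`g U_{v,w} g⁻¹` is close to `1` -/
def Good (g : Sp4 ℚ_[p]) (m : ℤ) : Prop :=
  ∃ (i j i' j' : ℤ) (v w : Fin 4 → ℚ_[p]), i + j = 2 ∧ LL i v ∧ LL j w ∧
    ¬ Bd (-1) (BB a b v w) ∧ LL i' (act g v) ∧ LL j' (act g w) ∧ m ≤ i' + j'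

/-- the transvections -/
lemma good_self {g : Sp4 ℚ_[p]} {i k : ℤ} {v : Fin 4 → ℚ_[p]} (hv : LL i v)
    (h : ¬ Bd (-1) ((p : ℚ_[p]) ^ (1 - i) * BB a b v v)) (hg : LL k (act g v)) {m : ℤ}
    (hm : m ≤ 2 + 2 * (k - i)) : Good a b g m := by
  refine ⟨i, 2 - i, k, k + 2 * (1 - i), v, (p : ℚ_[p]) ^ (1 - i) • v, by ring, hv,
    hv.zpow _ (by ring), ?_, hg, ?_, by omega⟩
  · have : BB a b v ((p : ℚ_[p]) ^ (1 - i) • v) = (p : ℚ_[p]) ^ (1 - i) * BB a b v v := by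
      have := BB_smul a b (1 : ℚ_[p]) ((p : ℚ_[p]) ^ (1 - i)) v v
      rw [one_smul, one_mul] at this
      exact this
    rw [this]
    exact h
  · rw [act_smul]
    exact hg.zpow _ rfl

/-- **The key lemma.** -/
lemma good_of (h : Cusp p a b) {g : Sp4 ℚ_[p]} {i δ κ m : ℤ} {v : Fin 4 → ℚ_[p]} (hv : LL i v)
    (hv' : ¬ LL (i + 1) v) (hg : LL (i + δ) (act g v)) (h1 : m ≤ 3 + δ - κ)
    (h2 : m ≤ 2 + 2 * κ) (h3 : m ≤ 2 + 2 * δ) : Good a b g m := by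
  by_cases hI : ∃ w, LL (2 - i) w ∧ LL (3 - i - κ) (act g w) ∧ ¬ Bd (-1) (BB a b v w)
  · obtain ⟨w, hw, hgw, hB⟩ := hI
    exact ⟨i, 2 - i, i + δ, 3 - i - κ, v, w, by ring, hv, hw, hB, hg, hgw, by omega⟩
  · push Not at hI
    by_cases hself : Bd (-1) ((p : ℚ_[p]) ^ (1 - i) * BB a b v v)
    · -- the second vector
      obtain ⟨z', v', hz, hz', hv2⟩ := dual_sum (g := g) (a := 2 - i) (b := 3 - i - κ)
        (z := XX a b v) (by
          intro w hw hgw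
          rw [om_XX]
          exact hI w hw hgw)
      have hz'' : LL i z' := hz'.mono (by omega)
      have hvX : v' = XX a b v - z' := by rw [hz]; abel
      have hv3 : LL (i - 1) v' := by
        rw [hvX]
        exact (XX_LL a b hv).sub (hz''.mono (by omega))
      have hv4 : ¬ Bd (-1) ((p : ℚ_[p]) ^ (1 - (i - 1)) * BB a b v' v') := by
        intro hc
        apply cusp_vec h hv hv' hself
        have e : BB a b (XX a b v) (XX a b v) =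
            BB a b v' v' + (BB a b z' v' + BB a b z' (XX a b v)) := by
          have e1 : BB a b (XX a b v) (XX a b v) =
              BB a b v' (XX a b v) + BB a b z' (XX a b v) := by
            rw [← BB_add_left]
            congr 1
            rw [hz]; abel
          have e2 : BB a b v' (XX a b v) = BB a b v' v' + BB a b z' v' := by
            rw [BB_comm a b v' (XX a b v), ← BB_add_left]
            congr 1
            rw [hz]; abel
          rw [e1, e2]; ring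
        rw [e, mul_add]
        have e3 : (2 - i : ℤ) = 1 - (i - 1) := by ring
        rw [e3]
        refine hc.add ?_
        rw [bd_zpow_mul]
        refine ((BB_bd a b hz'' hv3).mono (by omega)).add
          ((BB_bd a b hz'' (XX_LL a b hv)).mono (by omega))
      refine good_self (i := i - 1) (k := i - 1 + κ) hv3 hv4 (hv2.mono (by omega)) (by omega)
    · exact good_self hv hself hg (by omega)

end Pool.Agent.R716
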