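import Pool.Agent.R716.Irr

/-!
# Whittaker functionals
-/

open Topology Filter Matrix

namespace Pool.Agent.R716

/-- `(N, ψ)` is a Whittaker datum of `Sp_4(F)`: there is `g` such that `N = g N₀ g⁻¹`, where `N₀` is
the group of the upper triangular unipotent matrices in `Sp_4(F)`, and `ψ` is a smooth character of
`N` which is non-trivial on the root groups `g x_α(F) g⁻¹` and `g x_β(F) g⁻¹` of the simple roots. -/
def IsWhittaker (F : Type) [Field F] [TopologicalSpace F] (N : Subgroup (Sp4 F))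
    (ψ : N →* ℂˣ) : Prop :=
  ∃ g : Sp4 F, (∀ x : Sp4 F, x ∈ N ↔ IsUpperUni (g⁻¹ * x * g : Sp4 F).1.1) ∧
    (∀ᶠ n in 𝓝 (1 : N), ψ n = 1) ∧
    (∃ (n : N) (t : F), (g⁻¹ * n * g : Sp4 F).1.1 = xa t ∧ ψ n ≠ 1) ∧
    (∃ (n : N) (t : F), (g⁻¹ * n * g : Sp4 F).1.1 = xb t ∧ ψ n ≠ 1)

section Ring

variable {R : Type} [CommRing R]

/-- the element of the root group of the second short root -/
def xab (t : R) : Matrix (Fin 4) (Fin 4) R :=
  !![1, 0, t, 0; 0, 1, 0, t; 0, 0, 1, 0; 0, 0, 0, 1]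

/-- the element of the root group of the highest root -/
def xh (t : R) : Matrix (Fin 4) (Fin 4) R :=
  !![1, 0, 0, t; 0, 1, 0, 0; 0, 0, 1, 0; 0, 0, 0, 1]

lemma mulVec4 (A : Matrix (Fin 4) (Fin 4) R) (v : Fin 4 → R) (i : Fin 4) :
    (A *ᵥ v) i = A i 0 * v 0 + A i 1 * v 1 + A i 2 * v 2 + A i 3 * v 3 := by
  rw [Matrix.mulVec, dotProduct, Fin.sum_univ_four]

lemma xa_symp (t : R) : IsSymp (xa t) := by
  apply isSymp_of
  intro v w
  simp only [om, mulVec4]
  simp [xa]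
  ring

lemma xb_symp (t : R) : IsSymp (xb t) := by
  apply isSymp_of
  intro v w
  simp only [om, mulVec4]
  simp [xb]
  ring

lemma xab_symp (t : R) : IsSymp (xab t) := by
  apply isSymp_of
  intro v w
  simp only [om, mulVec4]
  simp [xab]
  ring

lemma comm_rel (t : R) : xa 1 * xab t = xh (2 * t) * (xab t * xa 1) := by
  ext i j
  fin_cases i <;> fin_cases j <;>
    simp [xa, xab, xh, Matrix.mul_apply, Fin.sum_univ_four]
  ring

lemma xa_upper (t : R) : IsUpperUni (xa t) := by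
  intro i j hij
  fin_cases i <;> fin_cases j <;> first
    | exact absurd hij (by decide)
    | simp [xa]

lemma xb_upper (t : R) : IsUpperUni (xb t) := by
  intro i j hij
  fin_cases i <;> fin_cases j <;> first
    | exact absurd hij (by decide)
    | simp [xb]

lemma xab_upper (t : R) : IsUpperUni (xab t) := by
  intro i j hij
  fin_cases i <;> fin_cases j <;> first
    | exact absurd hij (by decide)
    | simp [xab]

lemma xh_upper (t : R) : IsUpperUni (xh t) := by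
  intro i j hij
  fin_cases i <;> fin_cases j <;> first
    | exact absurd hij (by decide)
    | simp [xh]

end Ring

variable {p : ℕ} [Fact p.Prime] {a b : Fin 3 → ℤ}

lemma Umat_e0 (c : ℚ_[p]) : Umat (Pi.single 0 1) (c • Pi.single 0 (1 : ℚ_[p])) = xh (2 * c) := by
  have h0 : om (Pi.single 0 (1 : ℚ_[p]) : Fin 4 → ℚ_[p]) (c • Pi.single 0 (1 : ℚ_[p])) = 0 := by
    simp [om]
  rw [Umat, h0]
  ext i j
  fin_cases i <;> fin_cases j <;>
    simp [xh, st]
  ring

/-- **Non-genericity** for anisotropic pairs. -/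
lemma nongeneric (ha : Aniso p a b) {θ : Multiplicative (ZMod p) →* ℂˣ}
    (hθ : Function.Injective θ) {N : Subgroup (Sp4 ℚ_[p])} {ψ : N →* ℂˣ}
    (hN : IsWhittaker ℚ_[p] N ψ)
    {l : Module.Dual ℂ (cInd (KK p) (chRep (chiC a b θ)))}
    (hl : l ∈ Whit (cInd (KK p) (chRep (chiC a b θ))) N.subtype ψ) : l = 0 := by
  obtain ⟨g, hg, -⟩ := hN
  apply whit_zero KK_open (chiC_smooth θ) ?_ hl
  intro x
  set v : Fin 4 → ℚ_[p] := act (x⁻¹ * g) (Pi.single 0 1) with hv
  have hgv : act (g⁻¹ * x) v = Pi.single 0 1 := by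
    rw [hv, ← act_mul]
    have : g⁻¹ * x * (x⁻¹ * g) = 1 := by group
    rw [this, act_one]
  have hv0 : v ≠ 0 := by
    intro h0
    rw [h0] at hgv
    have h1 := congrFun hgv 0
    rw [Pi.single_eq_same] at h1
    simp [act] at h1
  obtain ⟨i, hi, hi'⟩ := exists_ord hv0
  have hB := aniso_vec ha hi hi'
  set c : ℚ_[p] := (p : ℚ_[p]) ^ (1 - i) with hc
  have hw : LL (2 - i) (c • v) := hi.zpow _ (by ring)
  obtain ⟨u, hu, hchi⟩ := exists_UK hi hw (by omega)
  have hBB : BB a b v (c • v) = c * BB a b v v := by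
    have := BB_smul a b (1 : ℚ_[p]) c v v
    rw [one_smul, one_mul] at this
    exact this
  have hu1 : chiC a b θ u ≠ 1 := by
    intro h
    have h1 : chi a b u = 1 := hθ (by rw [map_one]; exact h)
    rw [hchi, ofAdd_eq_one] at h1
    exact rd_BB_ne hi hw (by omega) (by rw [hBB]; exact hB) h1
  have hconj : (g⁻¹ * (x * (u : Sp4 ℚ_[p]) * x⁻¹) * g).1.1 = xh (2 * c) := by
    have e : g⁻¹ * (x * (u : Sp4 ℚ_[p]) * x⁻¹) * g = (g⁻¹ * x) * u * (g⁻¹ * x)⁻¹ := by group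
    rw [e, conj_U _ hu, act_smul, hgv, Umat_e0]
  have hn : x * (u : Sp4 ℚ_[p]) * x⁻¹ ∈ N := by
    rw [hg, hconj]
    exact xh_upper _
  let n : N := ⟨x * (u : Sp4 ℚ_[p]) * x⁻¹, hn⟩
  refine ⟨u, hu1, n, rfl, ?_⟩
  -- `n` is a commutator
  have hn1 : g * mkSp (xa 1) (xa_symp 1) * g⁻¹ ∈ N := by
    rw [hg]
    have : g⁻¹ * (g * mkSp (xa 1) (xa_symp 1) * g⁻¹) * g =
        (mkSp (xa 1) (xa_symp 1) : Sp4 ℚ_[p]) := by group
    rw [this]
    exact xa_upper _
  have hn2 : g * mkSp (xab c) (xab_symp c) * g⁻¹ ∈ N := by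
    rw [hg]
    have : g⁻¹ * (g * mkSp (xab c) (xab_symp c) * g⁻¹) * g =
        (mkSp (xab c) (xab_symp c) : Sp4 ℚ_[p]) := by group
    rw [this]
    exact xab_upper _
  let n1 : N := ⟨_, hn1⟩
  let n2 : N := ⟨_, hn2⟩
  have hrel : n1 * n2 = n * (n2 * n1) := by
    apply Subtype.ext
    show (g * mkSp (xa 1) (xa_symp 1) * g⁻¹) * (g * mkSp (xab c) (xab_symp c) * g⁻¹) =
      (x * (u : Sp4 ℚ_[p]) * x⁻¹) * ((g * mkSp (xab c) (xab_symp c) * g⁻¹) *
        (g * mkSp (xa 1) (xa_symp 1) * g⁻¹))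
    have hbase : (mkSp (xa 1) (xa_symp 1) * mkSp (xab c) (xab_symp c) : Sp4 ℚ_[p]) =
        (g⁻¹ * (x * (u : Sp4 ℚ_[p]) * x⁻¹) * g) * (mkSp (xab c) (xab_symp c) * mkSp (xa 1) (xa_symp 1)) := by
      apply sp_ext
      show xa 1 * xab c = (g⁻¹ * (x * (u : Sp4 ℚ_[p]) * x⁻¹) * g).1.1 * (xab c * xa 1)
      rw [hconj, comm_rel]
    calc (g * mkSp (xa 1) (xa_symp 1) * g⁻¹) * (g * mkSp (xab c) (xab_symp c) * g⁻¹) =
        g * (mkSp (xa 1) (xa_symp 1) * mkSp (xab c) (xab_symp c)) * g⁻¹ := by group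
      _ = g * ((g⁻¹ * (x * (u : Sp4 ℚ_[p]) * x⁻¹) * g) *
          (mkSp (xab c) (xab_symp c) * mkSp (xa 1) (xa_symp 1))) * g⁻¹ := by rw [hbase]
      _ = _ := by group
  have h1 := congrArg ψ hrel
  rw [map_mul, map_mul, map_mul, mul_comm (ψ n2)] at h1
  exact (mul_eq_right.1 h1.symm)

/-! ### The generic case -/

noncomputable instance divC : DivisibleBy (Additive ℂˣ) ℤ :=
  divisibleByOfSMulRightSurj _ _ (by
    intro n hn x
    have key : ∀ (m : ℕ), m ≠ 0 → ∀ y : ℂˣ, ∃ z : ℂˣ, z ^ m = y := by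
      intro m hm y
      obtain ⟨z, hz⟩ := IsAlgClosed.exists_pow_nat_eq (y : ℂ) (Nat.pos_of_ne_zero hm)
      have hz0 : z ≠ 0 := by
        rintro rfl
        rw [zero_pow hm] at hz
        exact y.ne_zero hz.symm
      exact ⟨Units.mk0 z hz0, Units.ext (by simpa using hz)⟩
    obtain ⟨z, hz⟩ := key n.natAbs (by omega) x.toMul
    rcases Int.natAbs_eq n with h | h
    · refine ⟨Additive.ofMul z, ?_⟩
      show n • Additive.ofMul z = x
      rw [h, natCast_zsmul, ← ofMul_pow, hz]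
      rfl
    · refine ⟨Additive.ofMul z⁻¹, ?_⟩
      show n • Additive.ofMul z⁻¹ = x
      rw [h, neg_smul, natCast_zsmul, ← ofMul_pow, inv_pow, hz, ofMul_inv, neg_neg]
      rfl)

/-- each character of `ℤ/p` extends to a character of `ℚ_p` -/
lemma exists_ext (θ : Multiplicative (ZMod p) →* ℂˣ) : ∃ Ψ : ℚ_[p] →+ Additive ℂˣ,
    ∀ y : ℤ_[p], Ψ (y : ℚ_[p]) =
      Additive.ofMul (θ (Multiplicative.ofAdd (PadicInt.toZMod y))) := by
  let g : ℤ_[p] →+ Additive ℂˣ :=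
    { toFun := fun y => Additive.ofMul (θ (Multiplicative.ofAdd (PadicInt.toZMod y)))
      map_zero' := by
        rw [map_zero, ofAdd_zero, map_one, ofMul_one]
      map_add' := by
        intro x y
        rw [map_add, ofAdd_add, map_mul, ofMul_mul] }
  obtain ⟨Ψ, hΨ⟩ := (Module.Baer.of_divisible (Additive ℂˣ)).extension_property_addMonoidHom
    (PadicInt.Coe.ringHom (p := p)).toAddMonoidHom Subtype.coe_injective g
  exact ⟨Ψ, fun y => DFunLike.congr_fun hΨ y⟩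

variable (p) in
/-- the group of the upper triangular unipotent matrices -/
def UU : Subgroup (Sp4 ℚ_[p]) where
  carrier := {x | IsUpperUni x.1.1}
  one_mem' := by
    intro i j _
    exact Matrix.one_apply
  mul_mem' := by
    intro x y hx hy i j hij
    show (x.1.1 * y.1.1) i j = _
    rw [Matrix.mul_apply]
    by_cases h : i = j
    · subst h
      rw [if_pos rfl, Finset.sum_eq_single i]
      · rw [hx i i le_rfl, hy i i le_rfl, if_pos rfl, one_mul]
      · intro k _ hk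
        rcases lt_or_gt_of_ne hk with h1 | h1
        · rw [hx i k h1.le, if_neg h1.ne', zero_mul]
        · rw [hy k i h1.le, if_neg h1.ne', mul_zero]
      · intro h1
        exact absurd (Finset.mem_univ _) h1
    · rw [if_neg h]
      have hlt : j < i := lt_of_le_of_ne hij (Ne.symm h)
      refine Finset.sum_eq_zero fun k _ => ?_
      rcases lt_or_ge k i with h1 | h1
      · rw [hx i k h1.le, if_neg h1.ne', zero_mul]
      · rw [hy k j (hlt.le.trans h1), if_neg (hlt.trans_le h1).ne', mul_zero]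
  inv_mem' := by
    intro x hx i j hij
    rw [inv_val]
    rw [Matrix.neg_apply]
    simp only [Matrix.mul_apply, Fin.sum_univ_four, transpose_apply]
    have h00 := hx 0 0 le_rfl
    have h11 := hx 1 1 le_rfl
    have h22 := hx 2 2 le_rfl
    have h33 := hx 3 3 le_rfl
    have h10 := hx 1 0 (by decide)
    have h20 := hx 2 0 (by decide)
    have h30 := hx 3 0 (by decide)
    have h21 := hx 2 1 (by decide)
    have h31 := hx 3 1 (by decide)
    have h32 := hx 3 2 (by decide)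
    rw [if_pos rfl] at h00 h11 h22 h33
    rw [if_neg (by decide)] at h10 h20 h30 h21 h31 h32
    fin_cases i <;> fin_cases j <;> first
      | exact absurd hij (by decide)
      | simp [J4, h00, h11, h22, h33, h10, h20, h30, h21, h31, h32]

lemma ff_upper (ha : a 0 = 0) {A : Matrix (Fin 4) (Fin 4) ℚ_[p]} (hA : IsUpperUni A) :
    ff a b A = -(a 1 : ℚ_[p]) * A 0 1 + (p : ℚ_[p])⁻¹ * b 0 * A 1 2 := by
  have h21 := hA 2 1 (by decide)
  have h10 := hA 1 0 (by decide)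
  have h30 := hA 3 0 (by decide)
  rw [if_neg (by decide)] at h21 h10 h30
  rw [ff, h21, h10, h30, ha]
  push_cast
  ring

/-- the character of the group `N₀` -/
noncomputable def psi (ha : a 0 = 0) (Ψ : ℚ_[p] →+ Additive ℂˣ) : UU p →* ℂˣ where
  toFun n := (Ψ (ff a b n.1.1.1)).toMul
  map_one' := by
    have : ff a b ((1 : UU p).1.1.1) = 0 := ff_one a b
    rw [this, map_zero]
    rfl
  map_mul' := by
    intro m n
    have h : ff a b ((m * n).1.1.1) = ff a b m.1.1.1 + ff a b n.1.1.1 := by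
      rw [ff_upper ha (m * n).2, ff_upper ha m.2, ff_upper ha n.2]
      have e01 : (m * n).1.1.1 0 1 = m.1.1.1 0 1 + n.1.1.1 0 1 := by
        show (m.1.1.1 * n.1.1.1) 0 1 = _
        rw [Matrix.mul_apply, Fin.sum_univ_four, m.2 0 0 le_rfl, n.2 1 1 le_rfl,
          n.2 2 1 (by decide), n.2 3 1 (by decide)]
        simp
        ring
      have e12 : (m * n).1.1.1 1 2 = m.1.1.1 1 2 + n.1.1.1 1 2 := by
        show (m.1.1.1 * n.1.1.1) 1 2 = _
        rw [Matrix.mul_apply, Fin.sum_univ_four, m.2 1 0 (by decide), m.2 1 1 le_rfl,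
          n.2 2 2 le_rfl, n.2 3 2 (by decide)]
        simp
        ring
      rw [e01, e12]
      ring
    rw [h, map_add]
    rfl

lemma ff_ev : ∀ᶠ g in 𝓝 (1 : Sp4 ℚ_[p]), Bd (-1) (ff a b g.1.1) := by
  have hp : (0 : ℝ) < p := one_pos.trans one_lt_p
  filter_upwards [nhds_one' (p := p) (r := (p : ℝ) ^ (-2 : ℤ)) (zpow_pos hp _)] with g hg
  have hd : Deep 2 (g.1.1 - 1) := by
    intro k l
    have h1 : Bd (-2) (g.1.1 k l - (1 : Matrix (Fin 4) (Fin 4) ℚ_[p]) k l) := (hg k l).le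
    rw [Matrix.sub_apply]
    refine h1.mono ?_
    rcases ex_cases k with hk | hk <;> rcases ex_cases l with hl | hl <;> rw [hk, hl] <;> norm_num
  have := ff_bd a b hd
  have e := ff_sub_smul a b g.1.1 1
  rw [one_smul] at e
  rw [e] at this
  exact this.mono (by norm_num)

/-- the Whittaker datum attached to the character of `K` -/
lemma exists_psi (ha : a 0 = 0) (ha1 : (a 1 : ZMod p) ≠ 0) (hb0 : (b 0 : ZMod p) ≠ 0)
    {θ : Multiplicative (ZMod p) →* ℂˣ} (hθ : Function.Injective θ) :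
    ∃ ψ : UU p →* ℂˣ, IsWhittaker ℚ_[p] (UU p) ψ ∧
      ∀ (k : KK p) (n : UU p), (k : Sp4 ℚ_[p]) = n → chiC a b θ k = ψ n := by
  obtain ⟨Ψ, hΨ⟩ := exists_ext θ
  refine ⟨psi (b := b) ha Ψ, ⟨1, ?_, ?_, ?_, ?_⟩, ?_⟩
  · intro x
    rw [inv_one, one_mul, mul_one]
    rfl
  · have h : ∀ᶠ n : UU p in 𝓝 (1 : UU p), Bd (-1) (ff a b (n : Sp4 ℚ_[p]).1.1) :=
      (continuous_subtype_val.tendsto (1 : UU p)).eventually ff_ev
    filter_upwards [h] with n hn
    obtain ⟨y, hy⟩ := (hn.mono (n := 0) (by norm_num)).lift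
    show (Ψ (ff a b n.1.1.1)).toMul = 1
    rw [← hy, hΨ, (toZMod_eq_zero y).2 (by rw [hy]; exact hn), ofAdd_zero, map_one]
    rfl
  · have hmem : (mkSp (xa 1) (xa_symp 1) : Sp4 ℚ_[p]) ∈ UU p := xa_upper _
    refine ⟨⟨_, hmem⟩, 1, ?_, ?_⟩
    · rw [inv_one, one_mul, mul_one]
      rfl
    · intro h
      have h1 : (Ψ (ff a b (xa (1 : ℚ_[p])))).toMul = 1 := h
      have h2 : ff a b (xa (1 : ℚ_[p])) = ((-(a 1 : ℤ_[p]) : ℤ_[p]) : ℚ_[p]) := by
        rw [ff_upper ha (xa_upper _)]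
        push_cast
        simp [xa]
      rw [h2, hΨ] at h1
      have h3 : θ (Multiplicative.ofAdd (PadicInt.toZMod (-(a 1 : ℤ_[p])))) = 1 := h1
      rw [map_neg, map_intCast] at h3
      have h4 := hθ (h3.trans (map_one θ).symm)
      rw [ofAdd_eq_one, neg_eq_zero] at h4
      exact ha1 h4
  · have hmem : (mkSp (xb (p : ℚ_[p])) (xb_symp _) : Sp4 ℚ_[p]) ∈ UU p := xb_upper _
    refine ⟨⟨_, hmem⟩, p, ?_, ?_⟩
    · rw [inv_one, one_mul, mul_one]
      rfl
    · intro h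
      have h1 : (Ψ (ff a b (xb (p : ℚ_[p])))).toMul = 1 := h
      have h2 : ff a b (xb (p : ℚ_[p])) = ((b 0 : ℤ_[p]) : ℚ_[p]) := by
        rw [ff_upper ha (xb_upper _)]
        push_cast
        simp [xb]
        field_simp [p_ne (p := p)]
      rw [h2, hΨ] at h1
      have h3 : θ (Multiplicative.ofAdd (PadicInt.toZMod ((b 0 : ℤ_[p])))) = 1 := h1
      rw [map_intCast] at h3
      have h4 := hθ (h3.trans (map_one θ).symm)
      rw [ofAdd_eq_one] at h4
      exact hb0 h4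
  · rintro ⟨k, ε, hk⟩ ⟨n, hn⟩ e
    change k = n at e
    subst e
    have h0 : k.1.1 0 0 = 1 := by
      have := hn 0 0 le_rfl
      rwa [if_pos rfl] at this
    obtain ⟨y, hy⟩ := (hk.bd_ff a b).lift
    have h1 : chi a b ⟨k, ε, hk⟩ = Multiplicative.ofAdd (PadicInt.toZMod y) := by
      show Multiplicative.ofAdd (rd (k.1.1 0 0) * rd (ff a b k.1.1)) = _
      rw [h0, rd_one, one_mul, ← hy, rd_coe]
    show θ (chi a b ⟨k, ε, hk⟩) = (Ψ (ff a b k.1.1)).toMul
    rw [h1, ← hy, hΨ]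
    rfl

/-- **Genericity** -/
lemma generic (ha : a 0 = 0) (ha1 : (a 1 : ZMod p) ≠ 0) (hb0 : (b 0 : ZMod p) ≠ 0)
    {θ : Multiplicative (ZMod p) →* ℂˣ} (hθ : Function.Injective θ) :
    ∃ (N : Subgroup (Sp4 ℚ_[p])) (ψ : N →* ℂˣ), IsWhittaker ℚ_[p] N ψ ∧
      ∃ l ∈ Whit (cInd (KK p) (chRep (chiC a b θ))) N.subtype ψ, l ≠ 0 := by
  obtain ⟨ψ, hψ, h⟩ := exists_psi ha ha1 hb0 hθ
  exact ⟨UU p, ψ, hψ, whit_ne KK_open (chiC_smooth θ) h⟩

end Pool.Agent.R716
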