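import Pool.Agent.R716.Form

/-!
# The compact open subgroup and its characters
-/

open Topology Filter Matrix

namespace Pool.Agent.R716

variable {p : ℕ} [Fact p.Prime]

lemma sign_cases {ε : ℤ} (h : ε = 1 ∨ ε = -1) : ε * ε = 1 := by
  rcases h with rfl | rfl <;> norm_num

lemma Deep.neg {n : ℤ} {A : Matrix (Fin 4) (Fin 4) ℚ_[p]} (hA : Deep n A) : Deep n (-A) :=
  fun k l => (hA k l).neg

variable (p) in
/-- `g ≡ ε` modulo the first step of the filtration -/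
def Near (ε : ℤ) (A : Matrix (Fin 4) (Fin 4) ℚ_[p]) : Prop :=
  (ε = 1 ∨ ε = -1) ∧ Deep 1 (A - (ε : ℚ_[p]) • (1 : Matrix (Fin 4) (Fin 4) ℚ_[p]))

lemma Near.mul {ε ε' : ℤ} {A B : Matrix (Fin 4) (Fin 4) ℚ_[p]} (hA : Near p ε A)
    (hB : Near p ε' B) : Near p (ε * ε') (A * B) := by
  refine ⟨?_, ?_⟩
  · rcases hA.1 with rfl | rfl <;> rcases hB.1 with rfl | rfl <;> norm_num
  · have e : A * B - (((ε * ε' : ℤ)) : ℚ_[p]) • (1 : Matrix (Fin 4) (Fin 4) ℚ_[p]) =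
        (A - (ε : ℚ_[p]) • 1) * (B - (ε' : ℚ_[p]) • 1) + (ε' : ℚ_[p]) • (A - (ε : ℚ_[p]) • 1) +
          (ε : ℚ_[p]) • (B - (ε' : ℚ_[p]) • 1) := by
      simp only [mul_sub, sub_mul, smul_sub, Matrix.smul_mul, Matrix.mul_smul, Matrix.mul_one,
        Matrix.one_mul, smul_smul]
      push_cast
      rw [mul_comm (ε : ℚ_[p]) (ε' : ℚ_[p])]
      abel
    rw [e]
    exact ((hA.2.mul hB.2 (by norm_num)).add (hA.2.smul (Bd.int _))).add
      (hB.2.smul (Bd.int _))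

lemma Near.inv {ε : ℤ} {g : Sp4 ℚ_[p]} (hg : Near p ε g.1.1) : Near p ε (g⁻¹ : Sp4 ℚ_[p]).1.1 := by
  refine ⟨hg.1, ?_⟩
  have h := hg.2.adj
  have e : -(J4 ℚ_[p] * (g.1.1 - (ε : ℚ_[p]) • (1 : Matrix (Fin 4) (Fin 4) ℚ_[p]))ᵀ * J4 ℚ_[p]) =
      (g⁻¹ : Sp4 ℚ_[p]).1.1 - (ε : ℚ_[p]) • (1 : Matrix (Fin 4) (Fin 4) ℚ_[p]) := by
    rw [inv_val, transpose_sub, transpose_smul, transpose_one]
    simp only [mul_sub, sub_mul, Matrix.smul_mul, Matrix.mul_smul, Matrix.mul_one, J4_sq]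
    simp
    abel
  rwa [e] at h

lemma Near.one : Near p 1 (1 : Matrix (Fin 4) (Fin 4) ℚ_[p]) := by
  refine ⟨Or.inl rfl, ?_⟩
  have : (1 : Matrix (Fin 4) (Fin 4) ℚ_[p]) - ((1 : ℤ) : ℚ_[p]) • 1 = 0 := by simp
  rw [this]
  intro k l
  exact Bd.zero _

variable (p) in
/-- the compact open subgroup -/
def KK : Subgroup (Sp4 ℚ_[p]) where
  carrier := {g | ∃ ε, Near p ε g.1.1}
  one_mem' := ⟨1, Near.one⟩
  mul_mem' := by
    rintro a b ⟨ε, ha⟩ ⟨ε', hb⟩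
    exact ⟨_, ha.mul hb⟩
  inv_mem' := by
    rintro a ⟨ε, ha⟩
    exact ⟨ε, ha.inv⟩

lemma Near.rd00 {ε : ℤ} {A : Matrix (Fin 4) (Fin 4) ℚ_[p]} (hA : Near p ε A) :
    rd (A 0 0) = ε := by
  have h := hA.2 0 0
  rw [Matrix.sub_apply, Matrix.smul_apply, Matrix.one_apply_eq, smul_eq_mul, mul_one] at h
  rw [rd_congr (Bd.int ε) h, rd_int]

variable (a b : Fin 3 → ℤ)

lemma ff_sub_smul (A : Matrix (Fin 4) (Fin 4) ℚ_[p]) (c : ℚ_[p]) :
    ff a b (A - c • 1) = ff a b A := by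
  have : A - c • (1 : Matrix (Fin 4) (Fin 4) ℚ_[p]) = A + (-c) • 1 := by
    rw [neg_smul]; abel
  rw [this, ff_add, ff_smul, ff_one, mul_zero, add_zero]

lemma Near.bd_ff {ε : ℤ} {A : Matrix (Fin 4) (Fin 4) ℚ_[p]} (hA : Near p ε A) :
    Bd 0 (ff a b A) := by
  rw [← ff_sub_smul a b A ε]
  exact (ff_bd a b hA.2).mono (by norm_num)

lemma Near.rd_ff_mul {ε ε' : ℤ} {A B : Matrix (Fin 4) (Fin 4) ℚ_[p]} (hA : Near p ε A)
    (hB : Near p ε' B) :
    rd (ff a b (A * B)) = ε' * rd (ff a b A) + ε * rd (ff a b B) := by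
  have e : ff a b (A * B) = ff a b ((A - (ε : ℚ_[p]) • 1) * (B - (ε' : ℚ_[p]) • 1)) +
      ((ε' : ℚ_[p]) * ff a b A + (ε : ℚ_[p]) * ff a b B) := by
    have e1 : (A - (ε : ℚ_[p]) • 1) * (B - (ε' : ℚ_[p]) • 1) =
        A * B + (-(ε' : ℚ_[p])) • A + (-(ε : ℚ_[p])) • B + ((ε : ℚ_[p]) * ε') • 1 := by
      simp only [mul_sub, sub_mul, Matrix.smul_mul, Matrix.mul_smul, Matrix.mul_one,
        Matrix.one_mul, smul_smul, neg_smul]
      rw [mul_comm (ε : ℚ_[p]) (ε' : ℚ_[p])]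
      abel
    rw [e1]
    simp only [ff_add, ff_smul, ff_one]
    ring
  have h1 : Bd (-1) (ff a b ((A - (ε : ℚ_[p]) • 1) * (B - (ε' : ℚ_[p]) • 1))) :=
    (ff_bd a b (hA.2.mul hB.2 (k := 2) (by norm_num))).mono (by norm_num)
  have h2 : Bd 0 ((ε' : ℚ_[p]) * ff a b A) := (Bd.int ε').mul' (hA.bd_ff a b) (by norm_num)
  have h3 : Bd 0 ((ε : ℚ_[p]) * ff a b B) := (Bd.int ε).mul' (hB.bd_ff a b) (by norm_num)
  rw [e, rd_add (h1.mono (by norm_num)) (h2.add h3), rd_zero_of h1, zero_add, rd_add h2 h3,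
    rd_mul (Bd.int _) (hA.bd_ff a b), rd_mul (Bd.int _) (hB.bd_ff a b), rd_int, rd_int]

/-- the character of `K` with values in `ℤ/p` -/
noncomputable def chi : KK p →* Multiplicative (ZMod p) where
  toFun g := Multiplicative.ofAdd (rd (g.1.1.1 0 0) * rd (ff a b g.1.1.1))
  map_one' := by
    rw [← ofAdd_zero]
    congr 1
    have : ff a b ((1 : KK p).1.1.1) = 0 := ff_one a b
    rw [this, rd_zero_of (Bd.zero _), mul_zero]
  map_mul' := by
    rintro ⟨g, ε, hg⟩ ⟨h, ε', hh⟩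
    rw [← ofAdd_add]
    congr 1
    have h1 := hg.mul hh
    have e1 : rd ((g * h).1.1 0 0) = ((ε * ε' : ℤ) : ZMod p) := h1.rd00
    have e2 : rd (ff a b ((g * h).1.1)) = ε' * rd (ff a b g.1.1) + ε * rd (ff a b h.1.1) :=
      Near.rd_ff_mul a b hg hh
    show rd ((g * h).1.1 0 0) * rd (ff a b ((g * h).1.1)) =
      rd (g.1.1 0 0) * rd (ff a b g.1.1) + rd (h.1.1 0 0) * rd (ff a b h.1.1)
    rw [e1, e2, hg.rd00, hh.rd00]
    have s1 : (ε : ZMod p) * ε = 1 := by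
      have := sign_cases hg.1
      have h2 : ((ε * ε : ℤ) : ZMod p) = 1 := by rw [this]; simp
      simpa using h2
    have s2 : (ε' : ZMod p) * ε' = 1 := by
      have := sign_cases hh.1
      have h2 : ((ε' * ε' : ℤ) : ZMod p) = 1 := by rw [this]; simp
      simpa using h2
    push_cast
    linear_combination (ε : ZMod p) * rd (ff a b g.1.1) * s2 +
      (ε' : ZMod p) * rd (ff a b h.1.1) * s1

lemma chi_eq {ε : ℤ} {g : KK p} (hg : Near p ε g.1.1.1) :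
    chi a b g = Multiplicative.ofAdd ((ε : ZMod p) * rd (ff a b g.1.1.1)) := by
  show Multiplicative.ofAdd (rd (g.1.1.1 0 0) * rd (ff a b g.1.1.1)) = _
  rw [hg.rd00]

/-! ### The elements `U_{v,w}` -/

lemma one_add_inv {x : ℚ_[p]} (hx : Bd (-1) x) :
    1 + x ≠ 0 ∧ Bd 0 (1 + x)⁻¹ ∧ Bd (-1) ((1 + x)⁻¹ - 1) := by
  have hlt : ‖x‖ < 1 := by
    rw [Bd, Padic.norm_le_pow_iff_norm_lt_pow_add_one] at hx
    simpa using hx
  have h1 : ‖1 + x‖ = 1 := by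
    rw [Padic.add_eq_max_of_ne, norm_one, max_eq_left hlt.le]
    rw [norm_one]
    exact hlt.ne'
  have h0 : 1 + x ≠ 0 := by
    intro h
    rw [h, norm_zero] at h1
    exact zero_ne_one h1
  have h2 : Bd 0 (1 + x)⁻¹ := by
    rw [Bd, norm_inv, h1, inv_one, zpow_zero]
  refine ⟨h0, h2, ?_⟩
  have e : (1 + x)⁻¹ - 1 = (1 + x)⁻¹ * (-x) := by
    field_simp
    ring
  rw [e]
  exact h2.mul' hx.neg (by norm_num)

variable {a b}

lemma Umat_near {i j : ℤ} {v w : Fin 4 → ℚ_[p]} (hv : LL i v) (hw : LL j w) {n : ℤ}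
    (hn : 1 ≤ n) (hij : n + 1 ≤ i + j) : Deep n (Umat v w - 1) := by
  have h1 := one_add_inv ((LL.om hv hw).mono (n := -1) (by omega))
  have e : Umat v w - 1 = (1 + om v w)⁻¹ • vecMulVec v (st w) + vecMulVec w (st v) := by
    rw [Umat]; abel
  rw [e]
  exact ((deep_vecMulVec hv hw (by omega)).smul h1.2.1).add (deep_vecMulVec hw hv (by omega))

/-- `U_{v,w}` as an element of `K` -/
lemma exists_UK {i j : ℤ} {v w : Fin 4 → ℚ_[p]} (hv : LL i v) (hw : LL j w) (hij : 2 ≤ i + j) :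
    ∃ u : KK p, u.1.1.1 = Umat v w ∧ ∀ a b : Fin 3 → ℤ,
      chi a b u = Multiplicative.ofAdd (rd (BB a b v w)) := by
  have hom : Bd (-1) (om v w) := (LL.om hv hw).mono (by omega)
  have h1 := one_add_inv hom
  obtain ⟨u, hu⟩ := exists_U h1.1
  have hd : Near p 1 u.1.1 := by
    refine ⟨Or.inl rfl, ?_⟩
    rw [hu]
    have : Umat v w - ((1 : ℤ) : ℚ_[p]) • 1 = Umat v w - 1 := by simp
    rw [this]
    exact Umat_near hv hw le_rfl (by omega)
  refine ⟨⟨u, 1, hd⟩, hu, fun a b => ?_⟩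
  rw [chi_eq a b (g := ⟨u, 1, hd⟩) hd, Int.cast_one, one_mul]
  congr 1
  show rd (ff a b u.1.1) = _
  rw [hu]
  have e : ff a b (Umat v w) = (1 + om v w)⁻¹ * ph a b v w + ph a b w v := by
    rw [Umat, ff_add, ff_add, ff_one, ff_smul, ff_vecMulVec, ff_vecMulVec, zero_add]
  rw [e]
  apply rd_congr
  · exact (BB_bd a b hv hw).mono (by omega)
  · have e2 : (1 + om v w)⁻¹ * ph a b v w + ph a b w v - BB a b v w =
        ((1 + om v w)⁻¹ - 1) * ph a b v w := by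
      rw [BB]; ring
    rw [e2]
    exact h1.2.2.mul' (ph_bd a b hv hw) (by omega)

lemma rd_BB_zero {i j : ℤ} {v w : Fin 4 → ℚ_[p]} (hv : LL i v) (hw : LL j w)
    (hij : 3 ≤ i + j) : rd (BB a b v w) = 0 :=
  rd_zero_of ((BB_bd a b hv hw).mono (by omega))

lemma rd_BB_ne {i j : ℤ} {v w : Fin 4 → ℚ_[p]} (hv : LL i v) (hw : LL j w)
    (hij : i + j = 2) (h : ¬ Bd (-1) (BB a b v w)) : rd (BB a b v w) ≠ 0 := fun h' =>
  h ((rd_eq_zero ((BB_bd a b hv hw).mono (by omega))).1 h')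

/-! ### Topology of `K` -/

lemma KK_open : IsOpen (KK p : Set (Sp4 ℚ_[p])) := by
  apply Subgroup.isOpen_of_mem_nhds (g := 1)
  have hp : (0 : ℝ) < p := one_pos.trans one_lt_p
  refine mem_of_superset (nhds_one' (p := p) (r := (p : ℝ) ^ (-1 : ℤ)) (zpow_pos hp _)) ?_
  intro g hg
  refine ⟨1, Or.inl rfl, fun k l => ?_⟩
  have h1 : Bd (-1) (g.1.1 k l - (1 : Matrix (Fin 4) (Fin 4) ℚ_[p]) k l) := (hg k l).le
  rw [Matrix.sub_apply, Int.cast_one, one_smul]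
  refine h1.mono ?_
  rcases ex_cases k with hk | hk <;> rcases ex_cases l with hl | hl <;> rw [hk, hl] <;> norm_num

lemma Near.bdd {ε : ℤ} {A : Matrix (Fin 4) (Fin 4) ℚ_[p]} (hA : Near p ε A) (k l : Fin 4) :
    Bd 0 (A k l) := by
  have e : A k l = (A - (ε : ℚ_[p]) • 1) k l + (ε : ℚ_[p]) * (1 : Matrix _ _ ℚ_[p]) k l := by
    rw [Matrix.sub_apply, Matrix.smul_apply, smul_eq_mul]; ring
  rw [e]
  refine ((hA.2 k l).mono ?_).add ((Bd.int ε).mul' (n := 0) ?_ (by norm_num))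
  · rcases ex_cases k with hk | hk <;> rcases ex_cases l with hl | hl <;> rw [hk, hl] <;> norm_num
  · refine (Deep.one k l).mono ?_
    rcases ex_cases k with hk | hk <;> rcases ex_cases l with hl | hl <;> rw [hk, hl] <;> norm_num

lemma KK_compact : IsCompact (KK p : Set (Sp4 ℚ_[p])) := by
  refine (isCompact_bdd (p := p) 1).of_isClosed_subset ?_ ?_
  · exact Subgroup.isClosed_of_isOpen _ KK_open
  · rintro g ⟨ε, hg⟩ k l
    have := hg.bdd k l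
    rwa [Bd, zpow_zero] at this

/-- the complex characters of `K` -/
noncomputable def chiC (a b : Fin 3 → ℤ) (θ : Multiplicative (ZMod p) →* ℂˣ) : KK p →* ℂˣ :=
  θ.comp (chi a b)

lemma chi_ev : ∀ᶠ k in 𝓝 (1 : KK p), chi a b k = 1 := by
  have hp : (0 : ℝ) < p := one_pos.trans one_lt_p
  have h := nhds_one' (p := p) (r := (p : ℝ) ^ (-2 : ℤ)) (zpow_pos hp _)
  have h2 : ∀ᶠ k : KK p in 𝓝 (1 : KK p), (k : Sp4 ℚ_[p]) ∈ {g : Sp4 ℚ_[p] |
    ∀ k l, ‖g.1.1 k l - (1 : Matrix (Fin 4) (Fin 4) ℚ_[p]) k l‖ < (p : ℝ) ^ (-2 : ℤ)} :=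
    (continuous_subtype_val.tendsto (1 : KK p)) h
  filter_upwards [h2] with g hg
  have hd : Deep 2 (g.1.1.1 - 1) := by
    intro k l
    have h1 : Bd (-2) (g.1.1.1 k l - (1 : Matrix (Fin 4) (Fin 4) ℚ_[p]) k l) := (hg k l).le
    rw [Matrix.sub_apply]
    refine h1.mono ?_
    rcases ex_cases k with hk | hk <;> rcases ex_cases l with hl | hl <;> rw [hk, hl] <;> norm_num
  have hn : Near p 1 g.1.1.1 := by
    refine ⟨Or.inl rfl, ?_⟩
    rw [Int.cast_one, one_smul]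
    exact hd.mono (by norm_num)
  rw [chi_eq a b hn, Int.cast_one, one_mul]
  have h3 : Bd (-1) (ff a b g.1.1.1) := by
    have := ff_bd a b hd
    have e := ff_sub_smul a b g.1.1.1 1
    rw [one_smul] at e
    rw [e] at this
    exact this.mono (by norm_num)
  rw [rd_zero_of h3]
  rfl

lemma chiC_smooth (θ : Multiplicative (ZMod p) →* ℂˣ) : Smooth (chRep (chiC a b θ)) := by
  intro v
  filter_upwards [chi_ev (a := a) (b := b)] with k hk
  rw [chRep_apply, chiC, MonoidHom.comp_apply, hk, map_one, Units.val_one, one_mul]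

end Pool.Agent.R716
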