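import Pool.Agent.R716.Grp

/-!
# Irreducibility and cuspidality
-/

open Topology Filter Matrix

namespace Pool.Agent.R716

variable {p : ℕ} [Fact p.Prime] {a b : Fin 3 → ℤ}

variable (p a b) in
/-- only `± 1` stabilises the pair of forms -/
def Stab : Prop :=
  ∀ x y z t x' y' z' t' : ZMod p,
    (∀ m n : ZMod p, 2 * qz a (x * m + y * n) (z * m + t * n) = 2 * qz a m n) →
    (∀ m n : ZMod p, 2 * qz b (x' * m + y' * n) (z' * m + t' * n) = 2 * qz b m n) →
    x' * t - z' * y = 1 → x' * z - z' * x = 0 → y' * z - t' * x = -1 → y' * t - t' * y = 0 →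
    (x = 1 ∧ y = 0 ∧ z = 0 ∧ t = 1 ∧ x' = 1 ∧ y' = 0 ∧ z' = 0 ∧ t' = 1) ∨
      (x = -1 ∧ y = 0 ∧ z = 0 ∧ t = -1 ∧ x' = -1 ∧ y' = 0 ∧ z' = 0 ∧ t' = -1)

lemma act_single (g : Sp4 ℚ_[p]) (l k : Fin 4) : act g (Pi.single l 1) k = g.1.1 k l := by
  simp [act]

lemma LL_single (l : Fin 4) : LL (ex l) (Pi.single l (1 : ℚ_[p])) := by
  intro k
  by_cases h : k = l
  · subst h
    rw [Pi.single_eq_same, sub_self]
    exact Bd.one
  · rw [Pi.single_eq_of_ne h]
    exact Bd.zero _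

/-- the element `u` of `K` and its conjugate obtained from a good pair -/
lemma Good.exists_u {g : Sp4 ℚ_[p]} {m : ℤ} (h : Good a b g m) :
    ∃ (u : KK p) (i' j' : ℤ) (v' w' : Fin 4 → ℚ_[p]), chi a b u ≠ 1 ∧
      (g * u.1 * g⁻¹).1.1 = Umat v' w' ∧ LL i' v' ∧ LL j' w' ∧ m ≤ i' + j' := by
  obtain ⟨i, j, i', j', v, w, hij, hv, hw, hB, hv', hw', hm⟩ := h
  obtain ⟨u, hu, hchi⟩ := exists_UK hv hw hij.ge
  refine ⟨u, i', j', act g v, act g w, ?_, conj_U g hu, hv', hw', hm⟩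
  rw [hchi a b, ne_eq, ofAdd_eq_one]
  exact rd_BB_ne hv hw hij hB

/-- the order of a suitable column of `g⁻¹` -/
lemma good_of_entry (hc : Cusp p a b) {g : Sp4 ℚ_[p]} {k l : Fin 4} {n m : ℤ} (hn : 0 ≤ n)
    (hm : m ≤ n + 2)
    (h : ¬ Bd (n + (ex k - ex l) / 2) ((g⁻¹ : Sp4 ℚ_[p]).1.1 k l)) :
    Good a b g (m + 1) := by
  set v : Fin 4 → ℚ_[p] := act g⁻¹ (Pi.single l 1) with hv
  have hgv : act g v = Pi.single l 1 := act_inv g _
  have hv0 : v ≠ 0 := by
    intro h0
    rw [h0] at hgv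
    have h1 := congrFun hgv l
    rw [Pi.single_eq_same] at h1
    simp [act] at h1
  obtain ⟨i, hi, hi'⟩ := exists_ord hv0
  have hil : i < ex l - 2 * n := by
    by_contra hcon
    apply h
    have h1 := hi k
    rw [hv, act_single] at h1
    exact h1.mono (by omega)
  refine good_of hc (δ := ex l - i) (κ := n + 1) hi hi' ?_ (by omega) (by omega) (by omega)
  rw [hgv]
  have : i + (ex l - i) = ex l := by ring
  rw [this]
  exact LL_single l

lemma act_LL {g : Sp4 ℚ_[p]} (hg : Deep 0 g.1.1) {i : ℤ} {v : Fin 4 → ℚ_[p]} (hv : LL i v) :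
    LL i (act g v) := by
  have := hg.mulVec hv
  rwa [add_zero] at this

lemma deep0_inv {g : Sp4 ℚ_[p]} (h : Deep 0 g.1.1) : Deep 0 (g⁻¹ : Sp4 ℚ_[p]).1.1 := by
  rw [inv_val]
  exact h.adj

lemma near_of_stab (hs : Stab p a b) {g : Sp4 ℚ_[p]} (hg : Deep 0 g.1.1)
    (h : ∀ u u' : KK p, (u' : Sp4 ℚ_[p]) = g * u * g⁻¹ → chi a b u' = chi a b u) :
    g ∈ KK p := by
  -- entries
  have hb0 : ∀ k l, Bd 0 (g.1.1 k l) := by
    intro k l
    refine (hg k l).mono ?_
    rcases ex_cases k with hk | hk <;> rcases ex_cases l with hl | hl <;> rw [hk, hl] <;> norm_num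
  choose A hA using fun k l => (hb0 k l).lift
  have hlow : ∀ k l, ex k = 0 → ex l = 1 → PadicInt.toZMod (A k l) = 0 := by
    intro k l hk hl
    rw [toZMod_eq_zero, hA]
    have := hg k l
    rw [hk, hl] at this
    exact this
  -- agreement on pairs of vectors
  have hpair : ∀ (i j : ℤ) (v w : Fin 4 → ℚ_[p]), LL i v → LL j w → i + j = 2 →
      rd (BB a b (act g v) (act g w)) = rd (BB a b v w) := by
    intro i j v w hv hw hij
    obtain ⟨u, hu, hchi⟩ := exists_UK hv hw hij.ge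
    have hv' : LL i (act g v) := act_LL hg hv
    have hw' : LL j (act g w) := act_LL hg hw
    obtain ⟨u', hu', hchi'⟩ := exists_UK hv' hw' hij.ge
    have e : (u' : Sp4 ℚ_[p]) = g * u * g⁻¹ := by
      apply sp_ext
      rw [hu', conj_U g hu]
    have := h u u' e
    rw [hchi, hchi'] at this
    exact Multiplicative.ofAdd.injective this
  have hA1 : ∀ m n : ZMod p, 2 * qz a (PadicInt.toZMod (A 0 0) * m + PadicInt.toZMod (A 0 2) * n)
      (PadicInt.toZMod (A 2 0) * m + PadicInt.toZMod (A 2 2) * n) = 2 * qz a m n := by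
    intro m n
    obtain ⟨m, rfl⟩ := ZMod.intCast_surjective m
    obtain ⟨n, rfl⟩ := ZMod.intCast_surjective n
    let v : Fin 4 → ℚ_[p] := ![((m : ℤ_[p]) : ℚ_[p]), 0, ((n : ℤ_[p]) : ℚ_[p]), 0]
    have hv : LL 1 v := by
      intro k
      fin_cases k
      · exact bd_coe _
      · exact Bd.zero _
      · exact bd_coe _
      · exact Bd.zero _
    have h1 := hpair 1 1 v v hv hv (by norm_num)
    have hv' : LL 1 (act g v) := act_LL hg hv
    rw [rdBB1 a b hv', rdBB1 a b hv] at h1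
    have e0 : act g v 0 = ((A 0 0 * m + A 0 2 * n : ℤ_[p]) : ℚ_[p]) := by
      push_cast
      rw [hA, hA]
      simp [act, Matrix.mulVec, dotProduct, Fin.sum_univ_four, v]
    have e2 : act g v 2 = ((A 2 0 * m + A 2 2 * n : ℤ_[p]) : ℚ_[p]) := by
      push_cast
      rw [hA, hA]
      simp [act, Matrix.mulVec, dotProduct, Fin.sum_univ_four, v]
    have e3 : v 0 = ((m : ℤ_[p]) : ℚ_[p]) := rfl
    have e4 : v 2 = ((n : ℤ_[p]) : ℚ_[p]) := rfl
    rw [e0, e2, e3, e4, rd_coe, rd_coe, rd_coe, rd_coe] at h1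
    simpa only [map_add, map_mul, map_intCast] using h1
  have hA2 : ∀ m n : ZMod p, 2 * qz b (PadicInt.toZMod (A 1 1) * m + PadicInt.toZMod (A 1 3) * n)
      (PadicInt.toZMod (A 3 1) * m + PadicInt.toZMod (A 3 3) * n) = 2 * qz b m n := by
    intro m n
    obtain ⟨m, rfl⟩ := ZMod.intCast_surjective m
    obtain ⟨n, rfl⟩ := ZMod.intCast_surjective n
    let v : Fin 4 → ℚ_[p] := ![0, ((m : ℤ_[p]) : ℚ_[p]), 0, ((n : ℤ_[p]) : ℚ_[p])]
    have hv : LL 0 v := by
      intro k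
      fin_cases k
      · exact Bd.zero _
      · exact bd_coe _
      · exact Bd.zero _
      · exact bd_coe _
    have h1 := hpair 0 2 v ((p : ℚ_[p]) ^ (1 : ℤ) • v) hv (hv.zpow 1 (by norm_num)) (by norm_num)
    have hv' : LL 0 (act g v) := act_LL hg hv
    have e : ∀ y : Fin 4 → ℚ_[p], BB a b y ((p : ℚ_[p]) ^ (1 : ℤ) • y) = p * BB a b y y := by
      intro y
      have := BB_smul a b (1 : ℚ_[p]) ((p : ℚ_[p]) ^ (1 : ℤ)) y y
      rw [one_smul, one_mul] at this
      rw [this, zpow_one]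
    rw [act_smul, e, e, rdBB0 a b hv', rdBB0 a b hv] at h1
    have e0 : act g v 1 = ((A 1 1 * m + A 1 3 * n : ℤ_[p]) : ℚ_[p]) := by
      push_cast
      rw [hA, hA]
      simp [act, Matrix.mulVec, dotProduct, Fin.sum_univ_four, v]
    have e2 : act g v 3 = ((A 3 1 * m + A 3 3 * n : ℤ_[p]) : ℚ_[p]) := by
      push_cast
      rw [hA, hA]
      simp [act, Matrix.mulVec, dotProduct, Fin.sum_univ_four, v]
    have e3 : v 1 = ((m : ℤ_[p]) : ℚ_[p]) := rfl
    have e4 : v 3 = ((n : ℤ_[p]) : ℚ_[p]) := rfl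
    rw [e0, e2, e3, e4, rd_coe, rd_coe, rd_coe, rd_coe] at h1
    simpa only [map_add, map_mul, map_intCast] using h1
  -- the symplectic relations
  have hsym : ∀ k l : Fin 4, A 0 k * A 3 l + A 1 k * A 2 l - A 2 k * A 1 l - A 3 k * A 0 l =
      om (Pi.single k (1 : ℤ_[p])) (Pi.single l 1) := by
    intro k l
    have h1 := om_act g (Pi.single k 1) (Pi.single l 1)
    simp only [om, act_single] at h1
    apply Subtype.coe_injective
    simp only [om]
    push_cast
    rw [hA, hA, hA, hA, hA, hA, hA, hA, h1]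
    have e : ∀ i j : Fin 4, ((Pi.single i (1 : ℤ_[p]) : Fin 4 → ℤ_[p]) j : ℚ_[p]) =
        (Pi.single i (1 : ℚ_[p]) : Fin 4 → ℚ_[p]) j := by
      intro i j
      by_cases hij : j = i
      · subst hij
        simp
      · rw [Pi.single_eq_of_ne hij, Pi.single_eq_of_ne hij, PadicInt.coe_zero]
    simp only [e]
  have hsym' : ∀ k l : Fin 4, PadicInt.toZMod (A 0 k) * PadicInt.toZMod (A 3 l) +
      PadicInt.toZMod (A 1 k) * PadicInt.toZMod (A 2 l) -
      PadicInt.toZMod (A 2 k) * PadicInt.toZMod (A 1 l) -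
      PadicInt.toZMod (A 3 k) * PadicInt.toZMod (A 0 l) =
      PadicInt.toZMod (om (Pi.single k (1 : ℤ_[p])) (Pi.single l 1)) := by
    intro k l
    rw [← hsym]
    simp only [map_add, map_mul, map_sub]
  have r12 := hsym' 1 2
  have r10 := hsym' 1 0
  have r30 := hsym' 3 0
  have r32 := hsym' 3 2
  rw [hlow 3 2 rfl rfl, hlow 1 2 rfl rfl] at r12 r32
  rw [hlow 3 0 rfl rfl, hlow 1 0 rfl rfl] at r10 r30
  have o12 : om (Pi.single 1 (1 : ℤ_[p])) (Pi.single 2 1) = 1 := by simp [om]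
  have o10 : om (Pi.single 1 (1 : ℤ_[p])) (Pi.single 0 1) = 0 := by simp [om]
  have o30 : om (Pi.single 3 (1 : ℤ_[p])) (Pi.single 0 1) = -1 := by simp [om]
  have o32 : om (Pi.single 3 (1 : ℤ_[p])) (Pi.single 2 1) = 0 := by simp [om]
  rw [o12, map_one] at r12
  rw [o10, map_zero] at r10
  rw [o30, map_neg, map_one] at r30
  rw [o32, map_zero] at r32
  have key := hs _ _ _ _ _ _ _ _ hA1 hA2 (by linear_combination r12) (by linear_combination r10)
    (by linear_combination r30) (by linear_combination r32)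
  -- conclusion
  have hfin : ∀ ε : ℤ, (ε = 1 ∨ ε = -1) → (∀ k l, ex k = ex l → PadicInt.toZMod (A k l) =
      (ε : ZMod p) * (1 : Matrix (Fin 4) (Fin 4) (ZMod p)) k l) → g ∈ KK p := by
    intro ε hε hk
    refine ⟨ε, hε, fun k l => ?_⟩
    by_cases hkl : ex k = ex l
    · have h1 := hk k l hkl
      have h2 : PadicInt.toZMod (A k l - (ε : ℤ_[p]) * (1 : Matrix (Fin 4) (Fin 4) ℤ_[p]) k l) =
          0 := by
        rw [map_sub, map_mul, map_intCast, h1, sub_eq_zero]
        congr 1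
        by_cases hkl' : k = l
        · subst hkl'
          simp
        · simp [Matrix.one_apply_ne hkl']
      rw [toZMod_eq_zero] at h2
      have e : (g.1.1 - (ε : ℚ_[p]) • (1 : Matrix (Fin 4) (Fin 4) ℚ_[p])) k l =
          ((A k l - (ε : ℤ_[p]) * (1 : Matrix (Fin 4) (Fin 4) ℤ_[p]) k l : ℤ_[p]) : ℚ_[p]) := by
        rw [Matrix.sub_apply, Matrix.smul_apply, smul_eq_mul]
        push_cast
        rw [hA]
        by_cases hkl' : k = l
        · subst hkl'
          simp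
        · simp [Matrix.one_apply_ne hkl']
      rw [e, hkl]
      exact h2.mono (by omega)
    · have hkl' : k ≠ l := fun h => hkl (by rw [h])
      rw [Matrix.sub_apply, Matrix.smul_apply, Matrix.one_apply_ne hkl', smul_zero, sub_zero]
      refine (hg k l).mono ?_
      rcases ex_cases k with hk | hk <;> rcases ex_cases l with hl | hl <;> rw [hk, hl]
      · exact absurd (hk.trans hl.symm) hkl
      · norm_num
      · norm_num
      · exact absurd (hk.trans hl.symm) hkl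
  rcases key with ⟨k1, k2, k3, k4, k5, k6, k7, k8⟩ | ⟨k1, k2, k3, k4, k5, k6, k7, k8⟩
  · refine hfin 1 (Or.inl rfl) ?_
    intro k l hkl
    fin_cases k <;> fin_cases l <;> first
      | exact absurd hkl (by decide)
      | (simpa using k1)
      | (simpa using k2)
      | (simpa using k3)
      | (simpa using k4)
      | (simpa using k5)
      | (simpa using k6)
      | (simpa using k7)
      | (simpa using k8)
  · refine hfin (-1) (Or.inr rfl) ?_
    intro k l hkl
    fin_cases k <;> fin_cases l <;> first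
      | exact absurd hkl (by decide)
      | (simpa using k1)
      | (simpa using k2)
      | (simpa using k3)
      | (simpa using k4)
      | (simpa using k5)
      | (simpa using k6)
      | (simpa using k7)
      | (simpa using k8)

/-- only the elements of `K` intertwine the character -/
lemma intertwine_chi (hc : Cusp p a b) (hs : Stab p a b) {θ : Multiplicative (ZMod p) →* ℂˣ}
    (hθ : Function.Injective θ) {g : Sp4 ℚ_[p]} (hg : g ∉ KK p) :
    ∃ u u' : KK p, (u' : Sp4 ℚ_[p]) = g * u * g⁻¹ ∧ chiC a b θ u' ≠ chiC a b θ u := by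
  by_cases hd : Deep 0 g.1.1
  · by_contra hcon
    push Not at hcon
    apply hg
    apply near_of_stab hs hd
    intro u u' e
    exact hθ (hcon u u' e)
  · have hd' : ¬ Deep 0 (g⁻¹ : Sp4 ℚ_[p]).1.1 := by
      intro h
      apply hd
      have := deep0_inv h
      rwa [inv_inv] at this
    obtain ⟨k, l, hkl⟩ : ∃ k l, ¬ Bd ((ex k - ex l - 0) / 2) ((g⁻¹ : Sp4 ℚ_[p]).1.1 k l) := by
      by_contra h
      push Not at h
      exact hd' h
    have hgood := good_of_entry hc (g := g) (k := k) (l := l) (n := 0) (m := 2) le_rfl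
      (by norm_num) (by rwa [sub_zero, ← zero_add ((ex k - ex l) / 2)] at hkl)
    obtain ⟨u, i', j', v', w', hu, he, hv', hw', hm⟩ := hgood.exists_u
    obtain ⟨u', hu', hchi'⟩ := exists_UK hv' hw' (by omega)
    refine ⟨u, u', sp_ext (by rw [hu', he]), ?_⟩
    intro h
    have h1 := hθ h
    rw [hchi', rd_BB_zero hv' hw' (by omega)] at h1
    exact hu h1.symm

/-- **Irreducibility.** -/
lemma irr_chi (hc : Cusp p a b) (hs : Stab p a b) {θ : Multiplicative (ZMod p) →* ℂˣ}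
    (hθ : Function.Injective θ) : IsIrr (cInd (KK p) (chRep (chiC a b θ))) :=
  irr_of KK_open (chiC_smooth θ) KK_compact fun _ hg => intertwine_chi hc hs hθ hg

lemma cusp_chi (hc : Cusp p a b) {θ : Multiplicative (ZMod p) →* ℂˣ}
    (hθ : Function.Injective θ) {U : Set (Sp4 ℚ_[p])} (hU : U ∈ 𝓝 (1 : Sp4 ℚ_[p])) :
    ∃ C : Set (Sp4 ℚ_[p]), IsCompact C ∧ ∀ g ∉ C,
      ∃ u : KK p, chiC a b θ u ≠ 1 ∧ g * u * g⁻¹ ∈ U := by
  obtain ⟨r, hr, hrU⟩ := nhds_one hU
  have hp : (0 : ℝ) < p := one_pos.trans one_lt_p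
  obtain ⟨N, hN⟩ : ∃ N : ℕ, (p : ℝ) ^ (-(N : ℤ)) < r := by
    obtain ⟨N, hN⟩ := pow_unbounded_of_one_lt r⁻¹ (one_lt_p (p := p))
    refine ⟨N, ?_⟩
    rw [_root_.zpow_neg, zpow_natCast]
    exact inv_lt_of_inv_lt₀ hr hN
  set m : ℤ := 2 * N + 2 with hm
  refine ⟨{g | ∀ k l, ‖g.1.1 k l‖ ≤ (p : ℝ) ^ (m + 1)}, isCompact_bdd _, fun g hg => ?_⟩
  obtain ⟨k, l, hkl⟩ : ∃ k l, ¬ Bd (m + 1) (g.1.1 k l) := by
    by_contra h
    push Not at h
    exact hg h
  have hkl' : ¬ Bd (m + (ex (Fin.rev l) - ex (Fin.rev k)) / 2)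
      ((g⁻¹ : Sp4 ℚ_[p]).1.1 (Fin.rev l) (Fin.rev k)) := by
    intro h
    apply hkl
    rw [Bd, inv_val, norm_adj, Fin.rev_rev, Fin.rev_rev] at h
    have h' : Bd (m + (ex (Fin.rev l) - ex (Fin.rev k)) / 2) (g.1.1 k l) := h
    refine h'.mono ?_
    rcases ex_cases (Fin.rev l) with hl | hl <;> rcases ex_cases (Fin.rev k) with hk | hk <;>
      rw [hl, hk] <;> omega
  have hgood := good_of_entry hc (g := g) (m := m) (by omega) (by omega) hkl'
  obtain ⟨u, i', j', v', w', hu, he, hv', hw', hm'⟩ := hgood.exists_u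
  refine ⟨u, fun h => hu (hθ (by rw [map_one]; exact h)), ?_⟩
  apply hrU
  intro k l
  have h1 : Deep m (Umat v' w' - 1) := Umat_near hv' hw' (by omega) (by omega)
  have h2 := h1 k l
  rw [Matrix.sub_apply, ← he] at h2
  refine lt_of_le_of_lt (h2.mono (n := -(N : ℤ)) ?_) hN
  rcases ex_cases l with hl | hl <;> rcases ex_cases k with hk | hk <;> rw [hl, hk] <;> omega

/-- **Cuspidality.** -/
lemma coeff_chi (hc : Cusp p a b) {θ : Multiplicative (ZMod p) →* ℂˣ}
    (hθ : Function.Injective θ) : CompactCoeff (cInd (KK p) (chRep (chiC a b θ))) :=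
  coeff_of KK_open (chiC_smooth θ) fun _ hU => cusp_chi hc hθ hU

end Pool.Agent.R716
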