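import Pool.Agent.R716.CovDefs

/-!
# Compact induction of a character: definitions and abstract criteria
-/

open Topology Filter

namespace Pool.Agent.R716

/-- The one-dimensional representation given by a character. -/
def chRep {H : Type} [Group H] (χ : H →* ℂˣ) : Representation ℂ H ℂ where
  toFun h := (χ h : ℂ) • (1 : Module.End ℂ ℂ)
  map_one' := by simp
  map_mul' a b := by
    ext
    simp [mul_comm]

@[simp] lemma chRep_apply {H : Type} [Group H] (χ : H →* ℂˣ) (h : H) (z : ℂ) :
    chRep χ h z = (χ h : ℂ) * z := by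
  simp [chRep]

section Mackey

set_option linter.unusedSectionVars false

variable {G : Type} [Group G] [TopologicalSpace G] [IsTopologicalGroup G]
variable {K : Subgroup G} (χ : K →* ℂˣ)

open Classical in
/-- the basic function: `χ` on `K`, zero elsewhere -/
noncomputable def f1 (g : G) : ℂ := if h : g ∈ K then (χ ⟨g, h⟩ : ℂ) else 0

lemma f1_one : f1 χ 1 = 1 := by
  unfold f1
  rw [dif_pos (one_mem K)]
  have : (⟨1, one_mem K⟩ : K) = 1 := rfl
  rw [this, map_one]
  simp

lemma f1_zero {g : G} (h : g ∉ K) : f1 χ g = 0 := dif_neg h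

lemma f1_pos {g : G} (h : g ∈ K) : f1 χ g = (χ ⟨g, h⟩ : ℂ) := dif_pos h

lemma f1_mul (k : K) (g : G) : f1 χ (k * g) = (χ k : ℂ) * f1 χ g := by
  unfold f1
  by_cases h : g ∈ K
  · rw [dif_pos h, dif_pos (mul_mem k.2 h)]
    have : (⟨k * g, mul_mem k.2 h⟩ : K) = k * ⟨g, h⟩ := rfl
    rw [this, map_mul, Units.val_mul]
  · have h' : (k : G) * g ∉ K := fun h' => h ((Subgroup.mul_mem_cancel_left K k.2).1 h')
    rw [dif_neg h, dif_neg h', mul_zero]

lemma f1_mul_right (k : K) (g : G) : f1 χ (g * k) = (χ k : ℂ) * f1 χ g := by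
  unfold f1
  by_cases h : g ∈ K
  · rw [dif_pos h, dif_pos (mul_mem h k.2)]
    have : (⟨g * k, mul_mem h k.2⟩ : K) = ⟨g, h⟩ * k := rfl
    rw [this, map_mul, Units.val_mul, mul_comm]
  · have h' : g * (k : G) ∉ K := fun h' => h ((Subgroup.mul_mem_cancel_right K k.2).1 h')
    rw [dif_neg h, dif_neg h', mul_zero]

/-- the function supported on `K x` -/
noncomputable def dl (x : G) : G → ℂ := fun g => f1 χ (g * x⁻¹)

variable {χ} (hK : IsOpen (K : Set G)) (hχ : Smooth (chRep χ))

include hK hχ

lemma f1_mem : InInd K (chRep χ) (f1 χ) := by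
  have h1 : ∀ (k : K) (g : G), f1 χ (k * g) = chRep χ k (f1 χ g) := by
    intro k g
    rw [f1_mul, chRep_apply]
  have h3 : ∀ g, f1 χ g ≠ 0 → ∃ s ∈ ({1} : Set G), ∃ k ∈ K, g = k * s := by
    intro g hg
    have : g ∈ K := by
      by_contra h
      exact hg (f1_zero χ h)
    exact ⟨1, rfl, g, this, by simp⟩
  exact ⟨h1, cInd_smooth hK hχ h1 (Set.finite_singleton 1) h3, _, Set.finite_singleton 1, h3⟩

lemma dl_mem (x : G) : dl χ x ∈ cInd K (chRep χ) := (f1_mem hK hχ).translate x⁻¹

/-- `ind_K^G χ` is spanned by the functions `dl x` -/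
lemma span_dl {W : Submodule ℂ (G → ℂ)} (hW : ∀ x, dl χ x ∈ W) : cInd K (chRep χ) ≤ W := by
  classical
  have key : ∀ (n : ℕ) (S : Finset G), S.card = n → ∀ f, InInd K (chRep χ) f →
      (∀ g, f g ≠ 0 → ∃ s ∈ S, ∃ k ∈ K, g = k * s) → f ∈ W := by
    intro n
    induction n with
    | zero =>
      intro S hS f _ h
      have hf : f = 0 := by
        funext g
        by_contra hg
        obtain ⟨s, hs, _⟩ := h g hg
        rw [Finset.card_eq_zero.1 hS] at hs
        simp at hs
      rw [hf]
      exact W.zero_mem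
    | succ n ih =>
      intro S hS f hf h
      obtain ⟨s, hs⟩ : S.Nonempty := Finset.card_pos.1 (by omega)
      have hmem : InInd K (chRep χ) (f + (-(f s)) • dl χ s) :=
        hf.add (InInd.smul _ (dl_mem hK hχ s))
      have h2 := ih (S.erase s) (by rw [Finset.card_erase_of_mem hs]; omega)
        (f + (-(f s)) • dl χ s) hmem (by
          intro g hg
          by_cases hgs : ∃ k ∈ K, g = k * s
          · exfalso
            obtain ⟨k, hk, rfl⟩ := hgs
            apply hg
            have e1 : f (k * s) = (χ ⟨k, hk⟩ : ℂ) * f s := by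
              have := hf.1 ⟨k, hk⟩ s
              rwa [chRep_apply] at this
            have e2 : dl χ s (k * s) = (χ ⟨k, hk⟩ : ℂ) := by
              unfold dl
              rw [mul_inv_cancel_right]
              exact dif_pos hk
            show f (k * s) + -(f s) * dl χ s (k * s) = 0
            rw [e1, e2]
            ring
          · have e2 : dl χ s g = 0 := by
              apply f1_zero
              intro h'
              exact hgs ⟨g * s⁻¹, h', by group⟩
            have hfg : f g ≠ 0 := by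
              intro h0
              apply hg
              show f g + -(f s) * dl χ s g = 0
              rw [h0, e2]
              ring
            obtain ⟨t, ht, k, hk, e⟩ := h g hfg
            refine ⟨t, ?_, k, hk, e⟩
            rw [Finset.mem_erase]
            refine ⟨?_, ht⟩
            rintro rfl
            exact hgs ⟨k, hk, e⟩)
      have h3 : f = (f + (-(f s)) • dl χ s) + (f s) • dl χ s := by
        funext g
        simp
      rw [h3]
      exact W.add_mem h2 (W.smul_mem _ (hW s))
  intro f hf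
  obtain ⟨h1, h2, S, hS, h3⟩ := hf
  refine key _ hS.toFinset rfl f ⟨h1, h2, S, hS, h3⟩ ?_
  intro g hg
  obtain ⟨s, hs, hk⟩ := h3 g hg
  exact ⟨s, by simpa using hs, hk⟩

/-- **Mackey's criterion** for `ind_K^G χ`. -/
lemma irr_of (hc : IsCompact (K : Set G))
    (H : ∀ g : G, g ∉ K → ∃ u u' : K, (u' : G) = g * u * g⁻¹ ∧ χ u' ≠ χ u) :
    IsIrr (cInd K (chRep χ)) := by
  classical
  constructor
  · intro h
    have h1 := f1_mem hK hχ
    have h2 : f1 χ ∈ cInd K (chRep χ) := h1
    rw [h] at h2
    have h3 : f1 χ = 0 := by simpa using h2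
    have h4 := congrFun h3 1
    rw [f1_one] at h4
    simp at h4
  · intro W hW htr
    by_cases hW0 : W = ⊥
    · exact Or.inl hW0
    right
    apply le_antisymm hW
    obtain ⟨f0, hf0, hf0'⟩ := (Submodule.ne_bot_iff W).1 hW0
    obtain ⟨g0, hg0⟩ : ∃ g, f0 g ≠ 0 := by
      by_contra h
      push Not at h
      exact hf0' (funext h)
    set f : G → ℂ := fun y => f0 (y * g0) with hf
    have hfW : f ∈ W := htr f0 hf0 g0
    have hf1 : f 1 ≠ 0 := by
      rw [hf]
      simpa using hg0
    have hfI : InInd K (chRep χ) f := hW hfW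
    -- the stabiliser
    let H0 : Subgroup K :=
      { carrier := {k | χ k = 1 ∧ ∀ y, f (y * k) = f y}
        one_mem' := by
          refine ⟨map_one χ, fun y => by simp⟩
        mul_mem' := by
          rintro a b ⟨ha, ha'⟩ ⟨hb, hb'⟩
          refine ⟨by rw [map_mul, ha, hb, mul_one], fun y => ?_⟩
          rw [Subgroup.coe_mul, ← mul_assoc, hb', ha']
        inv_mem' := by
          rintro a ⟨ha, ha'⟩
          refine ⟨by rw [map_inv, ha, inv_one], fun y => ?_⟩
          rw [← ha', Subgroup.coe_inv, inv_mul_cancel_right] }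
    have hopen : IsOpen (H0 : Set K) := by
      apply Subgroup.isOpen_of_mem_nhds (g := 1)
      have e1 : ∀ᶠ k in 𝓝 (1 : K), χ k = 1 := by
        filter_upwards [hχ 1] with k hk
        rw [chRep_apply, mul_one] at hk
        exact Units.ext hk
      have e2 : ∀ᶠ k : K in 𝓝 (1 : K), ∀ y : G, f (y * (k : G)) = f y := by
        have := hfI.2.1
        have hcont : Tendsto (fun k : K => (k : G)) (𝓝 (1 : K)) (𝓝 (1 : G)) :=
          continuous_subtype_val.tendsto (1 : K)
        exact hcont.eventually this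
      filter_upwards [e1, e2] with k h1 h2
      exact ⟨h1, h2⟩
    have : CompactSpace K := isCompact_iff_compactSpace.1 hc
    have : Finite (K ⧸ H0) := Subgroup.quotient_finite_of_isOpen H0 hopen
    have : Fintype (K ⧸ H0) := Fintype.ofFinite _
    -- the average
    set φ : G → ℂ := ∑ q : K ⧸ H0, ((χ q.out)⁻¹ : ℂˣ).1 • (fun y => f (y * (q.out : K))) with hφ
    have hφW : φ ∈ W := by
      refine W.sum_mem fun q _ => W.smul_mem _ (htr f hfW _)
    have hφa : ∀ y, φ y = ∑ q : K ⧸ H0, ((χ q.out)⁻¹ : ℂˣ).1 * f (y * (q.out : K)) := by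
      intro y
      rw [hφ, Finset.sum_apply]
      rfl
    -- the terms depend only on the coset
    have hterm : ∀ (k : K) (y : G), ((χ (QuotientGroup.mk (s := H0) k).out)⁻¹ : ℂˣ).1 *
        f (y * ((QuotientGroup.mk (s := H0) k).out : K)) = ((χ k)⁻¹ : ℂˣ).1 * f (y * k) := by
      intro k y
      obtain ⟨h, hh⟩ := QuotientGroup.mk_out_eq_mul H0 k
      rw [hh, map_mul, h.2.1, mul_one, Subgroup.coe_mul, ← mul_assoc, h.2.2]
    have hφr : ∀ (k : K) (y : G), φ (y * k) = (χ k : ℂ) * φ y := by
      intro k y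
      rw [hφa, hφa, Finset.mul_sum]
      refine Fintype.sum_equiv (MulAction.toPerm k) _ _ fun q => ?_
      obtain ⟨k', rfl⟩ := QuotientGroup.mk_surjective q
      have e : (MulAction.toPerm k) (QuotientGroup.mk (s := H0) k') =
          QuotientGroup.mk (s := H0) (k * k') := rfl
      rw [e, hterm, hterm, map_mul, mul_inv, Units.val_mul, Subgroup.coe_mul, mul_assoc y,
        ← mul_assoc (χ k : ℂ), ← mul_assoc (χ k : ℂ), Units.mul_inv, one_mul]
    have hφ1 : φ 1 ≠ 0 := by
      rw [hφa]
      have : ∀ q : K ⧸ H0, ((χ q.out)⁻¹ : ℂˣ).1 * f (1 * (q.out : K)) = f 1 := by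
        intro q
        have h := hfI.1 q.out 1
        rw [chRep_apply, mul_one] at h
        rw [one_mul, h, ← mul_assoc, Units.inv_mul, one_mul]
      rw [Finset.sum_congr rfl fun q _ => this q, Finset.sum_const, nsmul_eq_mul]
      refine mul_ne_zero ?_ hf1
      have : (Finset.univ : Finset (K ⧸ H0)).card ≠ 0 := by
        rw [Finset.card_univ]
        exact Fintype.card_ne_zero
      exact_mod_cast this
    have hφI : InInd K (chRep χ) φ := hW hφW
    have hφ0 : ∀ g, g ∉ K → φ g = 0 := by
      intro g hg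
      obtain ⟨u, u', hu', hu1⟩ := H g hg
      have h1 := hφr u g
      have h2 := hφI.1 u' g
      rw [chRep_apply] at h2
      have h3 : (u' : G) * g = g * u := by rw [hu']; group
      rw [h3, h1] at h2
      by_contra h0
      exact hu1 (Units.ext (mul_right_cancel₀ h0 h2.symm))
    have hφf : φ = φ 1 • f1 χ := by
      funext g
      by_cases hg : g ∈ K
      · have := hφr ⟨g, hg⟩ 1
        rw [one_mul] at this
        show φ g = φ 1 * f1 χ g
        rw [this]
        unfold f1
        rw [dif_pos hg, mul_comm]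
      · show φ g = φ 1 * f1 χ g
        rw [hφ0 g hg, f1_zero χ hg, mul_zero]
    have hf1W : f1 χ ∈ W := by
      have : f1 χ = (φ 1)⁻¹ • φ := by
        rw [hφf]
        funext g
        show f1 χ g = ((φ 1 • f1 χ) 1)⁻¹ * (φ 1 * f1 χ g)
        show f1 χ g = (φ 1 * f1 χ 1)⁻¹ * (φ 1 * f1 χ g)
        rw [f1_one, mul_one, inv_mul_cancel_left₀ hφ1]
      rw [this]
      exact W.smul_mem _ hφW
    exact span_dl hK hχ fun x => htr _ hf1W x⁻¹

/-- criterion for the compactness of the matrix coefficients -/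
lemma coeff_of (H : ∀ U ∈ 𝓝 (1 : G), ∃ C : Set G, IsCompact C ∧ ∀ g ∉ C,
      ∃ u : K, χ u ≠ 1 ∧ g * u * g⁻¹ ∈ U) :
    CompactCoeff (cInd K (chRep χ)) := by
  intro l hl f
  obtain ⟨C, hC, hCg⟩ := H _ hl
  -- the functions whose coefficients are compactly supported
  let W : Submodule ℂ (G → ℂ) :=
    { carrier := {f | ∃ hf : f ∈ cInd K (chRep χ), ∃ C' : Set G, IsCompact C' ∧
        ∀ (x : G) (f' : cInd K (chRep χ)), (∀ y, f'.1 y = f (y * x)) → l f' ≠ 0 → x ∈ C'}
      zero_mem' := by
        refine ⟨Submodule.zero_mem _, ∅, isCompact_empty, fun x f' hf' h => ?_⟩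
        exfalso
        apply h
        have : f' = 0 := by
          apply Subtype.ext
          funext y
          exact hf' y
        rw [this, map_zero]
      add_mem' := by
        rintro a b ⟨ha, C1, hC1, h1⟩ ⟨hb, C2, hC2, h2⟩
        refine ⟨Submodule.add_mem _ ha hb, C1 ∪ C2, hC1.union hC2, fun x f' hf' h => ?_⟩
        by_contra hx
        rw [Set.mem_union, not_or] at hx
        apply h
        let a' : cInd K (chRep χ) := ⟨fun y => a (y * x), InInd.translate ha x⟩
        let b' : cInd K (chRep χ) := ⟨fun y => b (y * x), InInd.translate hb x⟩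
        have e : f' = a' + b' := by
          apply Subtype.ext
          funext y
          exact hf' y
        have e1 : l a' = 0 := by
          by_contra h'
          exact hx.1 (h1 x a' (fun y => rfl) h')
        have e2 : l b' = 0 := by
          by_contra h'
          exact hx.2 (h2 x b' (fun y => rfl) h')
        rw [e, map_add, e1, e2, add_zero]
      smul_mem' := by
        rintro c a ⟨ha, C1, hC1, h1⟩
        refine ⟨Submodule.smul_mem _ c ha, C1, hC1, fun x f' hf' h => ?_⟩
        by_contra hx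
        apply h
        let a' : cInd K (chRep χ) := ⟨fun y => a (y * x), InInd.translate ha x⟩
        have e : f' = c • a' := by
          apply Subtype.ext
          funext y
          exact hf' y
        have e1 : l a' = 0 := by
          by_contra h'
          exact hx (h1 x a' (fun y => rfl) h')
        rw [e, map_smul, e1, smul_zero] }
  have hW : cInd K (chRep χ) ≤ W := by
    apply span_dl hK hχ
    intro t
    refine ⟨dl_mem hK hχ t, (fun x => x * t) '' C, hC.image (continuous_mul_const t),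
      fun x f' hf' h => ?_⟩
    by_contra hx
    apply h
    have hx' : x * t⁻¹ ∉ C := fun h' => hx ⟨x * t⁻¹, h', by group⟩
    obtain ⟨u, hu, huU⟩ := hCg _ hx'
    -- `f' = R(x t⁻¹) f1`
    have hf'' : ∀ y, f'.1 y = f1 χ (y * (x * t⁻¹)) := by
      intro y
      rw [hf' y]
      unfold dl
      rw [mul_assoc]
    let f2 : cInd K (chRep χ) := ⟨fun y => f'.1 (y * (x * t⁻¹ * u * (x * t⁻¹)⁻¹)),
      InInd.translate f'.2 _⟩
    have e1 : l f2 = l f' := huU f' f2 (fun y => rfl)
    have e2 : f2 = (χ u : ℂ) • f' := by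
      apply Subtype.ext
      funext y
      show f'.1 (y * (x * t⁻¹ * u * (x * t⁻¹)⁻¹)) = (χ u : ℂ) * (f'.1 y)
      rw [hf'', hf'']
      have e3 : y * (x * t⁻¹ * u * (x * t⁻¹)⁻¹) * (x * t⁻¹) = y * (x * t⁻¹) * u := by group
      rw [e3, f1_mul_right]
    rw [e2, map_smul, smul_eq_mul] at e1
    by_contra h0
    apply hu
    apply Units.ext
    have : (χ u : ℂ) * l f' = 1 * l f' := by rw [e1, one_mul]
    exact mul_right_cancel₀ h0 this
  obtain ⟨_, C', hC', h⟩ := hW f.2
  exact ⟨C', hC', fun x f' hf' h' => ⟨1, one_mem _, by rw [one_mul]; exact h x f' hf' h'⟩⟩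

/-- criterion for the vanishing of the Whittaker functionals -/
lemma whit_zero {N : Subgroup G} {ψ : N →* ℂˣ}
    (H : ∀ x : G, ∃ u : K, χ u ≠ 1 ∧ ∃ n : N, (n : G) = x * u * x⁻¹ ∧ ψ n = 1)
    {l : Module.Dual ℂ (cInd K (chRep χ))} (hl : l ∈ Whit (cInd K (chRep χ)) N.subtype ψ) :
    l = 0 := by
  let W : Submodule ℂ (G → ℂ) := (LinearMap.ker l).map (cInd K (chRep χ)).subtype
  have hW : cInd K (chRep χ) ≤ W := by
    apply span_dl hK hχ
    intro t
    refine ⟨⟨dl χ t, dl_mem hK hχ t⟩, ?_, rfl⟩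
    rw [SetLike.mem_coe, LinearMap.mem_ker]
    obtain ⟨u, hu, n, hn, hψ⟩ := H t⁻¹
    have h1 := hl n ⟨dl χ t, dl_mem hK hχ t⟩
      ⟨fun y => dl χ t (y * n), InInd.translate (dl_mem hK hχ t) _⟩ (fun y => rfl)
    have h2 : (⟨fun y => dl χ t (y * n), InInd.translate (dl_mem hK hχ t) _⟩ :
        cInd K (chRep χ)) = (χ u : ℂ) • ⟨dl χ t, dl_mem hK hχ t⟩ := by
      apply Subtype.ext
      funext y
      show dl χ t (y * n) = (χ u : ℂ) * (dl χ t y)
      unfold dl
      have e3 : y * (n : G) * t⁻¹ = y * t⁻¹ * u := by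
        rw [hn]
        group
      rw [e3, f1_mul_right]
    rw [h2, hψ, map_smul, Units.val_one, smul_eq_mul] at h1
    by_contra h0
    exact hu (Units.ext (mul_right_cancel₀ h0 h1))
  ext ⟨f, hf⟩
  obtain ⟨⟨f', hf'⟩, h, rfl⟩ := hW hf
  exact h

/-- criterion for the existence of a Whittaker functional -/
lemma whit_ne {N : Type} [Group N] {j : N →* G} {ψ : N →* ℂˣ}
    (H : ∀ (k : K) (n : N), (k : G) = j n → χ k = ψ n) :
    ∃ l ∈ Whit (cInd K (chRep χ)) j ψ, l ≠ 0 := by
  classical
  -- the cosets `(K ∩ N) n`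
  let S : Setoid N := QuotientGroup.rightRel (K.comap j)
  have hS : ∀ a b : N, S a b ↔ j b * (j a)⁻¹ ∈ K := by
    intro a b
    rw [show S a b ↔ b * a⁻¹ ∈ K.comap j from QuotientGroup.rightRel_apply,
      Subgroup.mem_comap, map_mul, map_inv]
  -- the summand
  let T : (G → ℂ) → N → ℂ := fun f n => ((ψ n)⁻¹ : ℂˣ).1 * f (j n)
  have hT : ∀ f ∈ cInd K (chRep χ), ∀ a b : N, S a b → T f a = T f b := by
    intro f hf a b hab
    have h1 : j b * (j a)⁻¹ ∈ K := (hS a b).1 hab
    have h2 := hf.1 ⟨j b * (j a)⁻¹, h1⟩ (j a)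
    have h3 := H ⟨j b * (j a)⁻¹, h1⟩ (b * a⁻¹) (by rw [map_mul, map_inv])
    rw [chRep_apply, h3, map_mul, map_inv] at h2
    have h4 : ((⟨j b * (j a)⁻¹, h1⟩ : K) : G) * (j a) = j b := by simp
    rw [h4] at h2
    show ((ψ a)⁻¹ : ℂˣ).1 * f (j a) = ((ψ b)⁻¹ : ℂˣ).1 * f (j b)
    rw [h2, Units.val_mul, ← mul_assoc, ← mul_assoc, Units.inv_mul, one_mul]
  let Tq : (f : G → ℂ) → (Quotient S) → ℂ := fun f q => T f q.out
  have hTq : ∀ f ∈ cInd K (chRep χ), ∀ n : N, Tq f (Quotient.mk S n) = T f n := by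
    intro f hf n
    exact hT f hf _ _ (Quotient.mk_out (s := S) n)
  have hfin : ∀ f ∈ cInd K (chRep χ), (Function.support (Tq f)).Finite := by
    intro f hf
    obtain ⟨h1, h2, F, hF, h3⟩ := hf
    have h4 : ∀ q ∈ Function.support (Tq f), ∃ t ∈ F, ∃ k ∈ K, j q.out = k * t := by
      intro q hq
      apply h3
      intro h0
      apply hq
      show ((ψ q.out)⁻¹ : ℂˣ).1 * f (j q.out) = 0
      rw [h0, mul_zero]
    choose! t ht k hk e using h4
    refine Set.Finite.of_finite_image (f := t) (hF.subset ?_) ?_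
    · rintro _ ⟨q, hq, rfl⟩
      exact ht q hq
    · intro q hq q' hq' hqq'
      rw [← Quotient.out_eq q, ← Quotient.out_eq q']
      apply Quotient.sound
      show S _ _
      rw [hS, e q hq, e q' hq', hqq']
      have : k q' * t q' * (k q * t q')⁻¹ = k q' * (k q)⁻¹ := by group
      rw [this]
      exact mul_mem (hk q' hq') (inv_mem (hk q hq))
  let l : Module.Dual ℂ (cInd K (chRep χ)) :=
    { toFun := fun f => ∑ᶠ q, Tq f.1 q
      map_add' := by
        intro f f'
        rw [← finsum_add_distrib (hfin _ f.2) (hfin _ f'.2)]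
        apply finsum_congr
        intro q
        show ((ψ q.out)⁻¹ : ℂˣ).1 * (f.1 (j q.out) + f'.1 (j q.out)) = _
        rw [mul_add]
      map_smul' := by
        intro c f
        rw [RingHom.id_apply, smul_eq_mul, mul_finsum]
        apply finsum_congr
        intro q
        show ((ψ q.out)⁻¹ : ℂˣ).1 * (c * f.1 (j q.out)) =
          c * (((ψ q.out)⁻¹ : ℂˣ).1 * f.1 (j q.out))
        ring }
  refine ⟨l, ?_, ?_⟩
  · intro n f f' hff'
    show ∑ᶠ q, Tq f'.1 q = (ψ n : ℂ) * ∑ᶠ q, Tq f.1 q
    rw [mul_finsum]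
    -- right multiplication by `n`
    let e : Quotient S ≃ Quotient S :=
      { toFun := Quotient.map (fun x => x * n) (by
          intro a b hab
          show S _ _
          rw [hS]
          have := (hS a b).1 hab
          have h5 : j (b * n) * (j (a * n))⁻¹ = (j b) * (j a)⁻¹ := by
            rw [map_mul, map_mul]
            group
          rwa [h5])
        invFun := Quotient.map (fun x => x * n⁻¹) (by
          intro a b hab
          show S _ _
          rw [hS]
          have := (hS a b).1 hab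
          have h5 : j (b * n⁻¹) * (j (a * n⁻¹))⁻¹ = (j b) * (j a)⁻¹ := by
            rw [map_mul, map_mul]
            group
          rwa [h5])
        left_inv := by
          intro q
          obtain ⟨a, rfl⟩ := Quotient.exists_rep q
          rw [Quotient.map_mk, Quotient.map_mk, mul_inv_cancel_right]
        right_inv := by
          intro q
          obtain ⟨a, rfl⟩ := Quotient.exists_rep q
          rw [Quotient.map_mk, Quotient.map_mk, inv_mul_cancel_right] }
    apply finsum_eq_of_bijective e e.bijective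
    intro q
    obtain ⟨a, rfl⟩ := Quotient.exists_rep q
    have e1 : e (Quotient.mk S a) = Quotient.mk S (a * n) := rfl
    rw [e1, hTq _ f.2, hTq _ f'.2]
    show ((ψ a)⁻¹ : ℂˣ).1 * f'.1 (j a) = (ψ n : ℂ) * (((ψ (a * n))⁻¹ : ℂˣ).1 * f.1 (j (a * n)))
    rw [hff', map_mul, map_mul, mul_inv, Units.val_mul]
    have e4 : (ψ n : ℂ) * (((ψ a)⁻¹ : ℂˣ).1 * ((ψ n)⁻¹ : ℂˣ).1 * f.1 (j a * j n)) =
      ((ψ n : ℂ) * ((ψ n)⁻¹ : ℂˣ).1) * (((ψ a)⁻¹ : ℂˣ).1 * f.1 (j a * j n)) := by ring
    rw [e4, Units.mul_inv, one_mul]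
  · intro h0
    have h1 : l ⟨f1 χ, f1_mem hK hχ⟩ = 0 := by rw [h0]; rfl
    have h2 : l ⟨f1 χ, f1_mem hK hχ⟩ = 1 := by
      show ∑ᶠ q, Tq (f1 χ) q = 1
      rw [finsum_eq_single _ (Quotient.mk S 1)]
      · rw [hTq _ (f1_mem hK hχ)]
        show ((ψ 1)⁻¹ : ℂˣ).1 * f1 χ (j 1) = 1
        rw [map_one, map_one, inv_one, Units.val_one, f1_one, one_mul]
      · intro q hq
        obtain ⟨a, rfl⟩ := Quotient.exists_rep q
        rw [hTq _ (f1_mem hK hχ)]
        show ((ψ a)⁻¹ : ℂˣ).1 * f1 χ (j a) = 0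
        rw [f1_zero, mul_zero]
        intro ha
        apply hq
        apply Quotient.sound
        show S _ _
        rw [hS]
        simpa using ha
    rw [h1] at h2
    exact zero_ne_one h2

end Mackey

end Pool.Agent.R716
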