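import Pool.Agent.R716.Mackey

/-!
# The group `Sp_4`
-/

open Topology Filter Matrix

namespace Pool.Agent.R716

section Ring

variable {R : Type} [CommRing R]

lemma J4_sq : J4 R * J4 R = -1 := by
  ext i j
  fin_cases i <;> fin_cases j <;> simp [J4, Matrix.mul_apply, Fin.sum_univ_succ]

lemma IsSymp.inv_mul {A : Matrix (Fin 4) (Fin 4) R} (hA : IsSymp A) :
    (-(J4 R * Aᵀ * J4 R)) * A = 1 := by
  have : -(J4 R * Aᵀ * J4 R) * A = -(J4 R * (Aᵀ * J4 R * A)) := by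
    rw [neg_mul]
    simp only [Matrix.mul_assoc]
  rw [this, hA, J4_sq, neg_neg]

lemma IsSymp.mul_inv {A : Matrix (Fin 4) (Fin 4) R} (hA : IsSymp A) :
    A * (-(J4 R * Aᵀ * J4 R)) = 1 := mul_eq_one_comm.1 hA.inv_mul

/-- the symplectic matrix `A` as an element of the symplectic group -/
def mkSp (A : Matrix (Fin 4) (Fin 4) R) (hA : IsSymp A) : Sp4 R :=
  ⟨⟨A, -(J4 R * Aᵀ * J4 R), hA.mul_inv, hA.inv_mul⟩, hA⟩

@[simp] lemma mkSp_val (A : Matrix (Fin 4) (Fin 4) R) (hA : IsSymp A) : (mkSp A hA).1.1 = A := rfl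

lemma sp_ext {g h : Sp4 R} (e : g.1.1 = h.1.1) : g = h := Subtype.ext (Units.ext e)

lemma inv_val (g : Sp4 R) : (g⁻¹ : Sp4 R).1.1 = -(J4 R * g.1.1ᵀ * J4 R) := by
  have h1 : (g⁻¹ : Sp4 R).1.1 * g.1.1 = 1 := Units.inv_mul g.1
  have h2 : IsSymp g.1.1 := g.2
  calc (g⁻¹ : Sp4 R).1.1 = (g⁻¹ : Sp4 R).1.1 * (g.1.1 * (-(J4 R * g.1.1ᵀ * J4 R))) := by
        rw [h2.mul_inv, Matrix.mul_one]
    _ = _ := by rw [← Matrix.mul_assoc, h1, Matrix.one_mul]

/-- the alternating form -/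
def om (v w : Fin 4 → R) : R := v 0 * w 3 + v 1 * w 2 - v 2 * w 1 - v 3 * w 0

lemma om_eq (v w : Fin 4 → R) : om v w = v ⬝ᵥ (J4 R *ᵥ w) := by
  simp [om, J4, dotProduct, mulVec, Fin.sum_univ_succ]
  ring

lemma om_swap (v w : Fin 4 → R) : om v w = - om w v := by
  simp only [om]; ring

lemma om_self (v : Fin 4 → R) : om v v = 0 := by
  simp only [om]; ring

/-- the action on vectors -/
def act (g : Sp4 R) (v : Fin 4 → R) : Fin 4 → R := g.1.1 *ᵥ v

lemma act_mul (g h : Sp4 R) (v : Fin 4 → R) : act (g * h) v = act g (act h v) := by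
  simp [act, mulVec_mulVec]

lemma act_one (v : Fin 4 → R) : act 1 v = v := by
  simp [act]

lemma act_add (g : Sp4 R) (v w : Fin 4 → R) : act g (v + w) = act g v + act g w :=
  mulVec_add _ _ _

lemma act_sub (g : Sp4 R) (v w : Fin 4 → R) : act g (v - w) = act g v - act g w :=
  mulVec_sub _ _ _

lemma act_smul (g : Sp4 R) (c : R) (v : Fin 4 → R) : act g (c • v) = c • act g v :=
  mulVec_smul _ _ _

lemma act_inv (g : Sp4 R) (v : Fin 4 → R) : act g (act g⁻¹ v) = v := by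
  rw [← act_mul, mul_inv_cancel, act_one]

lemma act_inv' (g : Sp4 R) (v : Fin 4 → R) : act g⁻¹ (act g v) = v := by
  rw [← act_mul, inv_mul_cancel, act_one]

lemma om_act_aux (A : Matrix (Fin 4) (Fin 4) R) (v w : Fin 4 → R) :
    om (A *ᵥ v) (A *ᵥ w) = v ⬝ᵥ ((Aᵀ * J4 R * A) *ᵥ w) := by
  rw [om_eq, ← mulVec_mulVec, ← mulVec_mulVec, dotProduct_mulVec _ Aᵀ, vecMul_transpose]

lemma om_act (g : Sp4 R) (v w : Fin 4 → R) : om (act g v) (act g w) = om v w := by
  have h : g.1.1ᵀ * J4 R * g.1.1 = J4 R := g.2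
  rw [act, act, om_act_aux, h, om_eq]

lemma isSymp_of {A : Matrix (Fin 4) (Fin 4) R} (h : ∀ v w, om (A *ᵥ v) (A *ᵥ w) = om v w) :
    IsSymp A := by
  unfold IsSymp
  ext i j
  have := h (Pi.single i 1) (Pi.single j 1)
  rw [om_act_aux, om_eq] at this
  simpa using this

/-- the row vector `⟨w, · ⟩` -/
def st (w : Fin 4 → R) : Fin 4 → R := ![-w 3, -w 2, w 1, w 0]

lemma st_dot (w x : Fin 4 → R) : st w ⬝ᵥ x = om w x := by
  simp [st, om, dotProduct, Fin.sum_univ_succ]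
  ring

end Ring

section Field

variable {F : Type} [Field F]

/-- the matrix `1 + (1 + ⟨v, w⟩)⁻¹ v w^* + w v^*` -/
def Umat (v w : Fin 4 → F) : Matrix (Fin 4) (Fin 4) F :=
  1 + (1 + om v w)⁻¹ • vecMulVec v (st w) + vecMulVec w (st v)

lemma vecMulVec_st (v w x : Fin 4 → F) : vecMulVec v (st w) *ᵥ x = om w x • v := by
  rw [vecMulVec_mulVec, st_dot]
  ext i
  simp [mul_comm]

lemma Umat_mulVec (v w x : Fin 4 → F) :
    Umat v w *ᵥ x = x + ((1 + om v w)⁻¹ * om w x) • v + (om v x) • w := by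
  rw [Umat, add_mulVec, add_mulVec, one_mulVec, smul_mulVec, vecMulVec_st, vecMulVec_st,
    smul_smul]

lemma om_add_left (v v' w : Fin 4 → F) : om (v + v') w = om v w + om v' w := by
  simp only [om, Pi.add_apply]; ring

lemma om_add_right (v w w' : Fin 4 → F) : om v (w + w') = om v w + om v w' := by
  simp only [om, Pi.add_apply]; ring

lemma om_smul_left (c : F) (v w : Fin 4 → F) : om (c • v) w = c * om v w := by
  simp only [om, Pi.smul_apply, smul_eq_mul]; ring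

lemma om_smul_right (c : F) (v w : Fin 4 → F) : om v (c • w) = c * om v w := by
  simp only [om, Pi.smul_apply, smul_eq_mul]; ring

lemma Umat_symp {v w : Fin 4 → F} (h : 1 + om v w ≠ 0) : IsSymp (Umat v w) := by
  apply isSymp_of
  intro x y
  rw [Umat_mulVec, Umat_mulVec]
  simp only [om_add_left, om_add_right, om_smul_left, om_smul_right, om_self]
  rw [om_swap x v, om_swap x w, om_swap w v]
  have h' : om v w = (1 + om v w) - 1 := by ring
  generalize 1 + om v w = c at *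
  rw [h']
  field_simp
  ring

lemma exists_U {v w : Fin 4 → F} (h : 1 + om v w ≠ 0) : ∃ u : Sp4 F, u.1.1 = Umat v w :=
  ⟨mkSp _ (Umat_symp h), rfl⟩

lemma mat_ext {A B : Matrix (Fin 4) (Fin 4) F} (h : ∀ x, A *ᵥ x = B *ᵥ x) : A = B := by
  ext i j
  have := congrFun (h (Pi.single j 1)) i
  simpa using this

lemma conj_U {v w : Fin 4 → F} (g : Sp4 F) {u : Sp4 F} (h : u.1.1 = Umat v w) :
    (g * u * g⁻¹).1.1 = Umat (act g v) (act g w) := by
  apply mat_ext
  intro x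
  have h1 : (g * u * g⁻¹).1.1 *ᵥ x = act g (act u (act g⁻¹ x)) := by
    rw [← act_mul, ← act_mul]
    rfl
  have h2 : act u (act g⁻¹ x) = act g⁻¹ x + ((1 + om v w)⁻¹ * om w (act g⁻¹ x)) • v +
      (om v (act g⁻¹ x)) • w := by
    rw [act, h, Umat_mulVec]
  have h3 : ∀ y, om y (act g⁻¹ x) = om (act g y) x := by
    intro y
    rw [← om_act g, act_inv]
  rw [h1, h2, act_add, act_add, act_smul, act_smul, act_inv, Umat_mulVec, h3, h3, om_act]

end Field

/-! ### Topology -/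

section Top

variable {p : ℕ} [Fact p.Prime]

/-- the inclusion into the matrices is a closed embedding -/
lemma isClosedEmbedding_val : IsClosedEmbedding (fun g : Sp4 ℚ_[p] => g.1.1) := by
  have hc : Continuous (fun g : Sp4 ℚ_[p] => g.1.1) :=
    Units.continuous_val.comp continuous_subtype_val
  have hF : Continuous (fun A : Matrix (Fin 4) (Fin 4) ℚ_[p] =>
      (A, MulOpposite.op (-(J4 ℚ_[p] * Aᵀ * J4 ℚ_[p])))) := by
    refine continuous_id.prodMk (MulOpposite.continuous_op.comp ?_)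
    exact ((continuous_const.matrix_mul continuous_id.matrix_transpose).matrix_mul
      continuous_const).neg
  have hind : IsInducing (fun g : Sp4 ℚ_[p] => g.1.1) := by
    refine IsInducing.of_comp hc hF ?_
    have : ((fun A : Matrix (Fin 4) (Fin 4) ℚ_[p] =>
      (A, MulOpposite.op (-(J4 ℚ_[p] * Aᵀ * J4 ℚ_[p])))) ∘ (fun g : Sp4 ℚ_[p] => g.1.1)) =
      (Units.embedProduct (Matrix (Fin 4) (Fin 4) ℚ_[p])) ∘ Subtype.val := by
      funext g
      simp only [Function.comp_apply, Units.embedProduct_apply]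
      rw [← inv_val]
      rfl
    rw [this]
    exact Units.isInducing_embedProduct.comp IsInducing.subtypeVal
  refine ⟨⟨hind, fun g h e => sp_ext e⟩, ?_⟩
  have hr : Set.range (fun g : Sp4 ℚ_[p] => g.1.1) =
      {A : Matrix (Fin 4) (Fin 4) ℚ_[p] | Aᵀ * J4 ℚ_[p] * A = J4 ℚ_[p]} := by
    ext A
    constructor
    · rintro ⟨g, rfl⟩
      exact g.2
    · intro h
      exact ⟨mkSp A h, rfl⟩
  rw [hr]
  exact isClosed_eq ((continuous_id.matrix_transpose.matrix_mul continuous_const).matrix_mul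
    continuous_id) continuous_const

/-- bounded closed sets are compact -/
lemma isCompact_bdd (c : ℝ) : IsCompact {g : Sp4 ℚ_[p] | ∀ k l, ‖g.1.1 k l‖ ≤ c} := by
  have h1 : IsCompact {A : Matrix (Fin 4) (Fin 4) ℚ_[p] | ∀ k l, ‖A k l‖ ≤ c} := by
    have h2 : IsCompact (Set.pi Set.univ (fun _ : Fin 4 => Set.pi Set.univ
        (fun _ : Fin 4 => Metric.closedBall (0 : ℚ_[p]) c))) :=
      isCompact_univ_pi fun k => isCompact_univ_pi fun l => isCompact_closedBall _ _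
    have : {A : Matrix (Fin 4) (Fin 4) ℚ_[p] | ∀ k l, ‖A k l‖ ≤ c} =
        Set.pi Set.univ (fun _ : Fin 4 => Set.pi Set.univ
        (fun _ : Fin 4 => Metric.closedBall (0 : ℚ_[p]) c)) := by
      ext A
      constructor
      · intro h k _ l _
        rw [mem_closedBall_zero_iff]
        exact h k l
      · intro h k l
        have := h k (Set.mem_univ _) l (Set.mem_univ _)
        rwa [mem_closedBall_zero_iff] at this
    rw [this]
    exact h2
  exact isClosedEmbedding_val.isCompact_preimage h1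

/-- the standard neighbourhoods of `1` -/
lemma nhds_one {U : Set (Sp4 ℚ_[p])} (hU : U ∈ 𝓝 (1 : Sp4 ℚ_[p])) :
    ∃ r : ℝ, 0 < r ∧ ∀ g : Sp4 ℚ_[p],
      (∀ k l, ‖g.1.1 k l - (1 : Matrix (Fin 4) (Fin 4) ℚ_[p]) k l‖ < r) → g ∈ U := by
  rw [isClosedEmbedding_val.isInducing.nhds_eq_comap, mem_comap] at hU
  obtain ⟨t, ht, htU⟩ := hU
  have h1 : ((1 : Sp4 ℚ_[p]).1.1) = (1 : Matrix (Fin 4) (Fin 4) ℚ_[p]) := rfl
  rw [h1] at ht
  -- product topology
  let t' : Set (Fin 4 → Fin 4 → ℚ_[p]) := t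
  have h2 : t' ∈ 𝓝 (fun k l => (1 : Matrix (Fin 4) (Fin 4) ℚ_[p]) k l) := ht
  rw [nhds_pi, Filter.mem_pi'] at h2
  obtain ⟨I, s, hs, hst⟩ := h2
  have h3 : ∀ k, ∃ r : ℝ, 0 < r ∧ ∀ x : Fin 4 → ℚ_[p],
      (∀ l, ‖x l - (1 : Matrix (Fin 4) (Fin 4) ℚ_[p]) k l‖ < r) → x ∈ s k := by
    intro k
    obtain ⟨r, hr, hrs⟩ := Metric.mem_nhds_iff.1 (hs k)
    refine ⟨r, hr, fun x hx => hrs ?_⟩
    rw [Metric.mem_ball, dist_pi_lt_iff hr]
    intro l
    rw [dist_eq_norm]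
    exact hx l
  choose r hr hrs using h3
  obtain ⟨k0, hk0⟩ := Finite.exists_min r
  refine ⟨r k0, hr k0, fun g hg => htU ?_⟩
  apply hst
  intro k _
  exact hrs k _ fun l => (hg k l).trans_le (hk0 k)

lemma nhds_one' {r : ℝ} (hr : 0 < r) : {g : Sp4 ℚ_[p] |
    ∀ k l, ‖g.1.1 k l - (1 : Matrix (Fin 4) (Fin 4) ℚ_[p]) k l‖ < r} ∈ 𝓝 (1 : Sp4 ℚ_[p]) := by
  have hc : Continuous (fun g : Sp4 ℚ_[p] => g.1.1) := isClosedEmbedding_val.continuous
  have h : ∀ k l, ∀ᶠ g : Sp4 ℚ_[p] in 𝓝 (1 : Sp4 ℚ_[p]),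
      ‖g.1.1 k l - (1 : Matrix (Fin 4) (Fin 4) ℚ_[p]) k l‖ < r := by
    intro k l
    have hc' : Continuous (fun g : Sp4 ℚ_[p] =>
        ‖g.1.1 k l - (1 : Matrix (Fin 4) (Fin 4) ℚ_[p]) k l‖) := by
      have : Continuous (fun g : Sp4 ℚ_[p] => g.1.1 k l) := hc.matrix_elem k l
      fun_prop
    have h0 : ‖(1 : Sp4 ℚ_[p]).1.1 k l - (1 : Matrix (Fin 4) (Fin 4) ℚ_[p]) k l‖ < r := by
      have : (1 : Sp4 ℚ_[p]).1.1 k l - (1 : Matrix (Fin 4) (Fin 4) ℚ_[p]) k l = 0 := sub_self _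
      rw [this, norm_zero]
      exact hr
    exact hc'.continuousAt.eventually_lt continuousAt_const h0
  have := eventually_all.2 fun k => eventually_all.2 fun l => h k l
  exact this

end Top

end Pool.Agent.R716
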