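import Pool.Agent.R716.Gen

/-!
# Genericity and covers of degree divisible by `p`: the case of `Sp_4(ℚ_3)`
-/

open Topology Filter
namespace Pool.Agent.R716.Wild

/-! ## Proof -/

/-- the coefficients of the anisotropic forms -/
def a1 : Fin 3 → ℤ := ![1, 0, 1]

/-- the coefficients of the anisotropic forms -/
def b1 : Fin 3 → ℤ := ![1, -1, -1]

/-- the coefficients of the isotropic forms -/
def a2 : Fin 3 → ℤ := ![0, 1, 0]

/-- the coefficients of the isotropic forms -/
def b2 : Fin 3 → ℤ := ![1, 0, -1]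

lemma aniso1 : Aniso 3 a1 b1 := by
  unfold Aniso qz a1 b1
  decide

lemma cusp2 : Cusp 3 a2 b2 := by
  unfold Cusp qz a2 b2
  decide

lemma stab_of {a b : Fin 3 → ℤ} (H : ∀ x y z t : ZMod 3,
    (∀ m n : ZMod 3, 2 * qz a (x * m + y * n) (z * m + t * n) = 2 * qz a m n) →
    (∀ m n : ZMod 3, 2 * qz b (x * m + y * n) (z * m + t * n) = 2 * qz b m n) →
    (x = 1 ∧ y = 0 ∧ z = 0 ∧ t = 1) ∨ (x = -1 ∧ y = 0 ∧ z = 0 ∧ t = -1)) : Stab 3 a b := by
  intro x y z t x' y' z' t' h1 h2 r1 r2 r3 r4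
  have hD : ∀ D : ZMod 3, D = 0 ∨ D * D = 1 := by decide
  have e1 : x' * (x * t - y * z) = x := by linear_combination x * r1 - y * r2
  have e2 : z' * (x * t - y * z) = z := by linear_combination z * r1 - t * r2
  have e3 : y' * (x * t - y * z) = y := by linear_combination x * r4 - y * r3
  have e4 : t' * (x * t - y * z) = t := by linear_combination z * r4 - t * r3
  rcases hD (x * t - y * z) with h | h
  · rw [h, mul_zero] at e1 e2 e3 e4
    rw [← e4, ← e3] at r1
    simp at r1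
  · set D := x * t - y * z with hDdef
    have f1 : x' = D * x := by linear_combination D * e1 - x' * h
    have f2 : z' = D * z := by linear_combination D * e2 - z' * h
    have f3 : y' = D * y := by linear_combination D * e3 - y' * h
    have f4 : t' = D * t := by linear_combination D * e4 - t' * h
    have h3 : ∀ m n : ZMod 3, 2 * qz b (x * m + y * n) (z * m + t * n) = 2 * qz b m n := by
      intro m n
      rw [← h2 m n, f1, f2, f3, f4]
      have e5 : D * x * m + D * y * n = D * (x * m + y * n) := by ring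
      have e6 : D * z * m + D * t * n = D * (z * m + t * n) := by ring
      rw [e5, e6]
      simp only [qz]
      linear_combination (-2 * (b 0 * (x * m + y * n) ^ 2 +
        b 1 * ((x * m + y * n) * (z * m + t * n)) + b 2 * (z * m + t * n) ^ 2)) * h
    rcases H x y z t h1 h3 with ⟨k1, k2, k3, k4⟩ | ⟨k1, k2, k3, k4⟩
    · left
      have hD1 : D = 1 := by rw [hDdef, k1, k2, k3, k4]; ring
      refine ⟨k1, k2, k3, k4, ?_, ?_, ?_, ?_⟩
      · rw [f1, hD1, k1, mul_one]
      · rw [f3, k2, mul_zero]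
      · rw [f2, k3, mul_zero]
      · rw [f4, hD1, k4, mul_one]
    · right
      have hD1 : D = 1 := by rw [hDdef, k1, k2, k3, k4]; ring
      refine ⟨k1, k2, k3, k4, ?_, ?_, ?_, ?_⟩
      · rw [f1, hD1, k1, one_mul]
      · rw [f3, k2, mul_zero]
      · rw [f2, k3, mul_zero]
      · rw [f4, hD1, k4, one_mul]

set_option maxRecDepth 100000 in
lemma stab1 : Stab 3 a1 b1 := by
  apply stab_of
  unfold qz a1 b1
  decide

set_option maxRecDepth 100000 in
lemma stab2 : Stab 3 a2 b2 := by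
  apply stab_of
  unfold qz a2 b2
  decide

/-! ### Covers -/

section Cover

variable {E G : Type} [Group E] [Group G] {π : E →* G}

/-- the character of `π⁻¹(K)` attached to `ε` and a character of `K` -/
lemma exists_extChar (hc : π.ker ≤ Subgroup.center E) {K : Subgroup G} {s : K →* E}
    (hs : ∀ k : K, π (s k) = k) (ε : π.ker →* ℂˣ) (χ : K →* ℂˣ) :
    ∃ χt : K.comap π →* ℂˣ, ∀ (x : K.comap π) (z : π.ker) (k : K), (x : E) = z * s k →
      χt x = ε z * χ k := by
  have hker : ∀ x : K.comap π, x.1 * (s (π.subgroupComap K x))⁻¹ ∈ π.ker := by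
    intro x
    rw [MonoidHom.mem_ker, map_mul, map_inv, hs]
    exact mul_inv_cancel _
  refine ⟨{ toFun := fun x => ε ⟨_, hker x⟩ * χ (π.subgroupComap K x)
            map_one' := ?_
            map_mul' := ?_ }, ?_⟩
  · have h1 : (⟨_, hker 1⟩ : π.ker) = 1 := by
      apply Subtype.ext
      show (1 : E) * (s (π.subgroupComap K 1))⁻¹ = 1
      rw [map_one, map_one, inv_one, one_mul]
    rw [h1, map_one, map_one, map_one, one_mul]
  · intro x y
    have h1 : (⟨_, hker (x * y)⟩ : π.ker) = ⟨_, hker x⟩ * ⟨_, hker y⟩ := by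
      apply Subtype.ext
      show x.1 * y.1 * (s (π.subgroupComap K (x * y)))⁻¹ =
        x.1 * (s (π.subgroupComap K x))⁻¹ * (y.1 * (s (π.subgroupComap K y))⁻¹)
      have hcy := Subgroup.mem_center_iff.1 (hc (hker y)) (s (π.subgroupComap K x))⁻¹
      rw [mul_assoc x.1 _ (y.1 * _), hcy, map_mul, map_mul]
      group
    rw [h1, map_mul, map_mul, map_mul]
    exact mul_mul_mul_comm _ _ _ _
  · intro x z k e
    have hk : π.subgroupComap K x = k := by
      apply Subtype.ext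
      show π x.1 = k
      rw [e, map_mul, hs, MonoidHom.mem_ker.1 z.2, one_mul]
    have hz : (⟨_, hker x⟩ : π.ker) = z := by
      apply Subtype.ext
      show x.1 * (s (π.subgroupComap K x))⁻¹ = z
      rw [hk, e, mul_inv_cancel_right]
    show ε ⟨_, hker x⟩ * χ (π.subgroupComap K x) = ε z * χ k
    rw [hz, hk]

end Cover

/-- the difference of the two characters -/
noncomputable def dc : KK 3 →* Multiplicative (ZMod 3) := chi a1 b1 * (chi a2 b2)⁻¹

lemma dc_ev : ∀ᶠ k in 𝓝 (1 : KK 3), dc k = 1 := by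
  filter_upwards [chi_ev (a := a1) (b := b1), chi_ev (a := a2) (b := b2)] with k h1 h2
  show chi a1 b1 k * (chi a2 b2 k)⁻¹ = 1
  rw [h1, h2, inv_one, one_mul]

lemma dc_rel (θ : Multiplicative (ZMod 3) →* ℂˣ) (k : KK 3) :
    θ (dc k) * chiC a2 b2 θ k = chiC a1 b1 θ k := by
  show θ (chi a1 b1 k * (chi a2 b2 k)⁻¹) * θ (chi a2 b2 k) = θ (chi a1 b1 k)
  rw [← map_mul, inv_mul_cancel_right]

/-- the twisted splitting -/
lemma exists_twist {E : Type} [Group E] [TopologicalSpace E] [IsTopologicalGroup E]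
    {π : E →* Sp4 ℚ_[3]} (hc : π.ker ≤ Subgroup.center E) {s : KK 3 →* E}
    (hs : IsSplitting π (KK 3) s) (τ : Multiplicative (ZMod 3) →* π.ker) :
    ∃ s1 : KK 3 →* E, IsSplitting π (KK 3) s1 ∧ ∀ k, s1 k = τ (dc k) * s k := by
  let t : KK 3 →* E := (π.ker.subtype.comp τ).comp dc
  have ht : Continuous t := by
    apply continuous_of_continuousAt_one
    rw [ContinuousAt, map_one]
    refine tendsto_const_nhds.congr' ?_
    filter_upwards [dc_ev] with k hk
    show (1 : E) = (τ (dc k) : E)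
    rw [hk, map_one]
    rfl
  let s1 : KK 3 →* E :=
    { toFun := fun k => t k * s k
      map_one' := by rw [map_one, map_one, one_mul]
      map_mul' := by
        intro x y
        have hcy := Subgroup.mem_center_iff.1 (hc (τ (dc y)).2) (s x)
        have hcy' : s x * t y = t y * s x := hcy
        rw [map_mul, map_mul]
        calc t x * t y * (s x * s y) = t x * (t y * s x) * s y := by group
          _ = t x * (s x * t y) * s y := by rw [hcy']
          _ = _ := by group }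
  refine ⟨s1, ⟨ht.mul hs.1, ?_⟩, fun k => rfl⟩
  intro k
  show π (t k * s k) = k
  rw [map_mul, hs.2, show π (t k) = 1 from (τ (dc k)).2, one_mul]

lemma isExt1 {E : Type} [Group E] {π : E →* Sp4 ℚ_[3]} {s s1 : KK 3 →* E}
    {τ : Multiplicative (ZMod 3) →* π.ker} (hs1 : ∀ k, s1 k = τ (dc k) * s k)
    {ε : π.ker →* ℂˣ} {χt : (KK 3).comap π →* ℂˣ}
    (hχt : ∀ (x : (KK 3).comap π) (z : π.ker) (k : KK 3), (x : E) = z * s k →
      χt x = ε z * chiC a2 b2 (ε.comp τ) k) :
    IsExt π ε (KK 3) s1 (chRep (chiC a1 b1 (ε.comp τ))) (chRep χt) := by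
  intro x z k e
  have e2 : (x : E) = (z * τ (dc k) : π.ker) * s k := by
    rw [e, hs1]
    push_cast
    group
  have h1 := hχt x _ k e2
  rw [map_mul, mul_assoc] at h1
  have h2 : ε (τ (dc k)) * chiC a2 b2 (ε.comp τ) k = chiC a1 b1 (ε.comp τ) k :=
    dc_rel (ε.comp τ) k
  rw [h2] at h1
  ext
  simp [h1]

lemma isExt2 {E : Type} [Group E] {π : E →* Sp4 ℚ_[3]} {s : KK 3 →* E}
    {ε : π.ker →* ℂˣ} {χ : KK 3 →* ℂˣ} {χt : (KK 3).comap π →* ℂˣ}
    (hχt : ∀ (x : (KK 3).comap π) (z : π.ker) (k : KK 3), (x : E) = z * s k →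
      χt x = ε z * χ k) :
    IsExt π ε (KK 3) s (chRep χ) (chRep χt) := by
  intro x z k e
  have h1 := hχt x _ k e
  ext
  simp [h1]

lemma not_generic1 {θ : Multiplicative (ZMod 3) →* ℂˣ} (hθ : Function.Injective θ) :
    ¬ Generic (IsWhittaker ℚ_[3]) (KK 3) (chRep (chiC a1 b1 θ)) := by
  rintro ⟨N, ψ, hN, l, hl, hl0⟩
  exact hl0 (nongeneric aniso1 hθ hN hl)

lemma a2_1 : ((a2 1 : ℤ) : ZMod 3) ≠ 0 := by
  show (((1 : ℤ)) : ZMod 3) ≠ 0
  decide

lemma b2_0 : ((b2 0 : ℤ) : ZMod 3) ≠ 0 := by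
  show (((1 : ℤ)) : ZMod 3) ≠ 0
  decide

lemma generic2 {θ : Multiplicative (ZMod 3) →* ℂˣ} (hθ : Function.Injective θ) :
    Generic (IsWhittaker ℚ_[3]) (KK 3) (chRep (chiC a2 b2 θ)) :=
  generic (a := a2) (b := b2) rfl a2_1 b2_0 hθ

lemma allFail : AllCoversFail 3 (IsWhittaker ℚ_[3]) (KK 3) := by
  intro E _ _ _ _ π ε hπ h3 hε ⟨s, hs⟩
  have hfin : Finite π.ker := hπ.2.2.2.2.1
  have hc := hπ.2.2.2.1
  -- the embedding of `ℤ/3`
  obtain ⟨z0, hz0⟩ := exists_prime_orderOf_dvd_card' 3 h3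
  have hz3 : z0 ^ 3 = 1 := by
    have := pow_orderOf_eq_one z0
    rwa [hz0] at this
  let τ0 : ZMod 3 →+ Additive π.ker :=
    ZMod.lift 3 ⟨zmultiplesHom _ (Additive.ofMul z0), by
      rw [zmultiplesHom_apply]
      show ((3 : ℕ) : ℤ) • Additive.ofMul z0 = 0
      rw [natCast_zsmul, ← ofMul_pow, hz3, ofMul_one]⟩
  let τ : Multiplicative (ZMod 3) →* π.ker := AddMonoidHom.toMultiplicativeLeft τ0
  have hτ : Function.Injective τ := by
    rw [injective_iff_map_eq_one]
    intro x hx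
    obtain ⟨m, hm⟩ := ZMod.intCast_surjective x.toAdd
    have h1 : τ0 x.toAdd = 0 := hx
    rw [← hm] at h1
    have h2 : τ0 ((m : ℤ) : ZMod 3) = Additive.ofMul (z0 ^ m) := by
      show ZMod.lift 3 _ ((m : ℤ) : ZMod 3) = _
      rw [ZMod.lift_coe]
      rfl
    rw [h2] at h1
    have h4 : z0 ^ m = 1 := h1
    rw [← orderOf_dvd_iff_zpow_eq_one, hz0] at h4
    have h5 : x.toAdd = 0 := by
      rw [← hm]
      exact (ZMod.intCast_zmod_eq_zero_iff_dvd m 3).2 h4
    exact h5
  have hθ : Function.Injective (ε.comp τ) := hε.comp hτ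
  obtain ⟨s1, hs1, hs1'⟩ := exists_twist hc hs τ
  obtain ⟨χt, hχt⟩ := exists_extChar hc hs.2 ε (chiC a2 b2 (ε.comp τ))
  by_cases hg : GenericCover (IsWhittaker ℚ_[3]) π (KK 3) (chRep χt)
  · refine ⟨s1, chRep (chiC a1 b1 (ε.comp τ)), chRep χt,
      ⟨hs1, chiC_smooth _, irr_chi aniso1.cusp stab1 hθ, coeff_chi aniso1.cusp hθ,
        isExt1 hs1' hχt⟩, fun h => not_generic1 hθ (h.1 hg)⟩
  · refine ⟨s, chRep (chiC a2 b2 (ε.comp τ)), chRep χt,
      ⟨hs, chiC_smooth _, irr_chi cusp2 stab2 hθ, coeff_chi cusp2 hθ, isExt2 hχt⟩,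
      fun h => hg (h.2 (generic2 hθ))⟩

/-! ### The product cover -/

/-- the product cover -/
abbrev EE : Type := Sp4 ℚ_[3] × Multiplicative (ZMod 3)

/-- the projection -/
noncomputable def prE : EE →* Sp4 ℚ_[3] := MonoidHom.fst _ _

lemma prE_cover : IsFiniteCover prE ∧ Nat.card prE.ker = 3 := by
  have hk : ∀ x : EE, x ∈ prE.ker ↔ x.1 = 1 := fun x => Iff.rfl
  let e : Multiplicative (ZMod 3) ≃* prE.ker :=
    { toFun := fun z => ⟨(1, z), rfl⟩
      invFun := fun x => x.1.2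
      left_inv := fun z => rfl
      right_inv := by
        rintro ⟨⟨g, z⟩, h⟩
        have h' : g = 1 := h
        subst h'
        rfl
      map_mul' := by
        intro x y
        apply Subtype.ext
        show ((1 : Sp4 ℚ_[3]), x * y) = (1 * 1, x * y)
        rw [one_mul] }
  refine ⟨⟨continuous_fst, isOpenMap_fst, ?_, ?_, ?_, ?_⟩, ?_⟩
  · intro g
    exact ⟨(g, 1), rfl⟩
  · intro x hx
    rw [Subgroup.mem_center_iff]
    intro y
    have h1 : x.1 = 1 := hx
    apply Prod.ext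
    · show y.1 * x.1 = x.1 * y.1
      rw [h1, mul_one, one_mul]
    · exact mul_comm y.2 x.2
  · exact Finite.of_equiv _ e.toEquiv
  · exact isCyclic_of_surjective e e.surjective
  · rw [← Nat.card_congr e.toEquiv]
    exact Nat.card_zmod 3

/-- a faithful character of `ℤ/3` -/
lemma exists_theta : ∃ θ : Multiplicative (ZMod 3) →* ℂˣ, Function.Injective θ := by
  refine ⟨(ZMod.stdAddChar (N := 3)).toMonoidHom.toHomUnits, fun x y h => ?_⟩
  have h1 := congrArg (fun u : ℂˣ => (u : ℂ)) h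
  exact ZMod.injective_stdAddChar h1

lemma coverExample : CoverExample 3 (IsWhittaker ℚ_[3]) (KK 3) := by
  obtain ⟨θ, hθ⟩ := exists_theta
  obtain ⟨hπ, hcard⟩ := prE_cover
  have hc := hπ.2.2.2.1
  let ε : prE.ker →* ℂˣ := θ.comp ((MonoidHom.snd _ _).comp prE.ker.subtype)
  have hε : Function.Injective ε := by
    rintro ⟨⟨g, z⟩, hg⟩ ⟨⟨g', z'⟩, hg'⟩ h
    have h1 : g = 1 := hg
    have h2 : g' = 1 := hg'
    have h3 : z = z' := hθ h
    subst h1 h2 h3
    rfl
  -- the obvious splitting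
  let s : KK 3 →* EE := (MonoidHom.inl _ _).comp (KK 3).subtype
  have hs : IsSplitting prE (KK 3) s :=
    ⟨continuous_subtype_val.prodMk continuous_const, fun k => rfl⟩
  let τ : Multiplicative (ZMod 3) →* prE.ker :=
    (MonoidHom.inr (Sp4 ℚ_[3]) (Multiplicative (ZMod 3))).codRestrict prE.ker (fun z => rfl)
  have hετ : ε.comp τ = θ := rfl
  obtain ⟨s1, hs1, hs1'⟩ := exists_twist hc hs τ
  obtain ⟨χt, hχt⟩ := exists_extChar hc hs.2 ε (chiC a2 b2 (ε.comp τ))
  -- the values of `χt`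
  have hval : ∀ (x : (KK 3).comap prE), χt x = θ x.1.2 * chiC a2 b2 θ ⟨x.1.1, x.2⟩ := by
    intro x
    exact hχt x ⟨(1, x.1.2), rfl⟩ ⟨x.1.1, x.2⟩ (Prod.ext (one_mul _).symm (mul_one _).symm)
  have hKo : IsOpen (((KK 3).comap prE : Subgroup EE) : Set EE) :=
    KK_open.preimage hπ.1
  have hKc : IsCompact (((KK 3).comap prE : Subgroup EE) : Set EE) := by
    have : (((KK 3).comap prE : Subgroup EE) : Set EE) =
        (KK 3 : Set (Sp4 ℚ_[3])) ×ˢ (Set.univ : Set (Multiplicative (ZMod 3))) := by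
      ext x
      simp [prE]
    rw [this]
    exact KK_compact.prod Set.finite_univ.isCompact
  have hχs : Smooth (chRep χt) := by
    intro v
    have hc1 : Continuous fun x : (KK 3).comap prE => (⟨x.1.1, x.2⟩ : KK 3) :=
      (continuous_fst.comp continuous_subtype_val).subtype_mk _
    have hc2 : Continuous fun x : (KK 3).comap prE => x.1.2 :=
      continuous_snd.comp continuous_subtype_val
    have h1 : ∀ᶠ x : (KK 3).comap prE in 𝓝 1, chi a2 b2 (⟨x.1.1, x.2⟩ : KK 3) = 1 :=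
      (hc1.tendsto 1).eventually (chi_ev (a := a2) (b := b2))
    have h2 : ∀ᶠ x : (KK 3).comap prE in 𝓝 1, x.1.2 = 1 := by
      have h3 : ∀ᶠ z : Multiplicative (ZMod 3) in 𝓝 1, z = 1 := by
        have : ({1} : Set (Multiplicative (ZMod 3))) ∈ 𝓝 1 :=
          (isOpen_discrete _).mem_nhds rfl
        exact this
      exact (hc2.tendsto 1).eventually h3
    filter_upwards [h1, h2] with x hx hx'
    rw [chRep_apply, hval, hx', map_one, one_mul]
    show ((θ (chi a2 b2 ⟨x.1.1, x.2⟩) : ℂˣ) : ℂ) * v = v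
    rw [hx, map_one, Units.val_one, one_mul]
  refine ⟨EE, inferInstance, inferInstance, inferInstance, inferInstance, prE, ε, s1,
    chRep (chiC a1 b1 (ε.comp τ)), chRep χt, hπ, hcard, hε,
    ⟨hs1, chiC_smooth _, irr_chi aniso1.cusp stab1 hθ, coeff_chi aniso1.cusp hθ,
        isExt1 hs1' hχt⟩, ?_, ?_, not_generic1 hθ, ?_⟩
  · -- irreducibility
    apply irr_of hKo hχs hKc
    rintro ⟨g, z⟩ hg
    have hg' : g ∉ KK 3 := hg
    obtain ⟨u, u', e, hne⟩ := intertwine_chi cusp2 stab2 hθ hg'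
    refine ⟨⟨(u.1, 1), u.2⟩, ⟨(u'.1, 1), u'.2⟩, ?_, ?_⟩
    · apply Prod.ext
      · exact e
      · show (1 : Multiplicative (ZMod 3)) = z * 1 * z⁻¹
        rw [mul_one, mul_inv_cancel]
    · rw [hval, hval]
      show θ 1 * chiC a2 b2 θ u' ≠ θ 1 * chiC a2 b2 θ u
      rw [map_one, one_mul, one_mul]
      exact hne
  · -- cuspidality
    apply coeff_of hKo hχs
    intro U hU
    have hU' : {g : Sp4 ℚ_[3] | (g, (1 : Multiplicative (ZMod 3))) ∈ U} ∈ 𝓝 (1 : Sp4 ℚ_[3]) := by
      have hcont : Continuous fun g : Sp4 ℚ_[3] => ((g, 1) : EE) :=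
        continuous_id.prodMk continuous_const
      exact (hcont.tendsto 1) hU
    obtain ⟨C, hC, hCg⟩ := cusp_chi (a := a2) (b := b2) cusp2 hθ hU'
    refine ⟨C ×ˢ Set.univ, hC.prod Set.finite_univ.isCompact, ?_⟩
    rintro ⟨g, z⟩ hg
    have hg' : g ∉ C := fun h => hg ⟨h, Set.mem_univ _⟩
    obtain ⟨u, hu, huU⟩ := hCg g hg'
    refine ⟨⟨(u.1, 1), u.2⟩, ?_, ?_⟩
    · rw [hval]
      show θ 1 * chiC a2 b2 θ u ≠ 1
      rw [map_one, one_mul]
      exact hu
    · have e : ((g, z) : EE) * (u.1, 1) * (g, z)⁻¹ = (g * u.1 * g⁻¹, 1) := by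
        apply Prod.ext
        · rfl
        · show z * 1 * z⁻¹ = 1
          rw [mul_one, mul_inv_cancel]
      show ((g, z) : EE) * (u.1, 1) * (g, z)⁻¹ ∈ U
      rw [e]
      exact huU
  · -- genericity
    obtain ⟨ψ, hψ, H⟩ := exists_psi (a := a2) (b := b2) rfl a2_1 b2_0 hθ
    let i : UU 3 →* EE := (MonoidHom.inl _ _).comp (UU 3).subtype
    have hi : IsSplitting prE (UU 3) i :=
      ⟨continuous_subtype_val.prodMk continuous_const, fun k => rfl⟩
    refine ⟨UU 3, ψ, i, hψ, hi, whit_ne hKo hχs ?_⟩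
    rintro ⟨⟨g, z⟩, hk⟩ n e
    have e1 : g = n := congrArg Prod.fst e
    have e2 : z = 1 := congrArg Prod.snd e
    subst e2
    rw [hval]
    show θ 1 * chiC a2 b2 θ ⟨g, hk⟩ = ψ n
    rw [map_one, one_mul]
    exact H ⟨g, hk⟩ n e1

end Pool.Agent.R716.Wild
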